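import Pool.Agent.Helper15.GM.Lin

/-!
# Curves of genus one over a non-closed field
-/

namespace Pool.Agent.Helper15.GM

open IntermediateField MvPolynomial

/-- The system `P` over the algebraically closed field `F` defines a curve of genus one: every
zero which is not a tuple of constants generates the function field of an elliptic curve, and
all these zeros are conjugate. -/
def CL (F : Type) [Field F] {H ι : Type} (P : ι → MvPolynomial H F) : Prop :=
  ∀ (Ω : Type) [Field Ω] [Algebra F Ω] (y : H → Ω), (∀ i, aeval y (P i) = 0) →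
    (∃ h, y h ∉ Set.range (algebraMap F Ω)) →
    Ell F (adjoin F (Set.range y)) ∧
    ∀ (Ω' : Type) [Field Ω'] (φ : F →+* Ω') (y' : H → Ω'), (∀ i, eval₂ φ y' (P i) = 0) →
      (∃ h, y' h ∉ Set.range φ) →
      ∃ ψ : adjoin F (Set.range y) →+* Ω', (∀ a : F, ψ (algebraMap F _ a) = φ a) ∧
        ∀ h, ψ ⟨y h, subset_adjoin _ _ ⟨h, rfl⟩⟩ = y' h

theorem isGenusOne_of_CL {K E : Type} [Field K] [CharZero K] [Field E] [Algebra K E]
    (B : IntermediateField K E) {H ι : Type} (P : ι → MvPolynomial H B)
    (hP : CL (algebraicClosure B (AlgebraicClosure E))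
      fun i => MvPolynomial.map (algebraMap B (algebraicClosure B (AlgebraicClosure E))) (P i))
    (x : H → E) (hx : ∀ i, aeval x (P i) = 0) (htr : ∃ h, Transcendental B (x h))
    (htop : adjoin B (Set.range x) = ⊤) : IsGenusOne B := by
  set Ē := AlgebraicClosure E with hĒ
  set F := algebraicClosure B Ē with hF
  set y : H → Ē := fun h => algebraMap E Ē (x h) with hy
  have hmem : ∀ z : Ē, z ∈ F ↔ IsAlgebraic B z := fun z => mem_algebraicClosure_iff
  have hnc : ∃ h, y h ∉ Set.range (algebraMap F Ē) := by
    obtain ⟨h, hh⟩ := htr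
    refine ⟨h, ?_⟩
    rintro ⟨z, hz⟩
    apply hh
    have h1 : IsAlgebraic B (y h) := by
      rw [← hmem, ← hz]
      exact z.2
    exact (isAlgebraic_algebraMap_iff (algebraMap E Ē).injective).mp h1
  have hzero : ∀ (φ : F →+* Ē), (∀ b : B, φ (algebraMap B F b) = algebraMap B Ē b) → ∀ i,
      eval₂ φ y (MvPolynomial.map (algebraMap B F) (P i)) = 0 := by
    intro φ hφ i
    rw [eval₂_map]
    have h1 : φ.comp (algebraMap B F) = (algebraMap E Ē).comp (algebraMap B E) := by
      ext b
      exact hφ b
    rw [h1]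
    have h2 := congrArg (algebraMap E Ē) (hx i)
    rw [map_zero, aeval_def, hom_eval₂] at h2
    exact h2
  have hz := hzero (algebraMap F Ē) (fun b => rfl)
  obtain ⟨hell, htransfer⟩ := hP Ē y (fun i => hz i) hnc
  -- elements of `E` as fractions
  have hfrac : ∀ e : E, ∃ p q : MvPolynomial H B, aeval x q ≠ 0 ∧ e = aeval x p / aeval x q := by
    intro e
    have he : e ∈ adjoin B (Set.range x) := by rw [htop]; trivial
    rw [mem_adjoin_range_iff] at he
    obtain ⟨r, s, hrs⟩ := he
    by_cases hs : aeval x s = 0
    · refine ⟨0, 1, by simp, ?_⟩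
      rw [hrs, hs]
      simp
    · exact ⟨r, s, hs, hrs⟩
  have hcz : CharZero B := charZero_of_injective_algebraMap (algebraMap K B).injective
  refine ⟨?_, ?_⟩
  · intro e he
    have heF : algebraMap E Ē e ∈ F := by
      rw [hmem]
      exact he.algebraMap
    obtain ⟨p, q, hq, hpq⟩ := hfrac e
    have hgal : IsGalois B F := by
      have : Normal B F := IsAlgClosure.normal B F
      exact ⟨⟩
    have hfix : ∀ σ : F ≃ₐ[B] F, σ ⟨algebraMap E Ē e, heF⟩ = ⟨algebraMap E Ē e, heF⟩ := by
      intro σ
      let φ : F →+* Ē := (algebraMap F Ē).comp (σ : F →+* F)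
      have hφ : ∀ b : B, φ (algebraMap B F b) = algebraMap B Ē b := by
        intro b
        show algebraMap F Ē (σ (algebraMap B F b)) = _
        rw [σ.commutes]
        rfl
      have hnc' : ∃ h, y h ∉ Set.range φ := by
        obtain ⟨h, hh⟩ := hnc
        refine ⟨h, ?_⟩
        rintro ⟨z, hz⟩
        exact hh ⟨σ z, hz⟩
      obtain ⟨ψ, hψ, hψy⟩ := htransfer Ē φ y (hzero φ hφ) hnc'
      -- evaluation in the field `F(y)`
      let y₁ : H → adjoin F (Set.range y) := fun h => ⟨y h, subset_adjoin _ _ ⟨h, rfl⟩⟩
      let β : B →+* adjoin F (Set.range y) := (algebraMap F _).comp (algebraMap B F)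
      have e2 : ∀ r : MvPolynomial H B, (adjoin F (Set.range y)).val.toRingHom (eval₂ β y₁ r)
          = algebraMap E Ē (aeval x r) := by
        intro r
        rw [eval₂_comp_left, aeval_def, eval₂_comp_left]
        rfl
      have e3 : ∀ r : MvPolynomial H B, ψ (eval₂ β y₁ r) = algebraMap E Ē (aeval x r) := by
        intro r
        rw [eval₂_comp_left, aeval_def, eval₂_comp_left]
        have h1 : ψ.comp β = (algebraMap E Ē).comp (algebraMap B E) := by
          ext b
          show ψ (algebraMap F _ (algebraMap B F b)) = _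
          rw [hψ, hφ]
          rfl
        have h2 : ψ ∘ y₁ = algebraMap E Ē ∘ x := funext hψy
        rw [h1, h2]
      have e4 : algebraMap F (adjoin F (Set.range y)) ⟨algebraMap E Ē e, heF⟩ * eval₂ β y₁ q
          = eval₂ β y₁ p := by
        apply (adjoin F (Set.range y)).val.injective
        have h1 := e2 q
        have h2 := e2 p
        have h3 : (adjoin F (Set.range y)).val.toRingHom
          (algebraMap F (adjoin F (Set.range y)) ⟨algebraMap E Ē e, heF⟩) = algebraMap E Ē e := rfl
        show (adjoin F (Set.range y)).val.toRingHom _ = (adjoin F (Set.range y)).val.toRingHom _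
        rw [map_mul, h1, h2, h3, ← map_mul, hpq, div_mul_cancel₀ _ hq]
      have e5 := congrArg ψ e4
      rw [map_mul, e3, e3, hψ] at e5
      have e6 : algebraMap E Ē (aeval x q) ≠ 0 := by
        rw [Ne, map_eq_zero]
        exact hq
      apply Subtype.ext
      show φ ⟨algebraMap E Ē e, heF⟩ = algebraMap E Ē e
      apply mul_right_cancel₀ e6
      rw [e5, ← map_mul, hpq, div_mul_cancel₀ _ hq]
    have := (InfiniteGalois.mem_bot_iff_fixed (k := B) (K := F) ⟨algebraMap E Ē e, heF⟩).mpr hfix
    obtain ⟨b, hb⟩ := this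
    have h2 : algebraMap E Ē (algebraMap B E b) = algebraMap E Ē e := congrArg Subtype.val hb
    rw [← (algebraMap E Ē).injective h2]
    exact b.2
  · obtain ⟨X, Y, a, b, h1, h2, h3, h4⟩ := hell
    refine ⟨X, Y, a, b, ?_, h2, ?_, ?_⟩
    · intro hX
      apply h1
      exact hX.extendScalars (algebraMap B F).injective
    · exact h3
    · rw [h4]
      apply le_antisymm
      · rw [adjoin_le_iff]
        rintro _ ⟨h, rfl⟩
        exact subset_adjoin _ _ ⟨x h, rfl⟩
      · rw [adjoin_le_iff]
        rintro _ ⟨e, rfl⟩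
        obtain ⟨p, q, hq, hpq⟩ := hfrac e
        have hm : ∀ r : MvPolynomial H B, algebraMap E Ē (aeval x r)
            ∈ adjoin F (Set.range y) := by
          intro r
          let y₁ : H → adjoin F (Set.range y) := fun h => ⟨y h, subset_adjoin _ _ ⟨h, rfl⟩⟩
          let β : B →+* adjoin F (Set.range y) := (algebraMap F _).comp (algebraMap B F)
          have e2 : (adjoin F (Set.range y)).val.toRingHom (eval₂ β y₁ r)
              = algebraMap E Ē (aeval x r) := by
            rw [eval₂_comp_left, aeval_def, eval₂_comp_left]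
            rfl
          rw [← e2]
          exact (eval₂ β y₁ r).2
        rw [hpq, map_div₀]
        exact div_mem (hm p) (hm q)

end Pool.Agent.Helper15.GM
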