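import Pool.Agent.Helper15.GM.Fibre

/-!
# Conics
-/

namespace Pool.Agent.Helper15.GM

open IntermediateField MvPolynomial Matrix

/-- The system `P` over the field `F`: every two zeros which are not tuples of constants are
conjugate. -/
def CU (F : Type) [Field F] {H ι : Type} (P : ι → MvPolynomial H F) : Prop :=
  ∀ (Ω : Type) [Field Ω] [Algebra F Ω] (y : H → Ω), (∀ i, aeval y (P i) = 0) →
    (∃ h, y h ∉ Set.range (algebraMap F Ω)) →
    ∀ (Ω' : Type) [Field Ω'] (φ : F →+* Ω') (y' : H → Ω'), (∀ i, eval₂ φ y' (P i) = 0) →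
      (∃ h, y' h ∉ Set.range φ) →
      ∃ ψ : adjoin F (Set.range y) →+* Ω', (∀ a : F, ψ (algebraMap F _ a) = φ a) ∧
        ∀ h, ψ ⟨y h, subset_adjoin _ _ ⟨h, rfl⟩⟩ = y' h

theorem CL.cu {F : Type} [Field F] {H ι : Type} {P : ι → MvPolynomial H F} (h : CL F P) :
    CU F P := fun Ω _ _ y hy hn => (h Ω y hy hn).2

theorem CU.of_equiv {F : Type} [Field F] {H H' ι ι' : Type} {P : ι → MvPolynomial H F}
    (hP : CU F P) (P' : ι' → MvPolynomial H' F) (e : H ≃ H')
    (h : ∀ (Ω : Type) [Field Ω] (φ : F →+* Ω) (y : H' → Ω), (∀ i, eval₂ φ y (P' i) = 0) →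
      ∀ i, eval₂ φ (fun s => y (e s)) (P i) = 0) : CU F P' := by
  intro Ω _ _ y hy hnc
  have hr : Set.range (fun s => y (e s)) = Set.range y := e.surjective.range_comp y
  have hnc1 : ∃ s, y (e s) ∉ Set.range (algebraMap F Ω) := by
    obtain ⟨s, hs⟩ := hnc
    exact ⟨e.symm s, by rwa [e.apply_symm_apply]⟩
  have h2 := hP Ω (fun s => y (e s)) (h Ω (algebraMap F Ω) y hy) hnc1
  have hle : adjoin F (Set.range y) ≤ adjoin F (Set.range fun s => y (e s)) := by
    rw [hr]
  intro Ω' _ φ y' hy' hnc'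
  have hnc1' : ∃ s, y' (e s) ∉ Set.range φ := by
    obtain ⟨s, hs⟩ := hnc'
    exact ⟨e.symm s, by rwa [e.apply_symm_apply]⟩
  obtain ⟨ψ, hψ, hψy⟩ := h2 Ω' φ (fun s => y' (e s)) (h Ω' φ y' hy') hnc1'
  refine ⟨ψ.comp (IntermediateField.inclusion hle).toRingHom, fun a => ?_, fun s => ?_⟩
  · rw [← hψ a]
    show ψ (IntermediateField.inclusion hle (algebraMap F _ a)) = _
    rw [AlgHom.commutes]
  · have h3 := hψy (e.symm s)
    simp only [e.apply_symm_apply] at h3
    rw [← h3]
    rfl

variable {J S : Type} [Fintype J] [DecidableEq J] [Fintype S] [DecidableEq S]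

/-- The homogeneous coordinates. -/
abbrev HC (J : Type) := Fin 3 ⊕ J

/-- The coefficients. -/
abbrev EC (J S : Type) := (J × HC J) ⊕ S

section Ring

variable {A : Type*} [CommRing A]

/-- The linear forms, with a dummy coordinate. -/
def lamc (c : EC J S → A) : J → Option (HC J) → A
  | _, none => 0
  | j, some h => c (Sum.inl (j, h))

/-- The determinant. -/
def detc (c : EC J S → A) : A := (blk (lamc c)).det

/-- The kernel vectors. -/
def kvc (c : EC J S → A) (p : Fin 3) (h : HC J) : A := kv (lamc c) p (some h)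

/-- The equations. -/
def eqc (ix : S → Fin 2 → HC J) (c : EC J S → A) (y : HC J → A) : Option J → A
  | none => val ix (fun s => c (Sum.inr s)) y
  | some j => ∑ h, c (Sum.inl (j, h)) * y h

/-- The Gram matrix. -/
def mc (ix : S → Fin 2 → HC J) (c : EC J S → A) (p q : Fin 3) : A :=
  mul2 ix (fun s => c (Sum.inr s)) (kvc c p) (kvc c q)

/-- The coefficients of the quadratic polynomial. -/
def qc2 (ix : S → Fin 2 → HC J) (c : EC J S → A) : A :=
  (mc ix c 1 2 + mc ix c 2 1) ^ 2 - 4 * mc ix c 1 1 * mc ix c 2 2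

/-- See `qc2`. -/
def qc1 (ix : S → Fin 2 → HC J) (c : EC J S → A) : A :=
  2 * (mc ix c 0 1 + mc ix c 1 0) * (mc ix c 1 2 + mc ix c 2 1)
    - 4 * mc ix c 1 1 * (mc ix c 0 2 + mc ix c 2 0)

/-- See `qc2`. -/
def qc0 (ix : S → Fin 2 → HC J) (c : EC J S → A) : A :=
  (mc ix c 0 1 + mc ix c 1 0) ^ 2 - 4 * mc ix c 1 1 * mc ix c 0 0

/-- The open condition. -/
def gc (ix : S → Fin 2 → HC J) (c : EC J S → A) : A :=
  detc c * mc ix c 1 1 * qc2 ix c * (qc1 ix c ^ 2 - 4 * qc2 ix c * qc0 ix c)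

variable {B : Type*} [CommRing B] (φ : A →+* B)

omit [Fintype J] [DecidableEq J] [Fintype S] [DecidableEq S] in
theorem map_lamc (c : EC J S → A) (j : J) (h : Option (HC J)) :
    φ (lamc c j h) = lamc (fun e => φ (c e)) j h := by
  rcases h with _ | h
  · exact map_zero φ
  · rfl

omit [Fintype S] [DecidableEq S] in
theorem map_detc (c : EC J S → A) : φ (detc c) = detc (fun e => φ (c e)) := by
  rw [detc, RingHom.map_det]
  rfl

omit [Fintype S] [DecidableEq S] in
theorem map_kvc (c : EC J S → A) (p : Fin 3) (h : HC J) :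
    φ (kvc c p h) = kvc (fun e => φ (c e)) p h := by
  rw [kvc, map_kv]
  simp only [map_lamc]
  rfl

omit [DecidableEq J] [DecidableEq S] in
theorem map_eqc (ix : S → Fin 2 → HC J) (c : EC J S → A) (y : HC J → A) (i : Option J) :
    φ (eqc ix c y i) = eqc ix (fun e => φ (c e)) (fun h => φ (y h)) i := by
  rcases i with _ | j
  · exact map_val ix φ _ _
  · simp only [eqc, map_sum, map_mul]

omit [DecidableEq S] in
theorem map_mc (ix : S → Fin 2 → HC J) (c : EC J S → A) (p q : Fin 3) :
    φ (mc ix c p q) = mc ix (fun e => φ (c e)) p q := by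
  simp only [mc, mul2, map_sum, map_mul, map_kvc]

omit [DecidableEq S] in
theorem map_gc (ix : S → Fin 2 → HC J) (c : EC J S → A) :
    φ (gc ix c) = gc ix (fun e => φ (c e)) := by
  simp only [gc, qc2, qc1, qc0, map_mul, map_sub, map_add, map_pow, map_ofNat, map_mc, map_detc]

omit [Fintype S] [DecidableEq S] in
theorem kvc_span (c : EC J S → A) (y : HC J → A)
    (hy : ∀ j, ∑ h, c (Sum.inl (j, h)) * y h = 0) (h : HC J) :
    detc c * y h = ∑ p, y (Sum.inl p) * kvc c p h := by
  let w : Option (HC J) → A := fun h => h.elim 0 y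
  have h1 := kv_span (lamc c) w rfl (fun j => by
    rw [Fintype.sum_option]
    show lamc c j none * 0 + _ = 0
    rw [mul_zero, zero_add]
    exact hy j) (some h)
  exact h1

omit [DecidableEq S] in
/-- The equation of the conic. -/
theorem conic_eq (ix : S → Fin 2 → HC J) (c : EC J S → A) (y : HC J → A)
    (hy : ∀ i, eqc ix c y i = 0) (h1 : y (Sum.inl 0) = 1) :
    mc ix c 1 1 * y (Sum.inl 1) ^ 2 + ((mc ix c 0 1 + mc ix c 1 0)
      + (mc ix c 1 2 + mc ix c 2 1) * y (Sum.inl 2)) * y (Sum.inl 1)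
      + (mc ix c 0 0 + (mc ix c 0 2 + mc ix c 2 0) * y (Sum.inl 2)
        + mc ix c 2 2 * y (Sum.inl 2) ^ 2) = 0 := by
  have h2 := kvc_span c y (fun j => hy (some j))
  have h3 : val ix (fun s => c (Sum.inr s)) (fun h => detc c * y h)
      = detc c ^ 2 * val ix (fun s => c (Sum.inr s)) y := by
    simp only [val, Fin.prod_univ_two, Finset.mul_sum]
    apply Finset.sum_congr rfl
    intro s _
    ring
  have h4 : val ix (fun s => c (Sum.inr s)) y = 0 := hy none
  rw [h4, mul_zero] at h3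
  have h5 : (fun h => detc c * y h) = fun h => ∑ p, y (Sum.inl p) * kvc c p h := funext h2
  rw [h5, val2_expand ix (fun s => c (Sum.inr s)) (fun p => y (Sum.inl p)) (kvc c)] at h3
  simp only [Fin.sum_univ_three, h1] at h3
  simp only [mc]
  linear_combination h3

end Ring

/-- The quadratic polynomial. -/
noncomputable def qpol {F : Type} [Field F] (ix : S → Fin 2 → HC J) (c : EC J S → F) :
    Polynomial F :=
  Polynomial.C (qc0 ix c) + Polynomial.C (qc1 ix c) * Polynomial.X
    + Polynomial.C (qc2 ix c) * Polynomial.X ^ 2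

theorem quad_sep {F : Type} [Field F] (q0 q1 q2 : F) (h2 : q2 ≠ 0)
    (hd : q1 ^ 2 - 4 * q2 * q0 ≠ 0) : (Polynomial.C q0 + Polynomial.C q1 * Polynomial.X
      + Polynomial.C q2 * Polynomial.X ^ 2).Separable ∧
    (Polynomial.C q0 + Polynomial.C q1 * Polynomial.X
      + Polynomial.C q2 * Polynomial.X ^ 2).natDegree = 2 := by
  have hder : Polynomial.derivative (Polynomial.C q0 + Polynomial.C q1 * Polynomial.X
      + Polynomial.C q2 * Polynomial.X ^ 2)
      = Polynomial.C q1 + Polynomial.C (2 * q2) * Polynomial.X := by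
    have h2' : (Polynomial.C (2 : F)) = 2 := map_ofNat _ 2
    simp only [Polynomial.derivative_add, Polynomial.derivative_C, Polynomial.derivative_C_mul,
      Polynomial.derivative_X, Polynomial.derivative_X_pow, Polynomial.C_mul, h2']
    norm_num
    rw [h2']
    ring
  refine ⟨?_, ?_⟩
  · rw [Polynomial.Separable, hder]
    refine ⟨Polynomial.C (-(4 * q2) / (q1 ^ 2 - 4 * q2 * q0)),
      Polynomial.C (1 / (q1 ^ 2 - 4 * q2 * q0))
        * (Polynomial.C q1 + Polynomial.C (2 * q2) * Polynomial.X), ?_⟩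
    have e1 : -(4 * q2) / (q1 ^ 2 - 4 * q2 * q0) * q0 + 1 / (q1 ^ 2 - 4 * q2 * q0) * q1 * q1
        = 1 := by
      field_simp
      ring
    have e2 : -(4 * q2) / (q1 ^ 2 - 4 * q2 * q0) * q1
        + (1 / (q1 ^ 2 - 4 * q2 * q0) * q1 * (2 * q2)
          + 1 / (q1 ^ 2 - 4 * q2 * q0) * (2 * q2) * q1) = 0 := by
      field_simp
      ring
    have e3 : -(4 * q2) / (q1 ^ 2 - 4 * q2 * q0) * q2
        + 1 / (q1 ^ 2 - 4 * q2 * q0) * (2 * q2) * (2 * q2) = 0 := by
      field_simp
      ring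
    have f1 := congrArg (Polynomial.C : F → Polynomial F) e1
    have f2 := congrArg (Polynomial.C : F → Polynomial F) e2
    have f3 := congrArg (Polynomial.C : F → Polynomial F) e3
    simp only [Polynomial.C_add, Polynomial.C_mul, Polynomial.C_1, Polynomial.C_0] at f1 f2 f3 ⊢
    linear_combination f1 + f2 * Polynomial.X + f3 * Polynomial.X ^ 2
  · have h3 : Polynomial.C q0 + Polynomial.C q1 * Polynomial.X
      + Polynomial.C q2 * Polynomial.X ^ 2 = Polynomial.C q2 * Polynomial.X ^ 2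
        + Polynomial.C q1 * Polynomial.X + Polynomial.C q0 := by ring
    rw [h3]
    exact Polynomial.natDegree_quadratic h2


omit [DecidableEq S] in
/-- A conic over a field: a double cover of the line branched at two points. -/
theorem isQuartic_of_conic {K E : Type} [Field K] [CharZero K] [Field E] [Algebra K E]
    (B : IntermediateField K E) (ix : S → Fin 2 → HC J) (c : EC J S → B) (y : HC J → E)
    (hy : ∀ i, eqc ix (fun e => algebraMap B E (c e)) y i = 0) (h1 : y (Sum.inl 0) = 1)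
    (hg : gc ix c ≠ 0) (htr : ∃ h, Transcendental B (y h))
    (htop : adjoin B (Set.range y) = ⊤) :
    ∃ (X Y : E) (q : Polynomial B), Curve.IsQuartic B X Y q := by
  have hcz : CharZero B := charZero_of_injective_algebraMap (algebraMap K B).injective
  set φ := algebraMap B E with hφ
  have hdisc := right_ne_zero_of_mul hg
  have hg2 := left_ne_zero_of_mul hg
  have hq2 := right_ne_zero_of_mul hg2
  have hg3 := left_ne_zero_of_mul hg2
  have hα := right_ne_zero_of_mul hg3
  have hD := left_ne_zero_of_mul hg3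
  have heq := conic_eq ix (fun e => φ (c e)) y hy h1
  simp only [← map_mc φ] at heq
  have hspan := kvc_span (fun e => φ (c e)) y (fun j => hy (some j))
  simp only [← map_detc φ, ← map_kvc φ] at hspan
  have hα' : φ (mc ix c 1 1) ≠ 0 := by
    rw [Ne, map_eq_zero]; exact hα
  have hD' : φ (detc c) ≠ 0 := by
    rw [Ne, map_eq_zero]; exact hD
  have h2E : (2 : E) ≠ 0 := by
    have : (2 : E) = φ 2 := (map_ofNat _ 2).symm
    rw [this, Ne, map_eq_zero]; norm_num
  set X := y (Sum.inl 2) with hX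
  set Y := 2 * φ (mc ix c 1 1) * y (Sum.inl 1) + (φ (mc ix c 0 1) + φ (mc ix c 1 0))
    + (φ (mc ix c 1 2) + φ (mc ix c 2 1)) * X with hY
  have hy1 : y (Sum.inl 1) = (Y - (φ (mc ix c 0 1) + φ (mc ix c 1 0))
    - (φ (mc ix c 1 2) + φ (mc ix c 2 1)) * X) / (2 * φ (mc ix c 1 1)) := by
    rw [hY]
    field_simp
    ring
  have hmem : ∀ L : IntermediateField B E, X ∈ L → Y ∈ L → ∀ h, y h ∈ L := by
    intro L hXL hYL
    have hφL : ∀ b, φ b ∈ L := fun b => L.algebraMap_mem b
    have m1 : y (Sum.inl 1) ∈ L := by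
      rw [hy1]
      exact div_mem (sub_mem (sub_mem hYL (add_mem (hφL _) (hφL _)))
        (mul_mem (add_mem (hφL _) (hφL _)) hXL)) (mul_mem (ofNat_mem _ 2) (hφL _))
    have m0 : y (Sum.inl 0) ∈ L := by
      rw [h1]
      exact one_mem _
    intro h
    have h3 : y h = (∑ p, y (Sum.inl p) * φ (kvc c p h)) / φ (detc c) := by
      rw [← hspan h]
      field_simp
    rw [h3]
    refine div_mem (sum_mem fun p _ => mul_mem ?_ (hφL _)) (hφL _)
    fin_cases p
    · exact m0
    · exact m1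
    · exact hXL
  have heqn : Y ^ 2 = Polynomial.aeval X (qpol ix c) := by
    simp only [qpol, map_add, map_mul, map_pow, Polynomial.aeval_C, Polynomial.aeval_X]
    rw [← hφ]
    simp only [qc2, qc1, qc0, map_sub, map_add, map_mul, map_pow, map_ofNat]
    rw [hY]
    linear_combination (4 * φ (mc ix c 1 1)) * heq
  obtain ⟨hsep, hdeg⟩ := quad_sep _ _ _ hq2 hdisc
  refine ⟨X, Y, qpol ix c, ?_, hsep, ?_, ?_, heqn, ?_⟩
  · intro hXa
    obtain ⟨h, hh⟩ := htr
    apply hh
    have hYa : IsAlgebraic B Y := by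
      have h3 : IsAlgebraic B (Y ^ 2) := by
        rw [heqn, ← mem_algebraicClosure_iff, Polynomial.aeval_eq_sum_range]
        exact sum_mem fun i _ => (algebraicClosure B E).smul_mem
          (pow_mem (mem_algebraicClosure_iff.mpr hXa) i)
      exact h3.of_pow two_pos
    have h4 := hmem (algebraicClosure B E) (mem_algebraicClosure_iff.mpr hXa)
      (mem_algebraicClosure_iff.mpr hYa) h
    exact mem_algebraicClosure_iff.mp h4
  · show 1 ≤ (qpol ix c).natDegree
    rw [qpol, hdeg]
    norm_num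
  · show (qpol ix c).natDegree ≤ 4
    rw [qpol, hdeg]
    norm_num
  · rw [eq_top_iff, ← htop, adjoin_le_iff]
    rintro _ ⟨h, rfl⟩
    exact hmem _ (mem_left _ _) (mem_right _ _) h

/-- The system. -/
noncomputable def sysc {F : Type} [Field F] (ix : S → Fin 2 → HC J) (c : EC J S → F) :
    Option (Option J) → MvPolynomial (HC J) F
  | none => X (Sum.inl 0) - 1
  | some i => eqc ix (fun e => C (c e)) X i

omit [DecidableEq J] [DecidableEq S] in
theorem eval_sysc {F Ω : Type} [Field F] [Field Ω] (φ : F →+* Ω) (ix : S → Fin 2 → HC J)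
    (c : EC J S → F) (y : HC J → Ω) : (∀ i, eval₂ φ y (sysc ix c i) = 0) ↔
      y (Sum.inl 0) = 1 ∧ ∀ i, eqc ix (fun e => φ (c e)) y i = 0 := by
  have key : ∀ i, eval₂ φ y (eqc ix (fun e => C (c e)) X i) = eqc ix (fun e => φ (c e)) y i := by
    intro i
    have := map_eqc (eval₂Hom φ y) ix (fun e => C (c e)) (X : HC J → MvPolynomial (HC J) F) i
    simpa using this
  constructor
  · intro h
    refine ⟨?_, fun i => ?_⟩
    · have := h none
      simp only [sysc, eval₂_sub, eval₂_X, eval₂_one] at this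
      exact sub_eq_zero.mp this
    · rw [← key]
      exact h (some i)
  · rintro ⟨h1, h2⟩ i
    rcases i with _ | i
    · simp only [sysc, eval₂_sub, eval₂_X, eval₂_one, h1, sub_self]
    · exact (key i).trans (h2 i)

omit [DecidableEq S] in
theorem cu_conic {F : Type} [Field F] [IsAlgClosed F] [CharZero F] (ix : S → Fin 2 → HC J)
    (c : EC J S → F) (hg : gc ix c ≠ 0) : CU F (sysc ix c) := by
  have hdisc := right_ne_zero_of_mul hg
  have hg2 := left_ne_zero_of_mul hg
  have hq2 := right_ne_zero_of_mul hg2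
  have hg3 := left_ne_zero_of_mul hg2
  have hα := right_ne_zero_of_mul hg3
  have hD := left_ne_zero_of_mul hg3
  obtain ⟨hsep, hdeg⟩ := quad_sep _ _ _ hq2 hdisc
  have key : ∀ (Ω : Type) [Field Ω] [Algebra F Ω] (y : HC J → Ω),
      (∀ i, eval₂ (algebraMap F Ω) y (sysc ix c i) = 0) →
      (∃ h, y h ∉ Set.range (algebraMap F Ω)) →
      (∀ h, y h = algebraMap F Ω (kvc c 0 h / detc c) + ∑ p : Fin 2,
        (![y (Sum.inl 1), y (Sum.inl 2)] : Fin 2 → Ω) p * algebraMap F Ω
          ((![fun h => kvc c 1 h / detc c, fun h => kvc c 2 h / detc c] :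
            Fin 2 → HC J → F) p h)) ∧
      Transcendental F (y (Sum.inl 2)) ∧
      algebraMap F Ω (mc ix c 1 1) * y (Sum.inl 1) ^ 2 + (algebraMap F Ω (mc ix c 0 1 + mc ix c 1 0)
      + algebraMap F Ω (mc ix c 1 2 + mc ix c 2 1) * y (Sum.inl 2)) * y (Sum.inl 1)
      + (algebraMap F Ω (mc ix c 0 0) + algebraMap F Ω (mc ix c 0 2 + mc ix c 2 0) * y (Sum.inl 2)
        + algebraMap F Ω (mc ix c 2 2) * y (Sum.inl 2) ^ 2) = 0 := by
    intro Ω _ _ y hy hnc
    rw [eval_sysc] at hy
    set φ := algebraMap F Ω with hφ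
    have heq := conic_eq ix (fun e => φ (c e)) y hy.2 hy.1
    simp only [← map_mc φ] at heq
    have hspan := kvc_span (fun e => φ (c e)) y (fun j => hy.2 (some j))
    simp only [← map_detc φ, ← map_kvc φ] at hspan
    have hD' : φ (detc c) ≠ 0 := by
      rw [Ne, map_eq_zero]; exact hD
    have hyh : ∀ h, y h = φ (kvc c 0 h / detc c) + ∑ p : Fin 2,
        (![y (Sum.inl 1), y (Sum.inl 2)] : Fin 2 → Ω) p * φ
          ((![fun h => kvc c 1 h / detc c, fun h => kvc c 2 h / detc c] :
            Fin 2 → HC J → F) p h) := by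
      intro h
      apply mul_left_cancel₀ hD'
      rw [hspan h, Fin.sum_univ_three, Fin.sum_univ_two, hy.1]
      simp only [Matrix.cons_val_zero, Matrix.cons_val_one, map_div₀]
      field_simp
      ring
    have heq' : φ (mc ix c 1 1) * y (Sum.inl 1) ^ 2 + (φ (mc ix c 0 1 + mc ix c 1 0)
      + φ (mc ix c 1 2 + mc ix c 2 1) * y (Sum.inl 2)) * y (Sum.inl 1)
      + (φ (mc ix c 0 0) + φ (mc ix c 0 2 + mc ix c 2 0) * y (Sum.inl 2)
        + φ (mc ix c 2 2) * y (Sum.inl 2) ^ 2) = 0 := by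
      simp only [map_add]
      exact heq
    refine ⟨hyh, ?_, heq'⟩
    rw [transcendental_iff]
    rintro ⟨a, ha⟩
    have h3 : y (Sum.inl 1) ∈ Set.range (algebraMap F Ω) := by
      apply mem_range_of_quad (mc ix c 1 1) ((mc ix c 0 1 + mc ix c 1 0)
        + (mc ix c 1 2 + mc ix c 2 1) * a) (mc ix c 0 0 + (mc ix c 0 2 + mc ix c 2 0) * a
          + mc ix c 2 2 * a ^ 2) (fun h => hα h.1)
      rw [← hφ, map_add φ _ ((mc ix c 1 2 + mc ix c 2 1) * a), map_mul φ _ a,
        map_add φ _ (mc ix c 2 2 * a ^ 2), map_add φ (mc ix c 0 0), map_mul φ _ a,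
        map_mul φ _ (a ^ 2), map_pow]
      have ha' : φ a = y (Sum.inl 2) := ha
      rw [ha']
      exact heq'
    obtain ⟨b, hb⟩ := h3
    obtain ⟨h, hh⟩ := hnc
    apply hh
    refine ⟨kvc c 0 h / detc c + (b * (kvc c 1 h / detc c) + a * (kvc c 2 h / detc c)), ?_⟩
    rw [hyh h, Fin.sum_univ_two]
    simp only [Matrix.cons_val_zero, Matrix.cons_val_one]
    rw [← ha, ← hb]
    simp only [map_add, map_mul]
    rfl
  intro Ω _ _ y hy hnc
  obtain ⟨hyh, htr, heq⟩ := key Ω y hy hnc
  intro Ω' _ φ y' hy' hnc'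
  let _ : Algebra F Ω' := φ.toAlgebra
  obtain ⟨hyh', htr', heq'⟩ := key Ω' y' hy' hnc'
  obtain ⟨ψ, hψ1, hψ2⟩ := exists_model (t := y (Sum.inl 2)) (u := y (Sum.inl 1))
    (t' := y' (Sum.inl 2)) (u' := y' (Sum.inl 1))
    (Polynomial.C (mc ix c 1 1))
    (Polynomial.C (mc ix c 0 1 + mc ix c 1 0)
      + Polynomial.C (mc ix c 1 2 + mc ix c 2 1) * Polynomial.X)
    (Polynomial.C (mc ix c 0 0) + Polynomial.C (mc ix c 0 2 + mc ix c 2 0) * Polynomial.X
      + Polynomial.C (mc ix c 2 2) * Polynomial.X ^ 2)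
    (by
      rw [Ne, Polynomial.C_eq_zero]
      exact hα)
    (by
      have h3 : (Polynomial.C (mc ix c 0 1 + mc ix c 1 0)
          + Polynomial.C (mc ix c 1 2 + mc ix c 2 1) * Polynomial.X) ^ 2
          - 4 * Polynomial.C (mc ix c 1 1) * (Polynomial.C (mc ix c 0 0)
            + Polynomial.C (mc ix c 0 2 + mc ix c 2 0) * Polynomial.X
            + Polynomial.C (mc ix c 2 2) * Polynomial.X ^ 2)
          = Polynomial.C (qc0 ix c) + Polynomial.C (qc1 ix c) * Polynomial.X
            + Polynomial.C (qc2 ix c) * Polynomial.X ^ 2 := by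
        have h4' : (Polynomial.C (4 : F)) = 4 := map_ofNat _ 4
        have h2' : (Polynomial.C (2 : F)) = 2 := map_ofNat _ 2
        simp only [qc2, qc1, qc0, Polynomial.C_add, Polynomial.C_sub, Polynomial.C_mul,
          Polynomial.C_pow, h4', h2']
        ring
      rw [h3]
      rintro ⟨s, hs⟩
      rw [hs] at hsep hdeg
      have h4 : IsUnit s := hsep.squarefree s (dvd_refl _)
      rw [Polynomial.natDegree_eq_zero_of_isUnit (h4.mul h4)] at hdeg
      omega)
    htr htr' (by
      simp only [map_add (Polynomial.aeval (y (Sum.inl 2))), map_mul (Polynomial.aeval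
        (y (Sum.inl 2))), map_pow (Polynomial.aeval (y (Sum.inl 2))), Polynomial.aeval_C,
        Polynomial.aeval_X]
      exact heq) (by
      simp only [map_add (Polynomial.aeval (y' (Sum.inl 2))), map_mul (Polynomial.aeval
        (y' (Sum.inl 2))), map_pow (Polynomial.aeval (y' (Sum.inl 2))), Polynomial.aeval_C,
        Polynomial.aeval_X]
      exact heq')
  obtain ⟨χ, h1, h2⟩ := transport _ _ y y' _ _ hyh hyh' (adjoin F {y (Sum.inl 2), y (Sum.inl 1)}) ψ
    (by
      intro p
      fin_cases p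
      · exact mem_right _ _
      · exact mem_left _ _)
    (by
      intro p
      fin_cases p
      · exact hψ2
      · exact hψ1)
  exact ⟨χ, h1, h2⟩

end Pool.Agent.Helper15.GM
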