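import Pool.Agent.Helper15.GM.Fib2b

/-!
# Two quadrics and linear forms: the example
-/

namespace Pool.Agent.Helper15.GM

open IntermediateField MvPolynomial Matrix

variable {J S S' : Type} [Fintype J] [DecidableEq J] [Fintype S] [DecidableEq S] [Fintype S']
  [DecidableEq S']

section Example

/-- The coordinates. -/
abbrev qa (J : Type) : HH 3 J := some (Sum.inl 0)

/-- See `qa`. -/
abbrev qb (J : Type) : HH 3 J := some (Sum.inl 1)

/-- See `qa`. -/
abbrev qc (J : Type) : HH 3 J := some (Sum.inl 2)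

/-- The coefficients of the example. -/
def ex2 (s1 s2 : S) (s3 s4 s5 : S') : E2 J S S' → ℚ
  | Sum.inl (j, h) => if h = some (Sum.inr j) then 1 else 0
  | Sum.inr (Sum.inl s) => (if s = s1 then 1 else 0) - (if s = s2 then 1 else 0)
  | Sum.inr (Sum.inr s) => (if s = s3 then 1 else 0) + ((if s = s4 then 1 else 0)
      + (if s = s5 then 1 else 0))

variable (s1 s2 : S) (s3 s4 s5 : S')

omit [Fintype J] [Fintype S'] in
theorem p1_ex (ix : S → Fin 2 → HH 3 J) (h1 : ix s1 = ![none, qa J]) (h2 : ix s2 = ![qb J, qb J])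
    (x y : HH 3 J → ℚ) :
    p1 ix (ex2 s1 s2 s3 s4 s5 : E2 J S S' → ℚ) x y
      = x none * y (qa J) - x (qb J) * y (qb J) := by
  simp only [p1, mul2, ex2, sub_mul, ite_mul, one_mul, zero_mul, Finset.sum_sub_distrib,
    Finset.sum_ite_eq', Finset.mem_univ, if_true, h1, h2]
  rfl

omit [Fintype J] [Fintype S] in
theorem p2_ex (ix' : S' → Fin 2 → HH 3 J) (h3 : ix' s3 = ![none, qb J])
    (h4 : ix' s4 = ![qc J, qc J]) (h5 : ix' s5 = ![qa J, qa J]) (x y : HH 3 J → ℚ) :
    p2 ix' (ex2 s1 s2 s3 s4 s5 : E2 J S S' → ℚ) x y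
      = x none * y (qb J) + (x (qc J) * y (qc J) + x (qa J) * y (qa J)) := by
  simp only [p2, mul2, ex2, add_mul, ite_mul, one_mul, zero_mul, Finset.sum_add_distrib,
    Finset.sum_ite_eq', Finset.mem_univ, if_true, h3, h4, h5]
  rfl

omit [Fintype J] [Fintype S] [Fintype S'] in
theorem blk_ex2 : blk (lam2 (ex2 s1 s2 s3 s4 s5 : E2 J S S' → ℚ)) = 1 := by
  ext i j
  simp only [blk, lam2, ex2, Matrix.of_apply, Matrix.one_apply, Option.some.injEq,
    Sum.inr.injEq]
  simp only [eq_comm]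

omit [Fintype S] [Fintype S'] in
theorem kv_ex2 (p : Fin 3) (h : HH 3 J) :
    kv (lam2 (ex2 s1 s2 s3 s4 s5 : E2 J S S' → ℚ)) p h
      = if h = some (Sum.inl p) then 1 else 0 := by
  rcases h with _ | a | j
  · simp [kv]
  · simp [kv, blk_ex2]
  · simp only [kv, blk_ex2, Matrix.adjugate_one, Matrix.one_mulVec]
    simp [lam2, ex2]

theorem g2_ex (ix : S → Fin 2 → HH 3 J) (ix' : S' → Fin 2 → HH 3 J)
    (h1 : ix s1 = ![none, qa J]) (h2 : ix s2 = ![qb J, qb J]) (h3 : ix' s3 = ![none, qb J])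
    (h4 : ix' s4 = ![qc J, qc J]) (h5 : ix' s5 = ![qa J, qa J]) :
    g2 ix ix' (ex2 s1 s2 s3 s4 s5 : E2 J S S' → ℚ) (pt2 fun _ => 0) ≠ 0 := by
  have hd1 : ∀ k, d1 ix (ex2 s1 s2 s3 s4 s5 : E2 J S S' → ℚ) (pt2 fun _ => 0) k
      = if k = 0 then 1 else 0 := by
    intro k
    rw [d1, p1_ex _ _ _ _ _ ix h1 h2, p1_ex _ _ _ _ _ ix h1 h2]
    simp only [kv_ex2]
    fin_cases k <;> simp [pt2]
  have hd2 : ∀ k, d2 ix' (ex2 s1 s2 s3 s4 s5 : E2 J S S' → ℚ) (pt2 fun _ => 0) k
      = if k = 1 then 1 else 0 := by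
    intro k
    rw [d2, p2_ex _ _ _ _ _ ix' h3 h4 h5, p2_ex _ _ _ _ _ ix' h3 h4 h5]
    simp only [kv_ex2]
    fin_cases k <;> simp [pt2]
  have htg : tang ix ix' (ex2 s1 s2 s3 s4 s5 : E2 J S S' → ℚ) (pt2 fun _ => 0)
      = fun h => if h = qc J then 1 else 0 := by
    funext h
    simp only [tang, tau, hd1, hd2, kv_ex2]
    simp
  have f0 : fr2 ix ix' (ex2 s1 s2 s3 s4 s5 : E2 J S S' → ℚ) (pt2 fun _ => 0) 0
      = fun h => if h = none then 1 else 0 := by
    show pt2 (fun _ => (0 : ℚ)) = _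
    funext h
    rcases h with _ | a | j
    · simp [pt2]
    · fin_cases a <;> simp [pt2]
    · simp [pt2]
  have f1 : fr2 ix ix' (ex2 s1 s2 s3 s4 s5 : E2 J S S' → ℚ) (pt2 fun _ => 0) 1
      = fun h => if h = qa J then 1 else 0 := by
    funext h
    exact kv_ex2 _ _ _ _ _ 0 h
  have f2 : fr2 ix ix' (ex2 s1 s2 s3 s4 s5 : E2 J S S' → ℚ) (pt2 fun _ => 0) 2
      = fun h => if h = qb J then 1 else 0 := by
    funext h
    exact kv_ex2 _ _ _ _ _ 1 h
  have f3 : fr2 ix ix' (ex2 s1 s2 s3 s4 s5 : E2 J S S' → ℚ) (pt2 fun _ => 0) 3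
      = fun h => if h = qc J then 1 else 0 := htg
  simp only [g2, dq2, cf2, p1_ex _ _ _ _ _ ix h1 h2, p2_ex _ _ _ _ _ ix' h3 h4 h5, f0, f1, f2, f3,
    blk_ex2, Matrix.det_one]
  simp [dq, disc4]

end Example

omit [Fintype J] [DecidableEq J] [DecidableEq S] in
theorem der_val2 {A : Type} [CommRing A] [Algebra ℚ A] (D : Derivation ℚ A A)
    (ix : S → Fin 2 → HH 3 J) (c : S → A) (hc : ∀ s, D (c s) = 0) (y : HH 3 J → A) :
    D (val ix c y) = mul2 ix c (fun h => D (y h)) y + mul2 ix c y (fun h => D (y h)) := by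
  simp only [val, mul2, Fin.prod_univ_two, map_sum, Derivation.leibniz, hc, smul_eq_mul,
    ← Finset.sum_add_distrib]
  apply Finset.sum_congr rfl
  intro s _
  ring

/-- General coefficients. -/
theorem exists_cl2 (ix : S → Fin 2 → HH 3 J) (hix : Function.Surjective ix)
    (ix' : S' → Fin 2 → HH 3 J) (hix' : Function.Surjective ix') :
    ∃ Δ : MvPolynomial (E2 J S S') ℚ, Δ ≠ 0 ∧
      ∀ (F : Type) [Field F] [IsAlgClosed F] [CharZero F]
      (c : E2 J S S' → F), aeval c Δ ≠ 0 → CL F (sys2 ix ix' c) := by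
  obtain ⟨s1, h1⟩ := hix ![none, qa J]
  obtain ⟨s2, h2⟩ := hix ![qb J, qb J]
  obtain ⟨s3, h3⟩ := hix' ![none, qb J]
  obtain ⟨s4, h4⟩ := hix' ![qc J, qc J]
  obtain ⟨s5, h5⟩ := hix' ![qa J, qa J]
  let U := MvPolynomial (E2 J S S' ⊕ (Fin 2 ⊕ J)) ℚ
  let cU : E2 J S S' → U := fun e => X (Sum.inl e)
  let yU : HH 3 J → U := pt2 fun i => X (Sum.inr i)
  set c0 : E2 J S S' → ℚ := ex2 s1 s2 s3 s4 s5 with hc0
  have hcU : ∀ {A : Type} [CommRing A] [Algebra ℚ A] (c : E2 J S S' → A) (k : Fin 2 ⊕ J → A),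
      (fun e => (aeval (Sum.elim c k) : U →ₐ[ℚ] A).toRingHom (cU e)) = c := by
    intro A _ _ c k
    funext e
    exact aeval_X _ _
  have hyU : ∀ {A : Type} [CommRing A] [Algebra ℚ A] (c : E2 J S S' → A) (k : Fin 2 ⊕ J → A),
      (fun h => (aeval (Sum.elim c k) : U →ₐ[ℚ] A).toRingHom (yU h)) = pt2 k := by
    intro A _ _ c k
    funext h
    rw [map_pt2]
    congr 1
    funext i
    exact aeval_X _ _
  have hev : ∀ {A : Type} [CommRing A] [Algebra ℚ A] (c : E2 J S S' → A) (k : Fin 2 ⊕ J → A) (i),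
      aeval (Sum.elim c k) (eq2 ix ix' cU yU i) = eq2 ix ix' c (pt2 k) i := by
    intro A _ _ c k i
    have := map_eq2 (aeval (Sum.elim c k) : U →ₐ[ℚ] A).toRingHom ix ix' cU yU i
    refine this.trans ?_
    rw [hcU, hyU]
  have hevg : ∀ {A : Type} [CommRing A] [Algebra ℚ A] (c : E2 J S S' → A) (k : Fin 2 ⊕ J → A),
      aeval (Sum.elim c k) (g2 ix ix' cU yU) = g2 ix ix' c (pt2 k) := by
    intro A _ _ c k
    have := map_g2 (aeval (Sum.elim c k) : U →ₐ[ℚ] A).toRingHom ix ix' cU yU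
    refine this.trans ?_
    rw [hcU, hyU]
  have hF : ∀ i, eval (Sum.elim c0 fun _ => (0 : ℚ)) (eq2 ix ix' cU yU i) = 0 := by
    intro i
    rw [← coe_aeval_eq_eval]
    show aeval _ _ = _
    rw [hev]
    rcases i with a | j
    · have e1 : val ix (fun s => c0 (Sum.inr (Sum.inl s))) (pt2 fun _ => 0)
          = p1 ix c0 (pt2 fun _ => 0) (pt2 fun _ => 0) := by
        simp only [p1, val, mul2, Fin.prod_univ_two]
      have e2 : val ix' (fun s => c0 (Sum.inr (Sum.inr s))) (pt2 fun _ => 0)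
          = p2 ix' c0 (pt2 fun _ => 0) (pt2 fun _ => 0) := by
        simp only [p2, val, mul2, Fin.prod_univ_two]
      fin_cases a
      · show val ix (fun s => c0 (Sum.inr (Sum.inl s))) (pt2 fun _ => 0) = 0
        rw [e1, hc0, p1_ex _ _ _ _ _ ix h1 h2]
        simp [pt2]
      · show val ix' (fun s => c0 (Sum.inr (Sum.inr s))) (pt2 fun _ => 0) = 0
        rw [e2, hc0, p2_ex _ _ _ _ _ ix' h3 h4 h5]
        simp [pt2]
    · simp only [eq2]
      have : ∀ h, lam2 c0 j h * pt2 (fun _ : Fin 2 ⊕ J => (0 : ℚ)) h = 0 := by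
        intro h
        rcases h with _ | a | j'
        · simp [lam2, hc0, ex2]
        · fin_cases a <;> simp [pt2]
        · simp [pt2]
      simp [this]
  have hG : eval (Sum.elim c0 fun _ => (0 : ℚ)) (g2 ix ix' cU yU) ≠ 0 := by
    rw [← coe_aeval_eq_eval]
    show aeval _ _ ≠ _
    rw [hevg]
    exact g2_ex s1 s2 s3 s4 s5 ix ix' h1 h2 h3 h4 h5
  have hJ : (Matrix.of fun i j => eval (Sum.elim c0 fun _ => (0 : ℚ))
      (pderiv (Sum.inr j) (eq2 ix ix' cU yU i))).det ≠ 0 := by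
    have hone : (Matrix.of fun i j => eval (Sum.elim c0 fun _ => (0 : ℚ))
        (pderiv (Sum.inr j) (eq2 ix ix' cU yU i)))
        = (1 : Matrix (Fin 2 ⊕ J) (Fin 2 ⊕ J) ℚ) := by
      have hdc : ∀ (j : Fin 2 ⊕ J) (e : E2 J S S'), pderiv (Sum.inr j) (cU e) = 0 := by
        intro j e
        simp [cU, pderiv_X]
      have hc0' : ∀ e, eval (Sum.elim c0 fun _ => (0 : ℚ)) (cU e) = c0 e := fun e => by
        simp [cU]
      have hy0' : ∀ h, eval (Sum.elim c0 fun _ => (0 : ℚ)) (yU h) = pt2 (fun _ => 0) h := by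
        intro h
        rw [map_pt2]
        congr 1
        funext i
        simp
      -- the direction of the unknown `j`
      let hj : Fin 2 ⊕ J → HH 3 J := fun j => match j with
        | Sum.inl a => some (Sum.inl a.castSucc)
        | Sum.inr j' => some (Sum.inr j')
      have hdy' : ∀ (j : Fin 2 ⊕ J) (h : HH 3 J), eval (Sum.elim c0 fun _ => (0 : ℚ))
          (pderiv (Sum.inr j) (yU h)) = if h = hj j then 1 else 0 := by
        intro j h
        rcases h with _ | a | j'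
        · rcases j with a' | j <;> simp [yU, pt2, hj]
        · rcases j with a' | j
          · fin_cases a <;> fin_cases a' <;> simp [yU, pt2, hj, pderiv_X]
          · fin_cases a <;> simp [yU, pt2, hj, pderiv_X]
        · rcases j with a' | j
          · simp [yU, pt2, hj, pderiv_X]
          · simp [yU, pt2, hj, pderiv_X, Pi.single_apply]
      ext i j
      rw [Matrix.of_apply]
      rcases i with a | i
      · fin_cases a
        · show eval _ (pderiv (Sum.inr j) (val ix (fun s => cU (Sum.inr (Sum.inl s))) yU)) = _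
          rw [der_val2 _ ix _ (fun s => hdc j _)]
          simp only [mul2, map_add, map_sum, map_mul, hc0', hy0', hdy']
          have e1 := fun x y : HH 3 J → ℚ => p1_ex s1 s2 s3 s4 s5 ix h1 h2 x y
          simp only [p1, mul2] at e1
          rw [hc0, e1 (fun h => if h = hj j then 1 else 0) (pt2 fun _ => 0),
            e1 (pt2 fun _ => 0) (fun h => if h = hj j then 1 else 0)]
          rcases j with a' | j
          · fin_cases a' <;> simp [pt2, hj]
          · simp [pt2, hj]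
        · show eval _ (pderiv (Sum.inr j) (val ix' (fun s => cU (Sum.inr (Sum.inr s))) yU)) = _
          rw [der_val2 _ ix' _ (fun s => hdc j _)]
          simp only [mul2, map_add, map_sum, map_mul, hc0', hy0', hdy']
          have e1 := fun x y : HH 3 J → ℚ => p2_ex s1 s2 s3 s4 s5 ix' h3 h4 h5 x y
          simp only [p2, mul2] at e1
          rw [hc0, e1 (fun h => if h = hj j then 1 else 0) (pt2 fun _ => 0),
            e1 (pt2 fun _ => 0) (fun h => if h = hj j then 1 else 0)]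
          rcases j with a' | j
          · fin_cases a' <;> simp [pt2, hj]
          · simp [pt2, hj]
      · simp only [eq2, map_sum, Derivation.leibniz, smul_eq_mul]
        have e1 : ∀ h, pderiv (Sum.inr j) (lam2 cU i h) = 0 := fun h => hdc j _
        have e2 : ∀ h, eval (Sum.elim c0 fun _ => (0 : ℚ)) (lam2 cU i h) = lam2 c0 i h :=
          fun h => hc0' _
        simp only [e1, mul_zero, add_zero, map_mul, e2, hdy']
        rcases j with a' | j
        · simp [lam2, hc0, ex2, hj]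
        · simp [lam2, hc0, ex2, hj, Matrix.one_apply, eq_comm]
    rw [hone, Matrix.det_one]
    exact one_ne_zero
  obtain ⟨Δ, hΔ, H⟩ := Helper76.XN.et (fun i => eq2 ix ix' cU yU i) (g2 ix ix' cU yU) c0
    (fun _ => 0) hF hJ hG
  refine ⟨Δ, hΔ, fun F _ _ _ c hc => ?_⟩
  obtain ⟨L, _, _, _, _, k, hk1, -, hk3⟩ := H F c hc
  have hbij : Function.Bijective (algebraMap F L) :=
    IsAlgClosed.algebraMap_bijective_of_isIntegral
  choose k' hk' using fun i => hbij.2 (k i)
  have hk1' : ∀ i, eq2 ix ix' c (pt2 k') i = 0 := by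
    intro i
    apply hbij.1
    rw [map_zero, map_eq2]
    have := hk1 i
    rw [hev] at this
    rw [← this]
    congr 1
    funext h
    rw [map_pt2]
    simp only [hk']
  have hk3' : g2 ix ix' c (pt2 k') ≠ 0 := by
    intro h0
    apply hk3
    rw [hevg]
    have := congrArg (algebraMap F L) h0
    rw [map_zero, map_g2] at this
    rw [← this]
    congr 1
    funext h
    rw [map_pt2]
    simp only [hk']
  exact cl2 ix ix' c (pt2 k') rfl hk1' hk3'

end Pool.Agent.Helper15.GM
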