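import Pool.Agent.Helper47.M.Defs
import Pool.Agent.Helper15.GM.Fib2c

/-!
# The fibres over the other factors
-/

namespace Pool.Agent.Helper15.GM

open IntermediateField MvPolynomial Pool.Agent.Helper47.M

variable {k l : ℕ} {N : Fin k → ℕ} {e : Fin k → ℕ} {d : Fin l → Fin k → ℕ}

section Ring

variable {A : Type*} [CommRing A]

open Classical in
/-- Contraction of a tensor with the coordinates of the factors other than `r`. -/
noncomputable def ctr (r : Fin k) (a : Tn N e → A) (x : Pt N A)
    (w : Fin (e r) → Fin (N r + 1)) : A :=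
  ∑ m : Tn N e, if m r = w then a m * ∏ j ∈ Finset.univ.erase r, ∏ t, x j (m j t) else 0

theorem map_ctr {B : Type*} [CommRing B] (φ : A →+* B) (r : Fin k) (a : Tn N e → A)
    (x : Pt N A) (w : Fin (e r) → Fin (N r + 1)) :
    φ (ctr r a x w) = ctr r (fun m => φ (a m)) (fun j i => φ (x j i)) w := by
  classical
  simp only [ctr, map_sum]
  apply Finset.sum_congr rfl
  intro m _
  split_ifs
  · simp only [map_mul, map_prod]
  · exact map_zero φ

theorem ctr_congr (r : Fin k) (a : Tn N e → A) (x x' : Pt N A) (h : ∀ j, j ≠ r → x j = x' j)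
    (w : Fin (e r) → Fin (N r + 1)) : ctr r a x w = ctr r a x' w := by
  classical
  simp only [ctr]
  apply Finset.sum_congr rfl
  intro m _
  split_ifs
  · congr 1
    apply Finset.prod_congr rfl
    intro j hj
    rw [h j (Finset.ne_of_mem_erase hj)]
  · rfl

theorem fv_eq (r : Fin k) (a : Tn N e → A) (x : Pt N A) :
    fv a x = ∑ w, ctr r a x w * ∏ t, x r (w t) := by
  classical
  simp only [ctr, Finset.sum_mul]
  rw [Finset.sum_comm]
  simp only [fv, tv]
  apply Finset.sum_congr rfl
  intro m _
  simp only [ite_mul, zero_mul, Finset.sum_ite_eq, Finset.mem_univ, if_true]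
  rw [← Finset.mul_prod_erase Finset.univ _ (Finset.mem_univ r)]
  ring

theorem fv_update (r : Fin k) (a : Tn N e → A) (x : Pt N A) (y : Fin (N r + 1) → A) :
    fv a (Function.update x r y) = ∑ w, ctr r a x w * ∏ t, y (w t) := by
  rw [fv_eq r]
  apply Finset.sum_congr rfl
  intro w _
  rw [Function.update_self]
  congr 1
  apply ctr_congr
  intro j hj
  rw [Function.update_of_ne hj]

/-- The origin of the chart. -/
def org (N : Fin k → ℕ) (A : Type*) [CommRing A] : Pt N A := fun _ i => if i = 0 then 1 else 0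

/-- The index with zeros outside of `r`. -/
def lift0 (r : Fin k) (w : Fin (e r) → Fin (N r + 1)) : Tn N e :=
  Function.update (fun _ _ => 0) r w

theorem lift0_self (r : Fin k) (w : Fin (e r) → Fin (N r + 1)) : (lift0 r w : Tn N e) r = w :=
  Function.update_self _ _ _

theorem ctr_org (r : Fin k) (a : Tn N e → A) (w : Fin (e r) → Fin (N r + 1)) :
    ctr r a (org N A) w = a (lift0 r w) := by
  classical
  rw [ctr, Finset.sum_eq_single (lift0 r w)]
  · rw [if_pos (lift0_self r w)]
    have h1 : ∏ j ∈ Finset.univ.erase r, ∏ t, org N A j ((lift0 r w : Tn N e) j t) = 1 := by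
      apply Finset.prod_eq_one
      intro j hj
      apply Finset.prod_eq_one
      intro t _
      have h2 : (lift0 r w : Tn N e) j = fun _ => 0 :=
        Function.update_of_ne (Finset.ne_of_mem_erase hj) _ _
      rw [h2]
      simp [org]
    rw [h1, mul_one]
  · intro m _ hm
    split_ifs with h
    · have h3 : ∃ j, j ≠ r ∧ ∃ t, m j t ≠ 0 := by
        by_contra hcon
        push Not at hcon
        apply hm
        funext j
        by_cases hj : j = r
        · subst hj
          rw [h, lift0_self]
        · rw [lift0, Function.update_of_ne hj]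
          funext t
          exact hcon j hj t
      obtain ⟨j, hj, t, ht⟩ := h3
      have h4 : ∏ j ∈ Finset.univ.erase r, ∏ t, org N A j (m j t) = 0 := by
        apply Finset.prod_eq_zero (Finset.mem_erase.mpr ⟨hj, Finset.mem_univ j⟩)
        apply Finset.prod_eq_zero (Finset.mem_univ t)
        simp [org, ht]
      rw [h4, mul_zero]
    · rfl
  · intro h
    exact absurd (Finset.mem_univ _) h

end Ring

/-- The fibre coefficients chosen by `ρ`. -/
noncomputable def cc {A : Type*} [CommRing A] (r : Fin k) {I : Type}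
    (ρ : I → Σ i : Fin l, (Fin (d i r) → Fin (N r + 1))) (c : Tx N d → A) (x : Pt N A) (s : I) : A :=
  ctr r (fun m => c ⟨(ρ s).1, m⟩) x (ρ s).2

theorem map_cc {A B : Type*} [CommRing A] [CommRing B] (φ : A →+* B) (r : Fin k) {I : Type}
    (ρ : I → Σ i : Fin l, (Fin (d i r) → Fin (N r + 1))) (c : Tx N d → A) (x : Pt N A) (s : I) :
    φ (cc r ρ c x s) = cc r ρ (fun m => φ (c m)) (fun j i => φ (x j i)) s := by
  simp only [cc, map_ctr]

/-- The general point: a condition on the fibre coefficients which is not empty holds for general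
coefficients. -/
theorem exists_general (r : Fin k) {I : Type}
    (ρ : I → Σ i : Fin l, (Fin (d i r) → Fin (N r + 1))) (hρ : Function.Injective ρ)
    (Δ : MvPolynomial I ℚ) (hΔ : Δ ≠ 0) :
    ∃ Δ' : MvPolynomial (Tx N d) ℚ, Δ' ≠ 0 ∧ ∀ (K : Type) [Field K] [CharZero K]
      (c : Tx N d → K), aeval c Δ' ≠ 0 → ∀ (F : Type) [Field F] [CharZero F] (φ : K →+* F)
      (x : Pt N F), (∀ j, j ≠ r → x j 0 = 1) →
      (∀ Ψ : MvPolynomial {q : Vr N // q.1 ≠ r} K,
        eval₂ φ (fun q => x q.1.1 q.1.2.succ) Ψ = 0 → Ψ = 0) →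
      aeval (cc r ρ (fun m => φ (c m)) x) Δ ≠ 0 := by
  let ρ' : I → Tx N d := fun s => ⟨(ρ s).1, lift0 r (ρ s).2⟩
  have hρ' : Function.Injective ρ' := by
    intro s s' h
    apply hρ
    have h2 : ∀ p q : (Σ i : Fin l, (Fin (d i r) → Fin (N r + 1))),
        (⟨p.1, lift0 r p.2⟩ : Tx N d) = ⟨q.1, lift0 r q.2⟩ → p = q := by
      rintro ⟨i, w⟩ ⟨i', w'⟩ h
      have h3 : i = i' := congrArg Sigma.fst h
      subst h3
      have h4 := eq_of_heq (Sigma.mk.inj h).2
      have h5 := congrFun h4 r
      rw [lift0_self, lift0_self] at h5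
      exact Sigma.ext rfl (heq_of_eq h5)
    exact h2 _ _ h
  refine ⟨rename ρ' Δ, (rename_injective ρ' hρ').ne_iff' (map_zero _) |>.mpr hΔ, ?_⟩
  intro K _ _ c hc F _ _ φ x hx hind
  classical
  let W := {q : Vr N // q.1 ≠ r}
  -- the point over the polynomial ring
  let xW : Pt N (MvPolynomial W K) := fun j i =>
    if h : j ≠ r then (Fin.cons 1 fun i' : Fin (N j) => X ⟨⟨j, i'⟩, h⟩ :
      Fin (N j + 1) → MvPolynomial W K) i else 0
  let Ψ : MvPolynomial W K := aeval (cc r ρ (fun m => C (c m)) xW) Δ
  have hΨ : Ψ ≠ 0 := by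
    intro h0
    apply hc
    have h1 : eval (fun _ => (0 : K)) Ψ = aeval (cc r ρ c (org N K)) Δ := by
      have h2 : eval (fun _ => (0 : K)) Ψ
          = aeval (fun s => eval (fun _ => (0 : K)) (cc r ρ (fun m => C (c m)) xW s)) Δ := by
        show (eval fun _ => (0 : K)) (aeval _ Δ) = _
        rw [aeval_def, aeval_def, ← coe_eval₂Hom, ← coe_eval₂Hom, ← RingHom.comp_apply]
        congr 1
        apply MvPolynomial.ringHom_ext
        · intro q
          simp
        · intro s
          simp
      rw [h2]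
      congr 2
      funext s
      rw [map_cc]
      simp only [eval_C, cc]
      apply ctr_congr
      intro j hj
      funext i
      refine Fin.cases ?_ (fun i' => ?_) i
      · simp [xW, hj, org]
      · simp [xW, hj, org]
    have h3 : cc r ρ c (org N K) = fun s => c (ρ' s) := by
      funext s
      simp only [cc, ctr_org]
      rfl
    rw [h0, map_zero, h3] at h1
    rw [aeval_rename]
    exact h1.symm
  intro h0
  apply hΨ
  apply hind
  have h2 : eval₂ φ (fun q : W => x q.1.1 q.1.2.succ) Ψ
      = aeval (fun s => eval₂ φ (fun q : W => x q.1.1 q.1.2.succ)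
        (cc r ρ (fun m => C (c m)) xW s)) Δ := by
    show eval₂ φ _ (aeval _ Δ) = _
    rw [aeval_def, aeval_def, ← coe_eval₂Hom, ← coe_eval₂Hom, ← coe_eval₂Hom,
      ← RingHom.comp_apply]
    congr 1
    apply MvPolynomial.ringHom_ext
    · intro q
      simp
    · intro s
      simp
  rw [h2, ← h0]
  congr 2
  funext s
  rw [← coe_eval₂Hom, map_cc]
  simp only [coe_eval₂Hom, eval₂_C, cc]
  apply ctr_congr
  intro j hj
  funext i
  refine Fin.cases ?_ (fun i' => ?_) i
  · simp [xW, hj, hx j hj]
  · simp [xW, hj]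

end Pool.Agent.Helper15.GM
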