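import Pool.Agent.Helper15.GM.Disc

/-!
# A plane cubic with a point, two quadrics in space with a point
-/

namespace Pool.Agent.Helper15.GM

open Polynomial IntermediateField

variable {F Ω : Type*} [Field F] [Field Ω] [Algebra F Ω] [IsAlgClosed F] [CharZero F]

omit [CharZero F] in
theorem mem_range_of_root {w : Ω} (q : Polynomial F) (hq : q ≠ 0) (h : aeval w q = 0) :
    w ∈ Set.range (algebraMap F Ω) := by
  by_contra hw
  rw [← transcendental_iff] at hw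
  exact hw ⟨q, hq, h⟩

omit [CharZero F] in
theorem mem_range_of_quad {w : Ω} (a b c : F) (h0 : ¬(a = 0 ∧ b = 0 ∧ c = 0))
    (h : algebraMap F Ω a * w ^ 2 + algebraMap F Ω b * w + algebraMap F Ω c = 0) :
    w ∈ Set.range (algebraMap F Ω) := by
  apply mem_range_of_root (C a * X ^ 2 + C b * X + C c)
  · intro hq
    apply h0
    refine ⟨?_, ?_, ?_⟩
    · have := congrArg (fun p => coeff p 2) hq
      simpa [coeff_X, coeff_C] using this
    · have := congrArg (fun p => coeff p 1) hq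
      simpa [coeff_X, coeff_C] using this
    · have := congrArg (fun p => coeff p 0) hq
      simpa [coeff_X, coeff_C] using this
  · simpa using h

omit [CharZero F] in
/-- The three coefficients have no common zero. -/
theorem no_common (a0 a1 a2 a3 b0 b1 b2 g0 g1 : F) (h : dq a0 a1 a2 a3 b0 b1 b2 g0 g1 ≠ 0)
    (τ : F) : ¬(a0 + a1 * τ + a2 * τ ^ 2 + a3 * τ ^ 3 = 0 ∧ b0 + b1 * τ + b2 * τ ^ 2 = 0 ∧
      g0 + g1 * τ = 0) := by
  rintro ⟨ha, hb, hg⟩
  obtain ⟨h1, -, -⟩ := sep_of_disc4 _ _ _ _ _ h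
    ((C b0 + C b1 * X + C b2 * X ^ 2) ^ 2 - 4 * (C g0 + C g1 * X)
      * (C a0 + C a1 * X + C a2 * X ^ 2 + C a3 * X ^ 3)) (by
      simp only [map_sub, map_mul, map_add, map_pow, map_ofNat]
      ring)
  have d1 : X - C τ ∣ C a0 + C a1 * X + C a2 * X ^ 2 + C a3 * X ^ 3 := by
    rw [dvd_iff_isRoot, IsRoot.def]
    simpa using ha
  have d2 : X - C τ ∣ C b0 + C b1 * X + C b2 * X ^ 2 := by
    rw [dvd_iff_isRoot, IsRoot.def]
    simpa using hb
  have d3 : X - C τ ∣ C g0 + C g1 * X := by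
    rw [dvd_iff_isRoot, IsRoot.def]
    simpa using hg
  have d4 : (X - C τ) * (X - C τ) ∣ (C b0 + C b1 * X + C b2 * X ^ 2) ^ 2
      - 4 * (C g0 + C g1 * X) * (C a0 + C a1 * X + C a2 * X ^ 2 + C a3 * X ^ 3) := by
    apply dvd_sub
    · rw [pow_two]
      exact mul_dvd_mul d2 d2
    · rw [mul_assoc]
      exact Dvd.dvd.mul_left (mul_dvd_mul d3 d1) _
  exact not_isUnit_X_sub_C τ (h1.squarefree _ d4)

omit [CharZero F] in
/-- The discriminant over the rational function field is not a square. -/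
theorem not_isSquare (a0 a1 a2 a3 b0 b1 b2 g0 g1 : F) (h : dq a0 a1 a2 a3 b0 b1 b2 g0 g1 ≠ 0) :
    ¬ IsSquare ((C b0 + C b1 * X + C b2 * X ^ 2) ^ 2 - 4 * (C g0 + C g1 * X)
      * (C a0 + C a1 * X + C a2 * X ^ 2 + C a3 * X ^ 3)) := by
  obtain ⟨h1, h2, -⟩ := sep_of_disc4 _ _ _ _ _ h
    ((C b0 + C b1 * X + C b2 * X ^ 2) ^ 2 - 4 * (C g0 + C g1 * X)
      * (C a0 + C a1 * X + C a2 * X ^ 2 + C a3 * X ^ 3)) (by
      simp only [map_sub, map_mul, map_add, map_pow, map_ofNat]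
      ring)
  rintro ⟨r, hr⟩
  rw [hr] at h1 h2
  have h3 : IsUnit r := h1.squarefree r (dvd_refl _)
  rw [natDegree_eq_zero_of_isUnit (h3.mul h3)] at h2
  omega

omit [IsAlgClosed F] [CharZero F] in
theorem dq_top (a0 a1 a2 b0 b1 g0 : F) : dq a0 a1 a2 0 b0 b1 0 g0 0 = 0 := by
  unfold dq disc4
  ring

omit [IsAlgClosed F] [CharZero F] in
theorem dq_low (a1 a2 a3 b1 b2 g1 : F) : dq 0 a1 a2 a3 0 b1 b2 0 g1 = 0 := by
  unfold dq disc4
  ring

omit [IsAlgClosed F] [CharZero F] in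
theorem dq_outer (a0 a1 a2 a3 b0 b1 b2 : F) : dq a0 a1 a2 a3 b0 b1 b2 0 0 = 0 := by
  unfold dq disc4
  ring

omit [CharZero F] in
/-- The plane cubic with a point at the origin: `t = u2 / u1` is transcendental at every
non-constant zero, and `u1` satisfies a quadratic equation over `F(t)`. -/
theorem plane_facts {u1 u2 : Ω} (a0 a1 a2 a3 b0 b1 b2 g0 g1 : F)
    (h : dq a0 a1 a2 a3 b0 b1 b2 g0 g1 ≠ 0)
    (hn : ¬(u1 ∈ Set.range (algebraMap F Ω) ∧ u2 ∈ Set.range (algebraMap F Ω)))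
    (hu : (algebraMap F Ω g0 * u1 + algebraMap F Ω g1 * u2)
      + (algebraMap F Ω b0 * u1 ^ 2 + algebraMap F Ω b1 * u1 * u2 + algebraMap F Ω b2 * u2 ^ 2)
      + (algebraMap F Ω a0 * u1 ^ 3 + algebraMap F Ω a1 * u1 ^ 2 * u2
        + algebraMap F Ω a2 * u1 * u2 ^ 2 + algebraMap F Ω a3 * u2 ^ 3) = 0) :
    u1 ≠ 0 ∧ Transcendental F (u2 / u1) ∧
    (algebraMap F Ω a0 + algebraMap F Ω a1 * (u2 / u1) + algebraMap F Ω a2 * (u2 / u1) ^ 2
        + algebraMap F Ω a3 * (u2 / u1) ^ 3) * u1 ^ 2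
      + (algebraMap F Ω b0 + algebraMap F Ω b1 * (u2 / u1) + algebraMap F Ω b2 * (u2 / u1) ^ 2)
        * u1 + (algebraMap F Ω g0 + algebraMap F Ω g1 * (u2 / u1)) = 0 := by
  have h1 : u1 ≠ 0 := by
    rintro rfl
    have h2 : u2 ∉ Set.range (algebraMap F Ω) := fun h2 => hn ⟨⟨0, map_zero _⟩, h2⟩
    have h20 : u2 ≠ 0 := by
      rintro rfl
      exact h2 ⟨0, map_zero _⟩
    apply h2
    apply mem_range_of_quad a3 b2 g1
    · rintro ⟨e1, e2, e3⟩
      rw [e1, e2, e3, dq_top] at h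
      exact h rfl
    · apply mul_left_cancel₀ h20
      linear_combination hu
  have hE : (algebraMap F Ω a0 + algebraMap F Ω a1 * (u2 / u1) + algebraMap F Ω a2 * (u2 / u1) ^ 2
        + algebraMap F Ω a3 * (u2 / u1) ^ 3) * u1 ^ 2
      + (algebraMap F Ω b0 + algebraMap F Ω b1 * (u2 / u1) + algebraMap F Ω b2 * (u2 / u1) ^ 2)
        * u1 + (algebraMap F Ω g0 + algebraMap F Ω g1 * (u2 / u1)) = 0 := by
    apply mul_left_cancel₀ h1
    rw [mul_zero]
    field_simp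
    linear_combination hu
  refine ⟨h1, ?_, hE⟩
  rw [transcendental_iff]
  rintro ⟨τ, hτ⟩
  have hu1 : u1 ∈ Set.range (algebraMap F Ω) := by
    apply mem_range_of_quad (a0 + a1 * τ + a2 * τ ^ 2 + a3 * τ ^ 3) (b0 + b1 * τ + b2 * τ ^ 2)
      (g0 + g1 * τ) (no_common _ _ _ _ _ _ _ _ _ h τ)
    simp only [map_add, map_mul, map_pow, hτ]
    exact hE
  apply hn
  obtain ⟨v, hv⟩ := hu1
  refine ⟨⟨v, hv⟩, ⟨τ * v, ?_⟩⟩
  rw [map_mul, hτ, hv]
  field_simp

/-- The plane cubic with a point at the origin. -/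
theorem ell_plane {u1 u2 : Ω} (a0 a1 a2 a3 b0 b1 b2 g0 g1 : F)
    (h : dq a0 a1 a2 a3 b0 b1 b2 g0 g1 ≠ 0)
    (hn : ¬(u1 ∈ Set.range (algebraMap F Ω) ∧ u2 ∈ Set.range (algebraMap F Ω)))
    (hu : (algebraMap F Ω g0 * u1 + algebraMap F Ω g1 * u2)
      + (algebraMap F Ω b0 * u1 ^ 2 + algebraMap F Ω b1 * u1 * u2 + algebraMap F Ω b2 * u2 ^ 2)
      + (algebraMap F Ω a0 * u1 ^ 3 + algebraMap F Ω a1 * u1 ^ 2 * u2
        + algebraMap F Ω a2 * u1 * u2 ^ 2 + algebraMap F Ω a3 * u2 ^ 3) = 0) :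
    Ell F (adjoin F {u1, u2}) := by
  obtain ⟨h1, htr, hE⟩ := plane_facts a0 a1 a2 a3 b0 b1 b2 g0 g1 h hn hu
  have key : adjoin F {u2 / u1, u1} = adjoin F {u1, u2} := by
    have h3 : u2 = u2 / u1 * u1 := by field_simp
    apply adjoin_pair_eq
    · exact div_mem (mem_right _ _) (mem_left _ _)
    · exact mem_left _ _
    · exact mem_right _ _
    · have := mul_mem (mem_left (F := F) (u2 / u1) u1) (mem_right (F := F) (u2 / u1) u1)
      rwa [← h3] at this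
  rw [← key]
  exact ell_of_dq' a0 a1 a2 a3 b0 b1 b2 g0 g1 h htr hE

omit [CharZero F] in
/-- Two quadrics in space with a point at the origin and the third axis as the tangent line:
`t = u2 / u1` is transcendental at every non-constant zero, `w = u3 / u1` satisfies a quadratic
equation over `F(t)`, and `u1` is a rational function of `t`, `w`. -/
theorem quadrics_facts {u1 u2 u3 : Ω} (l1 l2 m1 m2 α β γ δ ε ζ α' β' γ' δ' ε' ζ' : F)
    (h : dq (l1 * δ' - m1 * δ) (l1 * ε' + l2 * δ' - m1 * ε - m2 * δ)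
      (l1 * ζ' + l2 * ε' - m1 * ζ - m2 * ε) (l2 * ζ' - m2 * ζ)
      (l1 * β' - m1 * β) (l1 * γ' + l2 * β' - m1 * γ - m2 * β) (l2 * γ' - m2 * γ)
      (l1 * α' - m1 * α) (l2 * α' - m2 * α) ≠ 0)
    (hlm : l1 * m2 - l2 * m1 ≠ 0)
    (hn : ¬(u1 ∈ Set.range (algebraMap F Ω) ∧ u2 ∈ Set.range (algebraMap F Ω) ∧
      u3 ∈ Set.range (algebraMap F Ω)))
    (hu : (algebraMap F Ω l1 * u1 + algebraMap F Ω l2 * u2) + (algebraMap F Ω α * u3 ^ 2
      + (algebraMap F Ω β * u1 + algebraMap F Ω γ * u2) * u3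
      + (algebraMap F Ω δ * u1 ^ 2 + algebraMap F Ω ε * u1 * u2 + algebraMap F Ω ζ * u2 ^ 2)) = 0)
    (hu' : (algebraMap F Ω m1 * u1 + algebraMap F Ω m2 * u2) + (algebraMap F Ω α' * u3 ^ 2
      + (algebraMap F Ω β' * u1 + algebraMap F Ω γ' * u2) * u3
      + (algebraMap F Ω δ' * u1 ^ 2 + algebraMap F Ω ε' * u1 * u2 + algebraMap F Ω ζ' * u2 ^ 2))
        = 0) :
    u1 ≠ 0 ∧ Transcendental F (u2 / u1) ∧
    (algebraMap F Ω (l1 * α' - m1 * α) + algebraMap F Ω (l2 * α' - m2 * α) * (u2 / u1))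
        * (u3 / u1) ^ 2
      + (algebraMap F Ω (l1 * β' - m1 * β)
        + algebraMap F Ω (l1 * γ' + l2 * β' - m1 * γ - m2 * β) * (u2 / u1)
        + algebraMap F Ω (l2 * γ' - m2 * γ) * (u2 / u1) ^ 2) * (u3 / u1)
      + (algebraMap F Ω (l1 * δ' - m1 * δ)
        + algebraMap F Ω (l1 * ε' + l2 * δ' - m1 * ε - m2 * δ) * (u2 / u1)
        + algebraMap F Ω (l1 * ζ' + l2 * ε' - m1 * ζ - m2 * ε) * (u2 / u1) ^ 2
        + algebraMap F Ω (l2 * ζ' - m2 * ζ) * (u2 / u1) ^ 3) = 0 ∧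
    (algebraMap F Ω α * (u3 / u1) ^ 2
      + (algebraMap F Ω β + algebraMap F Ω γ * (u2 / u1)) * (u3 / u1)
      + (algebraMap F Ω δ + algebraMap F Ω ε * (u2 / u1) + algebraMap F Ω ζ * (u2 / u1) ^ 2)) ≠ 0 ∧
    u1 = -(algebraMap F Ω l1 + algebraMap F Ω l2 * (u2 / u1)) /
      (algebraMap F Ω α * (u3 / u1) ^ 2
      + (algebraMap F Ω β + algebraMap F Ω γ * (u2 / u1)) * (u3 / u1)
      + (algebraMap F Ω δ + algebraMap F Ω ε * (u2 / u1) + algebraMap F Ω ζ * (u2 / u1) ^ 2))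
      := by
  set φ := algebraMap F Ω with hφ
  have hφ0 : ∀ a : F, φ a = 0 → a = 0 := fun a ha => by
    rwa [map_eq_zero] at ha
  have h12 : ¬(u1 = 0 ∧ u2 = 0) := by
    rintro ⟨rfl, rfl⟩
    have h3 : u3 ∉ Set.range φ := fun h3 => hn ⟨⟨0, map_zero _⟩, ⟨0, map_zero _⟩, h3⟩
    have h30 : u3 ≠ 0 := by
      rintro rfl
      exact h3 ⟨0, map_zero _⟩
    have e1 : α = 0 := by
      apply hφ0
      apply mul_right_cancel₀ (pow_ne_zero 2 h30)
      linear_combination hu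
    have e2 : α' = 0 := by
      apply hφ0
      apply mul_right_cancel₀ (pow_ne_zero 2 h30)
      linear_combination hu'
    rw [e1, e2, mul_zero, mul_zero, sub_self, mul_zero, mul_zero, sub_self, dq_outer] at h
    exact h rfl
  have hlm' : φ l1 * φ m2 - φ l2 * φ m1 ≠ 0 := by
    rw [← map_mul, ← map_mul, ← map_sub, Ne, map_eq_zero]
    exact hlm
  -- the cubic cone
  have hcone : (φ l1 * u1 + φ l2 * u2) * (φ α' * u3 ^ 2 + (φ β' * u1 + φ γ' * u2) * u3
      + (φ δ' * u1 ^ 2 + φ ε' * u1 * u2 + φ ζ' * u2 ^ 2))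
      - (φ m1 * u1 + φ m2 * u2) * (φ α * u3 ^ 2 + (φ β * u1 + φ γ * u2) * u3
      + (φ δ * u1 ^ 2 + φ ε * u1 * u2 + φ ζ * u2 ^ 2)) = 0 := by
    linear_combination (φ l1 * u1 + φ l2 * u2) * hu' - (φ m1 * u1 + φ m2 * u2) * hu
  -- recovery of the scale
  have hscale : ∀ s d1 d2 d3 : Ω, u1 = s * d1 → u2 = s * d2 → u3 = s * d3 →
      d1 ∈ Set.range φ → d2 ∈ Set.range φ → d3 ∈ Set.range φ → False := by
    rintro s _ _ _ e1 e2 e3 ⟨d1, rfl⟩ ⟨d2, rfl⟩ ⟨d3, rfl⟩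
    have hs : s ≠ 0 := by
      rintro rfl
      exact h12 ⟨by rw [e1, zero_mul], by rw [e2, zero_mul]⟩
    have hs' : s ∈ Set.range φ := by
      by_cases hd : l1 * d1 + l2 * d2 = 0
      · apply mem_range_of_quad 0 (α' * d3 ^ 2 + (β' * d1 + γ' * d2) * d3
          + (δ' * d1 ^ 2 + ε' * d1 * d2 + ζ' * d2 ^ 2)) (m1 * d1 + m2 * d2)
        · rintro ⟨-, -, e4⟩
          apply h12
          have f1 : (l1 * m2 - l2 * m1) * d1 = 0 := by
            linear_combination m2 * hd - l2 * e4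
          have f2 : (l1 * m2 - l2 * m1) * d2 = 0 := by
            linear_combination l1 * e4 - m1 * hd
          have g1 := (mul_eq_zero.mp f1).resolve_left hlm
          have g2 := (mul_eq_zero.mp f2).resolve_left hlm
          exact ⟨by rw [e1, g1, map_zero, mul_zero], by rw [e2, g2, map_zero, mul_zero]⟩
        · apply mul_left_cancel₀ hs
          rw [e1, e2, e3] at hu'
          rw [← hφ]
          simp only [map_add, map_mul, map_pow, map_zero]
          linear_combination hu'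
      · apply mem_range_of_quad 0 (α * d3 ^ 2 + (β * d1 + γ * d2) * d3
          + (δ * d1 ^ 2 + ε * d1 * d2 + ζ * d2 ^ 2)) (l1 * d1 + l2 * d2)
        · rintro ⟨-, -, e4⟩
          exact hd e4
        · apply mul_left_cancel₀ hs
          rw [e1, e2, e3] at hu
          rw [← hφ]
          simp only [map_add, map_mul, map_pow, map_zero]
          linear_combination hu
    obtain ⟨s', rfl⟩ := hs'
    exact hn ⟨⟨s' * d1, by rw [map_mul, e1]⟩, ⟨s' * d2, by rw [map_mul, e2]⟩,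
      ⟨s' * d3, by rw [map_mul, e3]⟩⟩
  have h1 : u1 ≠ 0 := by
    rintro rfl
    have h2 : u2 ≠ 0 := fun h2 => h12 ⟨rfl, h2⟩
    have hw : u3 / u2 ∈ Set.range φ := by
      apply mem_range_of_quad (l2 * α' - m2 * α) (l2 * γ' - m2 * γ) (l2 * ζ' - m2 * ζ)
      · rintro ⟨e1, e2, e3⟩
        rw [e1, e2, e3, dq_top] at h
        exact h rfl
      · rw [← hφ]
        simp only [map_sub, map_mul]
        field_simp
        apply mul_left_cancel₀ h2
        linear_combination hcone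
    refine hscale u2 0 1 (u3 / u2) (by ring) (by ring) (by field_simp) ⟨0, map_zero _⟩
      ⟨1, map_one _⟩ hw
  have hE : (φ (l1 * α' - m1 * α) + φ (l2 * α' - m2 * α) * (u2 / u1)) * (u3 / u1) ^ 2
      + (φ (l1 * β' - m1 * β) + φ (l1 * γ' + l2 * β' - m1 * γ - m2 * β) * (u2 / u1)
        + φ (l2 * γ' - m2 * γ) * (u2 / u1) ^ 2) * (u3 / u1)
      + (φ (l1 * δ' - m1 * δ) + φ (l1 * ε' + l2 * δ' - m1 * ε - m2 * δ) * (u2 / u1)
        + φ (l1 * ζ' + l2 * ε' - m1 * ζ - m2 * ε) * (u2 / u1) ^ 2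
        + φ (l2 * ζ' - m2 * ζ) * (u2 / u1) ^ 3) = 0 := by
    simp only [map_sub, map_add, map_mul]
    field_simp
    linear_combination hcone
  have htr : Transcendental F (u2 / u1) := by
    rw [transcendental_iff]
    rintro ⟨τ, hτ⟩
    have hw : u3 / u1 ∈ Set.range φ := by
      apply mem_range_of_quad _ _ _
        (fun hc => no_common _ _ _ _ _ _ _ _ _ h τ ⟨hc.2.2, hc.2.1, hc.1⟩)
      rw [← hφ, map_add φ (l1 * α' - m1 * α), map_mul φ _ τ]
      simp only [map_add φ (l1 * β' - m1 * β + _), map_add φ (l1 * β' - m1 * β),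
        map_mul φ _ τ, map_mul φ _ (τ ^ 2), map_mul φ _ (τ ^ 3), map_pow,
        map_add φ (l1 * δ' - m1 * δ + _ + _), map_add φ (l1 * δ' - m1 * δ + _),
        map_add φ (l1 * δ' - m1 * δ)]
      have hτ' : φ τ = u2 / u1 := hτ
      rw [hτ']
      exact hE
    exact hscale u1 1 (u2 / u1) (u3 / u1) (by ring) (by field_simp) (by field_simp)
      ⟨1, map_one _⟩ ⟨τ, hτ⟩ hw
  have hd : φ l1 + φ l2 * (u2 / u1) ≠ 0 := by
    intro hd
    by_cases h2 : l2 = 0
    · rw [h2, map_zero, zero_mul, add_zero, map_eq_zero] at hd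
      apply hlm
      rw [h2, hd]
      ring
    · rw [transcendental_iff] at htr
      apply htr
      refine ⟨-l1 / l2, ?_⟩
      have h2' : φ l2 ≠ 0 := by rwa [Ne, map_eq_zero]
      rw [map_div₀, map_neg, div_eq_iff h2']
      linear_combination -hd
  have e : (φ l1 + φ l2 * (u2 / u1)) + u1 * (φ α * (u3 / u1) ^ 2
      + (φ β + φ γ * (u2 / u1)) * (u3 / u1)
      + (φ δ + φ ε * (u2 / u1) + φ ζ * (u2 / u1) ^ 2)) = 0 := by
    apply mul_left_cancel₀ h1
    rw [mul_zero]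
    field_simp
    linear_combination hu
  have hne : φ α * (u3 / u1) ^ 2 + (φ β + φ γ * (u2 / u1)) * (u3 / u1)
      + (φ δ + φ ε * (u2 / u1) + φ ζ * (u2 / u1) ^ 2) ≠ 0 := by
    intro h0
    rw [h0, mul_zero, add_zero] at e
    exact hd e
  refine ⟨h1, htr, hE, hne, ?_⟩
  rw [eq_div_iff hne]
  linear_combination e

/-- Two quadrics in space with a point at the origin and the third axis as the tangent line. -/
theorem ell_quadrics {u1 u2 u3 : Ω} (l1 l2 m1 m2 α β γ δ ε ζ α' β' γ' δ' ε' ζ' : F)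
    (h : dq (l1 * δ' - m1 * δ) (l1 * ε' + l2 * δ' - m1 * ε - m2 * δ)
      (l1 * ζ' + l2 * ε' - m1 * ζ - m2 * ε) (l2 * ζ' - m2 * ζ)
      (l1 * β' - m1 * β) (l1 * γ' + l2 * β' - m1 * γ - m2 * β) (l2 * γ' - m2 * γ)
      (l1 * α' - m1 * α) (l2 * α' - m2 * α) ≠ 0)
    (hlm : l1 * m2 - l2 * m1 ≠ 0)
    (hn : ¬(u1 ∈ Set.range (algebraMap F Ω) ∧ u2 ∈ Set.range (algebraMap F Ω) ∧
      u3 ∈ Set.range (algebraMap F Ω)))
    (hu : (algebraMap F Ω l1 * u1 + algebraMap F Ω l2 * u2) + (algebraMap F Ω α * u3 ^ 2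
      + (algebraMap F Ω β * u1 + algebraMap F Ω γ * u2) * u3
      + (algebraMap F Ω δ * u1 ^ 2 + algebraMap F Ω ε * u1 * u2 + algebraMap F Ω ζ * u2 ^ 2)) = 0)
    (hu' : (algebraMap F Ω m1 * u1 + algebraMap F Ω m2 * u2) + (algebraMap F Ω α' * u3 ^ 2
      + (algebraMap F Ω β' * u1 + algebraMap F Ω γ' * u2) * u3
      + (algebraMap F Ω δ' * u1 ^ 2 + algebraMap F Ω ε' * u1 * u2 + algebraMap F Ω ζ' * u2 ^ 2))
        = 0) :
    Ell F (adjoin F {u1, u2, u3}) := by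
  obtain ⟨h1, htr, hE, hne, he⟩ := quadrics_facts l1 l2 m1 m2 α β γ δ ε ζ α' β' γ' δ' ε' ζ' h hlm
    hn hu hu'
  have key : adjoin F {u2 / u1, u3 / u1} = adjoin F {u1, u2, u3} := by
    have m1' : u1 ∈ adjoin F {u1, u2, u3} := subset_adjoin _ _ (Or.inl rfl)
    have m2' : u2 ∈ adjoin F {u1, u2, u3} := subset_adjoin _ _ (Or.inr (Or.inl rfl))
    have m3' : u3 ∈ adjoin F {u1, u2, u3} := subset_adjoin _ _ (Or.inr (Or.inr rfl))
    have n2 : u2 / u1 ∈ adjoin F {u2 / u1, u3 / u1} := mem_left _ _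
    have n3 : u3 / u1 ∈ adjoin F {u2 / u1, u3 / u1} := mem_right _ _
    have n0 : ∀ a : F, algebraMap F Ω a ∈ adjoin F {u2 / u1, u3 / u1} :=
      fun a => _root_.algebraMap_mem _ a
    have n1 : u1 ∈ adjoin F {u2 / u1, u3 / u1} := by
      have := div_mem (neg_mem (add_mem (n0 l1) (mul_mem (n0 l2) n2)))
        (add_mem (add_mem (mul_mem (n0 α) (pow_mem n3 2))
          (mul_mem (add_mem (n0 β) (mul_mem (n0 γ) n2)) n3))
          (add_mem (add_mem (n0 δ) (mul_mem (n0 ε) n2)) (mul_mem (n0 ζ) (pow_mem n2 2))))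
      rwa [← he] at this
    apply le_antisymm
    · rw [adjoin_le_iff]
      rintro z (rfl | rfl)
      · exact div_mem m2' m1'
      · exact div_mem m3' m1'
    · rw [adjoin_le_iff]
      rintro z (rfl | rfl | rfl)
      · exact n1
      · have := mul_mem n2 n1
        rwa [div_mul_cancel₀ _ h1] at this
      · have := mul_mem n3 n1
        rwa [div_mul_cancel₀ _ h1] at this
  rw [← key]
  exact ell_of_dq _ _ _ _ _ _ _ _ _ h htr hE

end Pool.Agent.Helper15.GM
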