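import Pool.Agent.Helper15.GM.Weier

/-!
# The discriminant of a quartic, a plane cubic and two quadrics with a point
-/

namespace Pool.Agent.Helper15.GM

open Polynomial IntermediateField

/-- Twenty-seven times the discriminant of `a t ^ 4 + b t ^ 3 + c t ^ 2 + d t + e`. -/
def disc4 {R : Type*} [CommRing R] (a b c d e : R) : R :=
  4 * (12 * a * e - 3 * b * d + c ^ 2) ^ 3
    - (72 * a * c * e + 9 * b * c * d - 27 * a * d ^ 2 - 27 * e * b ^ 2 - 2 * c ^ 3) ^ 2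

theorem map_disc4 {R S : Type*} [CommRing R] [CommRing S] (φ : R →+* S) (a b c d e : R) :
    φ (disc4 a b c d e) = disc4 (φ a) (φ b) (φ c) (φ d) (φ e) := by
  simp only [disc4, map_sub, map_mul, map_add, map_pow, map_ofNat]

theorem disc4_four {R : Type*} [CommRing R] (A s1 s2 s3 s4 : R) :
    disc4 A (-(A * (s1 + s2 + s3 + s4)))
      (A * (s1 * s2 + s1 * s3 + s1 * s4 + s2 * s3 + s2 * s4 + s3 * s4))
      (-(A * (s1 * s2 * s3 + s1 * s2 * s4 + s1 * s3 * s4 + s2 * s3 * s4)))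
      (A * (s1 * s2 * s3 * s4))
    = 27 * A ^ 6 * ((s1 - s2) ^ 2 * (s1 - s3) ^ 2 * (s1 - s4) ^ 2 * (s2 - s3) ^ 2
      * (s2 - s4) ^ 2 * (s3 - s4) ^ 2) := by
  unfold disc4
  ring

theorem disc4_three {R : Type*} [CommRing R] (A s1 s2 s3 : R) :
    disc4 0 A (-(A * (s1 + s2 + s3))) (A * (s1 * s2 + s1 * s3 + s2 * s3))
      (-(A * (s1 * s2 * s3)))
    = 27 * A ^ 6 * ((s1 - s2) ^ 2 * (s1 - s3) ^ 2 * (s2 - s3) ^ 2) := by
  unfold disc4
  ring

theorem disc4_two {R : Type*} [CommRing R] (c d e : R) : disc4 0 0 c d e = 0 := by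
  unfold disc4
  ring

/-- A quartic whose discriminant does not vanish is separable, of degree three or four. -/
theorem sep_of_disc4 {F : Type*} [Field F] [IsAlgClosed F] (a b c d e : F)
    (h : disc4 a b c d e ≠ 0) (q : Polynomial F)
    (hq : q = C e + C d * X + C c * X ^ 2 + C b * X ^ 3 + C a * X ^ 4) :
    q.Separable ∧ 3 ≤ q.natDegree ∧ q.natDegree ≤ 4 := by
  obtain ⟨c0, c1, c2, c3, c4⟩ := EC.coeff_five q _ _ _ _ _ hq
  have hle : q.natDegree ≤ 4 := by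
    rw [hq]
    compute_degree
  have hge : 3 ≤ q.natDegree := by
    by_contra hlt
    have h4 : q.coeff 4 = 0 := coeff_eq_zero_of_natDegree_lt (by omega)
    have h3 : q.coeff 3 = 0 := coeff_eq_zero_of_natDegree_lt (by omega)
    rw [c4] at h4
    rw [c3] at h3
    rw [h4, h3, disc4_two] at h
    exact h rfl
  have hQ0 : q ≠ 0 := by
    rintro rfl
    simp at hge
  refine ⟨?_, hge, hle⟩
  rw [← Polynomial.nodup_roots_iff_of_splits hQ0 (IsAlgClosed.splits q)]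
  have hsplit := (IsAlgClosed.splits q).eq_prod_roots
  have hcard : q.roots.card = q.natDegree := IsAlgClosed.card_roots_eq_natDegree
  rcases (by omega : q.natDegree = 3 ∨ q.natDegree = 4) with hd | hd
  · rw [hd] at hcard
    obtain ⟨s1, s2, s3, hs⟩ := Multiset.card_eq_three.mp hcard
    rw [hs] at hsplit ⊢
    generalize q.leadingCoeff = A at hsplit
    have hexp : q = C (-(A * (s1 * s2 * s3)))
        + C (A * (s1 * s2 + s1 * s3 + s2 * s3)) * X
        + C (-(A * (s1 + s2 + s3))) * X ^ 2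
        + C A * X ^ 3 + C 0 * X ^ 4 := by
      conv_lhs => rw [hsplit]
      simp only [Multiset.insert_eq_cons, Multiset.map_cons, Multiset.map_singleton,
        Multiset.prod_cons, Multiset.prod_singleton, map_neg, map_mul, map_add, map_zero]
      ring
    obtain ⟨e0, e1, e2, e3, e4⟩ := EC.coeff_five q _ _ _ _ _ hexp
    rw [c0] at e0
    rw [c1] at e1
    rw [c2] at e2
    rw [c3] at e3
    rw [c4] at e4
    rw [e0, e1, e2, e3, e4, disc4_three] at h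
    have n : s1 ≠ s2 ∧ s1 ≠ s3 ∧ s2 ≠ s3 := by
      refine ⟨?_, ?_, ?_⟩ <;> (rintro rfl; apply h; ring)
    obtain ⟨n1, n2, n3⟩ := n
    simp only [Multiset.insert_eq_cons, Multiset.nodup_cons, Multiset.mem_cons,
      Multiset.mem_singleton, not_or, Multiset.nodup_singleton, and_true]
    exact ⟨⟨n1, n2⟩, n3⟩
  · rw [hd] at hcard
    obtain ⟨s1, T, hT⟩ : ∃ s1 T, q.roots = s1 ::ₘ T :=
      Multiset.exists_cons_of_mem (Multiset.card_pos_iff_exists_mem.mp (by omega)).choose_spec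
        |>.elim fun t ht => ⟨_, t, ht⟩
    have hcardT : T.card = 3 := by
      rw [hT, Multiset.card_cons] at hcard
      omega
    obtain ⟨s2, s3, s4, hs⟩ := Multiset.card_eq_three.mp hcardT
    rw [hT, hs] at hsplit ⊢
    generalize q.leadingCoeff = A at hsplit
    have hexp : q = C (A * (s1 * s2 * s3 * s4))
        + C (-(A * (s1 * s2 * s3 + s1 * s2 * s4 + s1 * s3 * s4 + s2 * s3 * s4))) * X
        + C (A * (s1 * s2 + s1 * s3 + s1 * s4 + s2 * s3 + s2 * s4 + s3 * s4)) * X ^ 2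
        + C (-(A * (s1 + s2 + s3 + s4))) * X ^ 3
        + C A * X ^ 4 := by
      conv_lhs => rw [hsplit]
      simp only [Multiset.insert_eq_cons, Multiset.map_cons, Multiset.map_singleton,
        Multiset.prod_cons, Multiset.prod_singleton, map_neg, map_mul, map_add]
      ring
    obtain ⟨e0, e1, e2, e3, e4⟩ := EC.coeff_five q _ _ _ _ _ hexp
    rw [c0] at e0
    rw [c1] at e1
    rw [c2] at e2
    rw [c3] at e3
    rw [c4] at e4
    rw [e0, e1, e2, e3, e4, disc4_four] at h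
    have n : (s1 ≠ s2 ∧ s1 ≠ s3 ∧ s1 ≠ s4) ∧ (s2 ≠ s3 ∧ s2 ≠ s4) ∧ s3 ≠ s4 := by
      refine ⟨⟨?_, ?_, ?_⟩, ⟨?_, ?_⟩, ?_⟩ <;> (rintro rfl; apply h; ring)
    obtain ⟨⟨n1, n2, n3⟩, ⟨n4, n5⟩, n6⟩ := n
    simp only [Multiset.insert_eq_cons, Multiset.nodup_cons, Multiset.mem_cons,
      Multiset.mem_singleton, not_or, Multiset.nodup_singleton, and_true]
    exact ⟨⟨n1, n2, n3⟩, ⟨n4, n5⟩, n6⟩

section Closed

variable {F Ω : Type*} [Field F] [Field Ω] [Algebra F Ω] [IsAlgClosed F] [CharZero F]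

/-- The fifteen coefficients of `A1 ^ 2 - 4 A2 A0`. -/
def dq {R : Type*} [CommRing R] (a0 a1 a2 a3 b0 b1 b2 g0 g1 : R) : R :=
  disc4 (b2 ^ 2 - 4 * g1 * a3) (2 * b1 * b2 - 4 * (g0 * a3 + g1 * a2))
    (b1 ^ 2 + 2 * b0 * b2 - 4 * (g0 * a2 + g1 * a1)) (2 * b0 * b1 - 4 * (g0 * a1 + g1 * a0))
    (b0 ^ 2 - 4 * g0 * a0)

theorem map_dq {R S : Type*} [CommRing R] [CommRing S] (φ : R →+* S)
    (a0 a1 a2 a3 b0 b1 b2 g0 g1 : R) : φ (dq a0 a1 a2 a3 b0 b1 b2 g0 g1)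
    = dq (φ a0) (φ a1) (φ a2) (φ a3) (φ b0) (φ b1) (φ b2) (φ g0) (φ g1) := by
  simp only [dq, map_disc4, map_sub, map_mul, map_add, map_pow, map_ofNat]

/-- `(g0 + g1 t) u ^ 2 + (b0 + b1 t + b2 t ^ 2) u + (a0 + .. + a3 t ^ 3) = 0`, with the roles of
the outer coefficients free. -/
theorem ell_of_dq {t u : Ω} (a0 a1 a2 a3 b0 b1 b2 g0 g1 : F)
    (h : dq a0 a1 a2 a3 b0 b1 b2 g0 g1 ≠ 0) (ht : Transcendental F t)
    (hu : (algebraMap F Ω g0 + algebraMap F Ω g1 * t) * u ^ 2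
      + (algebraMap F Ω b0 + algebraMap F Ω b1 * t + algebraMap F Ω b2 * t ^ 2) * u
      + (algebraMap F Ω a0 + algebraMap F Ω a1 * t + algebraMap F Ω a2 * t ^ 2
        + algebraMap F Ω a3 * t ^ 3) = 0) :
    Ell F (adjoin F {t, u}) := by
  obtain ⟨h1, h2, h3⟩ := sep_of_disc4 _ _ _ _ _ h
    ((C b0 + C b1 * X + C b2 * X ^ 2) ^ 2 - 4 * (C g0 + C g1 * X)
      * (C a0 + C a1 * X + C a2 * X ^ 2 + C a3 * X ^ 3)) (by
      simp only [map_sub, map_mul, map_add, map_pow, map_ofNat]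
      ring)
  refine ell_of_quadratic (C g0 + C g1 * X) (C b0 + C b1 * X + C b2 * X ^ 2)
    (C a0 + C a1 * X + C a2 * X ^ 2 + C a3 * X ^ 3) h1 h2 h3 ht ?_
  simp only [map_add, map_mul, map_pow, aeval_C, aeval_X]
  exact hu

/-- The same with the outer coefficients exchanged. -/
theorem ell_of_dq' {t u : Ω} (a0 a1 a2 a3 b0 b1 b2 g0 g1 : F)
    (h : dq a0 a1 a2 a3 b0 b1 b2 g0 g1 ≠ 0) (ht : Transcendental F t)
    (hu : (algebraMap F Ω a0 + algebraMap F Ω a1 * t + algebraMap F Ω a2 * t ^ 2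
        + algebraMap F Ω a3 * t ^ 3) * u ^ 2
      + (algebraMap F Ω b0 + algebraMap F Ω b1 * t + algebraMap F Ω b2 * t ^ 2) * u
      + (algebraMap F Ω g0 + algebraMap F Ω g1 * t) = 0) :
    Ell F (adjoin F {t, u}) := by
  obtain ⟨h1, h2, h3⟩ := sep_of_disc4 _ _ _ _ _ h
    ((C b0 + C b1 * X + C b2 * X ^ 2) ^ 2
      - 4 * (C a0 + C a1 * X + C a2 * X ^ 2 + C a3 * X ^ 3) * (C g0 + C g1 * X)) (by
      simp only [map_sub, map_mul, map_add, map_pow, map_ofNat]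
      ring)
  refine ell_of_quadratic (C a0 + C a1 * X + C a2 * X ^ 2 + C a3 * X ^ 3)
    (C b0 + C b1 * X + C b2 * X ^ 2) (C g0 + C g1 * X) h1 h2 h3 ht ?_
  simp only [map_add, map_mul, map_pow, aeval_C, aeval_X]
  exact hu

end Closed

end Pool.Agent.Helper15.GM
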