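import Pool.Agent.Helper15.GM.Fib3

/-!
# Two quadrics and linear forms
-/

namespace Pool.Agent.Helper15.GM

open IntermediateField MvPolynomial Matrix

variable {J S S' : Type} [Fintype J] [DecidableEq J] [Fintype S] [Fintype S']

/-- The coefficients. -/
abbrev E2 (J S S' : Type) := (J × HH 3 J) ⊕ (S ⊕ S')

section Ring

variable {A : Type*} [CommRing A]

/-- The point. -/
def pt2 (k : Fin 2 ⊕ J → A) : HH 3 J → A
  | none => 1
  | some (Sum.inl a) => (![k (Sum.inl 0), k (Sum.inl 1), 0] : Fin 3 → A) a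
  | some (Sum.inr j) => k (Sum.inr j)

omit [Fintype J] [DecidableEq J] in
theorem map_pt2 {B : Type*} [CommRing B] (φ : A →+* B) (k : Fin 2 ⊕ J → A) (h : HH 3 J) :
    φ (pt2 k h) = pt2 (fun i => φ (k i)) h := by
  rcases h with _ | a | j
  · exact map_one φ
  · fin_cases a
    · rfl
    · rfl
    · exact map_zero φ
  · rfl

/-- The linear forms. -/
def lam2 (c : E2 J S S' → A) : J → HH 3 J → A := fun j h => c (Sum.inl (j, h))

/-- The equations. -/
def eq2 (ix : S → Fin 2 → HH 3 J) (ix' : S' → Fin 2 → HH 3 J) (c : E2 J S S' → A)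
    (y : HH 3 J → A) : Fin 2 ⊕ J → A
  | Sum.inl a => (![val ix (fun s => c (Sum.inr (Sum.inl s))) y,
      val ix' (fun s => c (Sum.inr (Sum.inr s))) y] : Fin 2 → A) a
  | Sum.inr j => ∑ h, lam2 c j h * y h

omit [DecidableEq J] in
theorem map_eq2 {B : Type*} [CommRing B] (φ : A →+* B) (ix : S → Fin 2 → HH 3 J)
    (ix' : S' → Fin 2 → HH 3 J) (c : E2 J S S' → A) (y : HH 3 J → A) (i : Fin 2 ⊕ J) :
    φ (eq2 ix ix' c y i) = eq2 ix ix' (fun e => φ (c e)) (fun h => φ (y h)) i := by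
  rcases i with a | j
  · fin_cases a
    · exact map_val ix φ _ _
    · exact map_val ix' φ _ _
  · simp only [eq2, map_sum, map_mul]
    rfl

/-- The polar form of the first quadric. -/
def p1 (ix : S → Fin 2 → HH 3 J) (c : E2 J S S' → A) (x y : HH 3 J → A) : A :=
  mul2 ix (fun s => c (Sum.inr (Sum.inl s))) x y

/-- The polar form of the second quadric. -/
def p2 (ix' : S' → Fin 2 → HH 3 J) (c : E2 J S S' → A) (x y : HH 3 J → A) : A :=
  mul2 ix' (fun s => c (Sum.inr (Sum.inr s))) x y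

/-- The derivative of the first quadric in the direction `k`. -/
def d1 (ix : S → Fin 2 → HH 3 J) (c : E2 J S S' → A) (y : HH 3 J → A) (k : Fin 3) : A :=
  p1 ix c y (kv (lam2 c) k) + p1 ix c (kv (lam2 c) k) y

/-- The derivative of the second quadric in the direction `k`. -/
def d2 (ix' : S' → Fin 2 → HH 3 J) (c : E2 J S S' → A) (y : HH 3 J → A) (k : Fin 3) : A :=
  p2 ix' c y (kv (lam2 c) k) + p2 ix' c (kv (lam2 c) k) y

/-- The coefficients of the tangent vector. -/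
def tau (ix : S → Fin 2 → HH 3 J) (ix' : S' → Fin 2 → HH 3 J) (c : E2 J S S' → A)
    (y : HH 3 J → A) : Fin 3 → A :=
  ![d1 ix c y 1 * d2 ix' c y 2 - d1 ix c y 2 * d2 ix' c y 1,
    d1 ix c y 2 * d2 ix' c y 0 - d1 ix c y 0 * d2 ix' c y 2,
    d1 ix c y 0 * d2 ix' c y 1 - d1 ix c y 1 * d2 ix' c y 0]

/-- The tangent vector. -/
def tang (ix : S → Fin 2 → HH 3 J) (ix' : S' → Fin 2 → HH 3 J) (c : E2 J S S' → A)
    (y : HH 3 J → A) : HH 3 J → A :=
  fun h => tau ix ix' c y 0 * kv (lam2 c) 0 h + tau ix ix' c y 1 * kv (lam2 c) 1 h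
    + tau ix ix' c y 2 * kv (lam2 c) 2 h

/-- The frame. -/
def fr2 (ix : S → Fin 2 → HH 3 J) (ix' : S' → Fin 2 → HH 3 J) (c : E2 J S S' → A)
    (y : HH 3 J → A) : Fin 4 → HH 3 J → A :=
  ![y, kv (lam2 c) 0, kv (lam2 c) 1, tang ix ix' c y]

variable {B : Type*} [CommRing B] (φ : A →+* B)

omit [Fintype J] [DecidableEq J] [Fintype S'] in
theorem map_p1 (ix : S → Fin 2 → HH 3 J) (c : E2 J S S' → A) (x y : HH 3 J → A) :
    φ (p1 ix c x y) = p1 ix (fun e => φ (c e)) (fun h => φ (x h)) (fun h => φ (y h)) := by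
  simp only [p1, mul2, map_sum, map_mul]

omit [Fintype J] [DecidableEq J] [Fintype S] in
theorem map_p2 (ix' : S' → Fin 2 → HH 3 J) (c : E2 J S S' → A) (x y : HH 3 J → A) :
    φ (p2 ix' c x y) = p2 ix' (fun e => φ (c e)) (fun h => φ (x h)) (fun h => φ (y h)) := by
  simp only [p2, mul2, map_sum, map_mul]

omit [Fintype S'] in
theorem map_d1 (ix : S → Fin 2 → HH 3 J) (c : E2 J S S' → A) (y : HH 3 J → A) (k : Fin 3) :
    φ (d1 ix c y k) = d1 ix (fun e => φ (c e)) (fun h => φ (y h)) k := by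
  simp only [d1, map_add, map_p1, map_kv]
  rfl

omit [Fintype S] in
theorem map_d2 (ix' : S' → Fin 2 → HH 3 J) (c : E2 J S S' → A) (y : HH 3 J → A) (k : Fin 3) :
    φ (d2 ix' c y k) = d2 ix' (fun e => φ (c e)) (fun h => φ (y h)) k := by
  simp only [d2, map_add, map_p2, map_kv]
  rfl

theorem map_tau (ix : S → Fin 2 → HH 3 J) (ix' : S' → Fin 2 → HH 3 J) (c : E2 J S S' → A)
    (y : HH 3 J → A) (k : Fin 3) :
    φ (tau ix ix' c y k) = tau ix ix' (fun e => φ (c e)) (fun h => φ (y h)) k := by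
  fin_cases k <;> simp [tau, map_d1, map_d2]

theorem map_tang (ix : S → Fin 2 → HH 3 J) (ix' : S' → Fin 2 → HH 3 J) (c : E2 J S S' → A)
    (y : HH 3 J → A) (h : HH 3 J) :
    φ (tang ix ix' c y h) = tang ix ix' (fun e => φ (c e)) (fun h => φ (y h)) h := by
  simp only [tang, map_add, map_mul, map_tau, map_kv]
  rfl

theorem map_fr2 (ix : S → Fin 2 → HH 3 J) (ix' : S' → Fin 2 → HH 3 J) (c : E2 J S S' → A)
    (y : HH 3 J → A) (p : Fin 4) (h : HH 3 J) :
    φ (fr2 ix ix' c y p h) = fr2 ix ix' (fun e => φ (c e)) (fun h => φ (y h)) p h := by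
  fin_cases p
  · rfl
  · exact map_kv φ _ _ _
  · exact map_kv φ _ _ _
  · exact map_tang φ _ _ _ _ _

/-- The coefficients of the two quadrics in the frame. -/
def cf2 (ix : S → Fin 2 → HH 3 J) (ix' : S' → Fin 2 → HH 3 J) (c : E2 J S S' → A)
    (y : HH 3 J → A) : Fin 16 → A :=
  let m := fun p q => p1 ix c (fr2 ix ix' c y p) (fr2 ix ix' c y q)
  let n := fun p q => p2 ix' c (fr2 ix ix' c y p) (fr2 ix ix' c y q)
  ![m 0 1 + m 1 0, m 0 2 + m 2 0, n 0 1 + n 1 0, n 0 2 + n 2 0,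
    m 3 3, m 1 3 + m 3 1, m 2 3 + m 3 2, m 1 1, m 1 2 + m 2 1, m 2 2,
    n 3 3, n 1 3 + n 3 1, n 2 3 + n 3 2, n 1 1, n 1 2 + n 2 1, n 2 2]

theorem map_cf2 (ix : S → Fin 2 → HH 3 J) (ix' : S' → Fin 2 → HH 3 J) (c : E2 J S S' → A)
    (y : HH 3 J → A) (i : Fin 16) :
    φ (cf2 ix ix' c y i) = cf2 ix ix' (fun e => φ (c e)) (fun h => φ (y h)) i := by
  have h1 : ∀ p q, φ (p1 ix c (fr2 ix ix' c y p) (fr2 ix ix' c y q))
      = p1 ix (fun e => φ (c e)) (fr2 ix ix' (fun e => φ (c e)) (fun h => φ (y h)) p)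
        (fr2 ix ix' (fun e => φ (c e)) (fun h => φ (y h)) q) := by
    intro p q
    rw [map_p1]
    simp only [map_fr2]
  have h2 : ∀ p q, φ (p2 ix' c (fr2 ix ix' c y p) (fr2 ix ix' c y q))
      = p2 ix' (fun e => φ (c e)) (fr2 ix ix' (fun e => φ (c e)) (fun h => φ (y h)) p)
        (fr2 ix ix' (fun e => φ (c e)) (fun h => φ (y h)) q) := by
    intro p q
    rw [map_p2]
    simp only [map_fr2]
  simp only [cf2, ← h1, ← h2]
  fin_cases i <;> simp [map_add]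

/-- The discriminant in terms of the sixteen coefficients. -/
def dq2 (a : Fin 16 → A) : A :=
  dq (a 0 * a 13 - a 2 * a 7) (a 0 * a 14 + a 1 * a 13 - a 2 * a 8 - a 3 * a 7)
    (a 0 * a 15 + a 1 * a 14 - a 2 * a 9 - a 3 * a 8) (a 1 * a 15 - a 3 * a 9)
    (a 0 * a 11 - a 2 * a 5) (a 0 * a 12 + a 1 * a 11 - a 2 * a 6 - a 3 * a 5)
    (a 1 * a 12 - a 3 * a 6) (a 0 * a 10 - a 2 * a 4) (a 1 * a 10 - a 3 * a 4)

/-- The open condition. -/
def g2 (ix : S → Fin 2 → HH 3 J) (ix' : S' → Fin 2 → HH 3 J) (c : E2 J S S' → A)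
    (y : HH 3 J → A) : A :=
  (blk (lam2 c)).det * (cf2 ix ix' c y 0 * cf2 ix ix' c y 3 - cf2 ix ix' c y 1 * cf2 ix ix' c y 2)
    * dq2 (cf2 ix ix' c y)

theorem map_g2 (ix : S → Fin 2 → HH 3 J) (ix' : S' → Fin 2 → HH 3 J) (c : E2 J S S' → A)
    (y : HH 3 J → A) :
    φ (g2 ix ix' c y) = g2 ix ix' (fun e => φ (c e)) (fun h => φ (y h)) := by
  simp only [g2, dq2, map_mul, map_sub, map_add, map_dq, map_cf2, RingHom.map_det]
  rfl

omit [Fintype J] [DecidableEq J] [Fintype S'] in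
theorem p1_comb (ix : S → Fin 2 → HH 3 J) (c : E2 J S S' → A) (y v0 v1 v2 : HH 3 J → A)
    (t0 t1 t2 : A) :
    p1 ix c y (fun h => t0 * v0 h + t1 * v1 h + t2 * v2 h)
      + p1 ix c (fun h => t0 * v0 h + t1 * v1 h + t2 * v2 h) y
    = t0 * (p1 ix c y v0 + p1 ix c v0 y) + t1 * (p1 ix c y v1 + p1 ix c v1 y)
      + t2 * (p1 ix c y v2 + p1 ix c v2 y) := by
  simp only [p1, mul2, ← Finset.sum_add_distrib, Finset.mul_sum]
  apply Finset.sum_congr rfl
  intro s _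
  ring

omit [Fintype J] [DecidableEq J] [Fintype S] in
theorem p2_comb (ix' : S' → Fin 2 → HH 3 J) (c : E2 J S S' → A) (y v0 v1 v2 : HH 3 J → A)
    (t0 t1 t2 : A) :
    p2 ix' c y (fun h => t0 * v0 h + t1 * v1 h + t2 * v2 h)
      + p2 ix' c (fun h => t0 * v0 h + t1 * v1 h + t2 * v2 h) y
    = t0 * (p2 ix' c y v0 + p2 ix' c v0 y) + t1 * (p2 ix' c y v1 + p2 ix' c v1 y)
      + t2 * (p2 ix' c y v2 + p2 ix' c v2 y) := by
  simp only [p2, mul2, ← Finset.sum_add_distrib, Finset.mul_sum]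
  apply Finset.sum_congr rfl
  intro s _
  ring

theorem tang1 (ix : S → Fin 2 → HH 3 J) (ix' : S' → Fin 2 → HH 3 J) (c : E2 J S S' → A)
    (y : HH 3 J → A) :
    p1 ix c y (tang ix ix' c y) + p1 ix c (tang ix ix' c y) y = 0 := by
  unfold tang
  rw [p1_comb]
  simp only [tau, Matrix.cons_val_zero, Matrix.cons_val_one, Matrix.cons_val, d1, d2]
  ring

theorem tang2 (ix : S → Fin 2 → HH 3 J) (ix' : S' → Fin 2 → HH 3 J) (c : E2 J S S' → A)
    (y : HH 3 J → A) :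
    p2 ix' c y (tang ix ix' c y) + p2 ix' c (tang ix ix' c y) y = 0 := by
  unfold tang
  rw [p2_comb]
  simp only [tau, Matrix.cons_val_zero, Matrix.cons_val_one, Matrix.cons_val, d1, d2]
  ring

end Ring

end Pool.Agent.Helper15.GM
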