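import Pool.Agent.Helper15.GM.Fib3

/-!
# Plane cubics and linear forms: general coefficients
-/

namespace Pool.Agent.Helper15.GM

open IntermediateField MvPolynomial Matrix

variable {J S : Type} [Fintype J] [DecidableEq J] [Fintype S] [DecidableEq S]

omit [DecidableEq S] in
/-- With a suitable point the system defines a curve of genus one. -/
theorem cl3 {F : Type} [Field F] [IsAlgClosed F] [CharZero F] (ix : S → Fin 3 → HH 2 J)
    (c : E3 J S → F) (y0 : HH 2 J → F) (h0 : y0 none = 1) (he : ∀ i, eq3 ix c y0 i = 0)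
    (hg : g3 ix c y0 ≠ 0) : CL F (sys3 ix c) := by
  have hD : (blk (lam3 c)).det ≠ 0 := left_ne_zero_of_mul hg
  have hdq := right_ne_zero_of_mul hg
  have key : ∀ (Ω : Type) [Field Ω] [Algebra F Ω] (y : HH 2 J → Ω),
      (∀ i, eval₂ (algebraMap F Ω) y (sys3 ix c i) = 0) →
      (∃ h, y h ∉ Set.range (algebraMap F Ω)) →
      ∃ u : Fin 2 → Ω, (∀ h, y h = algebraMap F Ω (y0 h)
        + ∑ p, u p * algebraMap F Ω (kv (lam3 c) p h)) ∧
        (∀ p, u p ∈ adjoin F (Set.range y)) ∧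
        ¬(u 0 ∈ Set.range (algebraMap F Ω) ∧ u 1 ∈ Set.range (algebraMap F Ω)) ∧
        (algebraMap F Ω (cf3 ix c y0 7) * u 0 + algebraMap F Ω (cf3 ix c y0 8) * u 1)
        + (algebraMap F Ω (cf3 ix c y0 4) * u 0 ^ 2 + algebraMap F Ω (cf3 ix c y0 5) * u 0 * u 1
          + algebraMap F Ω (cf3 ix c y0 6) * u 1 ^ 2)
        + (algebraMap F Ω (cf3 ix c y0 0) * u 0 ^ 3
          + algebraMap F Ω (cf3 ix c y0 1) * u 0 ^ 2 * u 1
          + algebraMap F Ω (cf3 ix c y0 2) * u 0 * u 1 ^ 2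
          + algebraMap F Ω (cf3 ix c y0 3) * u 1 ^ 3) = 0 := by
    intro Ω _ _ y hy hnc
    rw [eval_sys3] at hy
    obtain ⟨u, hu, hu', heq⟩ := zero3 ix c y0 h0 he hD y hy.1 hy.2
    refine ⟨u, hu, hu', ?_, heq⟩
    rintro ⟨⟨a, ha⟩, ⟨b, hb⟩⟩
    obtain ⟨h, hh⟩ := hnc
    apply hh
    refine ⟨y0 h + (a * kv (lam3 c) 0 h + b * kv (lam3 c) 1 h), ?_⟩
    rw [hu h, Fin.sum_univ_two, ← ha, ← hb]
    simp only [map_add, map_mul]
  intro Ω _ _ y hy hnc
  obtain ⟨u, hu, hu', hn, heq⟩ := key Ω y hy hnc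
  obtain ⟨f1, f2, f3⟩ := plane_facts _ _ _ _ _ _ _ _ _ hdq hn heq
  refine ⟨?_, ?_⟩
  · have h1 := ell_plane _ _ _ _ _ _ _ _ _ hdq hn heq
    rwa [adjoin_range_eq y0 (fun p => kv (lam3 c) p) y u hu (adjoin F {u 0, u 1}) ?_ ?_ hu'] at h1
    · intro p
      fin_cases p
      · exact mem_left _ _
      · exact mem_right _ _
    · rw [adjoin_le_iff]
      rintro z (rfl | rfl)
      · exact subset_adjoin _ _ ⟨0, rfl⟩
      · exact subset_adjoin _ _ ⟨1, rfl⟩
  · intro Ω' _ φ y' hy' hnc'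
    let _ : Algebra F Ω' := φ.toAlgebra
    obtain ⟨u', hv, -, hn', heq'⟩ := key Ω' y' hy' hnc'
    obtain ⟨f1', f2', f3'⟩ := plane_facts _ _ _ _ _ _ _ _ _ hdq hn' heq'
    have hsq := not_isSquare _ _ _ _ _ _ _ _ _ hdq
    set a0 := cf3 ix c y0 0
    set a1 := cf3 ix c y0 1
    set a2 := cf3 ix c y0 2
    set a3 := cf3 ix c y0 3
    set b0 := cf3 ix c y0 4
    set b1 := cf3 ix c y0 5
    set b2 := cf3 ix c y0 6
    set g0 := cf3 ix c y0 7
    set g1 := cf3 ix c y0 8
    obtain ⟨ψ, hψ1, hψ2⟩ := exists_model (t := u 1 / u 0) (u := u 0) (t' := u' 1 / u' 0)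
      (u' := u' 0)
      (Polynomial.C a0 + Polynomial.C a1 * Polynomial.X + Polynomial.C a2 * Polynomial.X ^ 2
        + Polynomial.C a3 * Polynomial.X ^ 3)
      (Polynomial.C b0 + Polynomial.C b1 * Polynomial.X + Polynomial.C b2 * Polynomial.X ^ 2)
      (Polynomial.C g0 + Polynomial.C g1 * Polynomial.X)
      (by
        intro h0
        apply hsq
        rw [h0, mul_zero, sub_zero]
        exact ⟨_, sq _⟩)
      (by
        intro h0
        apply hsq
        convert h0 using 1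
        ring) f2 f2' (by
        simp only [map_add, map_mul, map_pow, Polynomial.aeval_C, Polynomial.aeval_X]
        exact f3) (by
        simp only [map_add, map_mul, map_pow, Polynomial.aeval_C, Polynomial.aeval_X]
        exact f3')
    have hu1 : u 1 = (u 1 / u 0) * u 0 := by field_simp
    have hu1' : u' 1 = (u' 1 / u' 0) * u' 0 := by field_simp
    have hm1 : u 1 ∈ adjoin F {u 1 / u 0, u 0} := by
      have := mul_mem (mem_left (F := F) (u 1 / u 0) (u 0)) (mem_right (F := F) (u 1 / u 0) (u 0))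
      rwa [← hu1] at this
    obtain ⟨χ, h1, h2⟩ := transport y0 (fun p => kv (lam3 c) p) y y' u u' hu hv
      (adjoin F {u 1 / u 0, u 0}) ψ
      (by
        intro p
        fin_cases p
        · exact mem_right _ _
        · exact hm1)
      (by
        intro p
        fin_cases p
        · exact hψ2
        · have e1 : (⟨u 1, hm1⟩ : adjoin F {u 1 / u 0, u 0})
              = ⟨u 1 / u 0, mem_left _ _⟩ * ⟨u 0, mem_right _ _⟩ := Subtype.ext hu1
          show ψ ⟨u 1, hm1⟩ = u' 1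
          rw [e1, map_mul, hψ1, hψ2, ← hu1'])
    exact ⟨χ, h1, h2⟩

section Example

/-- The coordinates `(1, 0)`, `(0, 1)` of the plane. -/
abbrev ha (J : Type) : HH 2 J := some (Sum.inl 0)

/-- See `ha`. -/
abbrev hb (J : Type) : HH 2 J := some (Sum.inl 1)

/-- The coefficients of the example. -/
def ex3 (s1 s2 s3 : S) : E3 J S → ℚ
  | Sum.inl (j, h) => if h = some (Sum.inr j) then 1 else 0
  | Sum.inr s => (if s = s1 then 1 else 0) + ((if s = s2 then 1 else 0)
      + (if s = s3 then 1 else 0))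

omit [Fintype J] in
theorem mul3_ex (ix : S → Fin 3 → HH 2 J) (s1 s2 s3 : S) (x y z : HH 2 J → ℚ) :
    mul3 ix (fun s => (ex3 s1 s2 s3 : E3 J S → ℚ) (Sum.inr s)) x y z
      = x (ix s1 0) * y (ix s1 1) * z (ix s1 2) + (x (ix s2 0) * y (ix s2 1) * z (ix s2 2)
        + x (ix s3 0) * y (ix s3 1) * z (ix s3 2)) := by
  simp only [mul3, ex3, add_mul, ite_mul, one_mul, zero_mul, Finset.sum_add_distrib,
    Finset.sum_ite_eq', Finset.mem_univ, if_true]

omit [Fintype J] [Fintype S] in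
theorem blk_ex (s1 s2 s3 : S) : blk (lam3 (ex3 s1 s2 s3 : E3 J S → ℚ)) = 1 := by
  ext i j
  simp only [blk, lam3, ex3, Matrix.of_apply, Matrix.one_apply, Option.some.injEq,
    Sum.inr.injEq]
  simp only [eq_comm]

omit [Fintype S] in
theorem kv_ex (s1 s2 s3 : S) (p : Fin 2) (h : HH 2 J) :
    kv (lam3 (ex3 s1 s2 s3 : E3 J S → ℚ)) p h = if h = some (Sum.inl p) then 1 else 0 := by
  rcases h with _ | a | j
  · simp [kv]
  · simp [kv, blk_ex]
  · simp only [kv, blk_ex, Matrix.adjugate_one, Matrix.one_mulVec]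
    simp [lam3, ex3]

theorem g3_ex (ix : S → Fin 3 → HH 2 J) (s1 s2 s3 : S) (h1 : ix s1 = ![none, none, ha J])
    (h2 : ix s2 = ![ha J, ha J, ha J]) (h3 : ix s3 = ![hb J, hb J, hb J]) :
    g3 ix (ex3 s1 s2 s3 : E3 J S → ℚ) (pt3 fun _ => 0) ≠ 0 := by
  have hm : ∀ p q r, m3 ix (ex3 s1 s2 s3 : E3 J S → ℚ) (pt3 fun _ => 0) p q r
      = fr3 (ex3 s1 s2 s3 : E3 J S → ℚ) (pt3 fun _ => 0) p none
        * fr3 (ex3 s1 s2 s3 : E3 J S → ℚ) (pt3 fun _ => 0) q none
        * fr3 (ex3 s1 s2 s3 : E3 J S → ℚ) (pt3 fun _ => 0) r (ha J)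
      + (fr3 (ex3 s1 s2 s3 : E3 J S → ℚ) (pt3 fun _ => 0) p (ha J)
        * fr3 (ex3 s1 s2 s3 : E3 J S → ℚ) (pt3 fun _ => 0) q (ha J)
        * fr3 (ex3 s1 s2 s3 : E3 J S → ℚ) (pt3 fun _ => 0) r (ha J)
      + fr3 (ex3 s1 s2 s3 : E3 J S → ℚ) (pt3 fun _ => 0) p (hb J)
        * fr3 (ex3 s1 s2 s3 : E3 J S → ℚ) (pt3 fun _ => 0) q (hb J)
        * fr3 (ex3 s1 s2 s3 : E3 J S → ℚ) (pt3 fun _ => 0) r (hb J)) := by
    intro p q r
    rw [m3, mul3_ex, h1, h2, h3]
    rfl
  have f0n : fr3 (ex3 s1 s2 s3 : E3 J S → ℚ) (pt3 fun _ => 0) 0 none = 1 := rfl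
  have f0a : fr3 (ex3 s1 s2 s3 : E3 J S → ℚ) (pt3 fun _ => 0) 0 (ha J) = 0 := by
    simp [fr3, pt3]
  have f0b : fr3 (ex3 s1 s2 s3 : E3 J S → ℚ) (pt3 fun _ => 0) 0 (hb J) = 0 := by
    simp [fr3, pt3]
  have f1n : fr3 (ex3 s1 s2 s3 : E3 J S → ℚ) (pt3 fun _ => 0) 1 none = 0 := rfl
  have f1a : fr3 (ex3 s1 s2 s3 : E3 J S → ℚ) (pt3 fun _ => 0) 1 (ha J) = 1 := by
    show kv (lam3 (ex3 s1 s2 s3 : E3 J S → ℚ)) (0 : Fin 2) (ha J) = 1
    rw [kv_ex]; simp
  have f1b : fr3 (ex3 s1 s2 s3 : E3 J S → ℚ) (pt3 fun _ => 0) 1 (hb J) = 0 := by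
    show kv (lam3 (ex3 s1 s2 s3 : E3 J S → ℚ)) (0 : Fin 2) (hb J) = 0
    rw [kv_ex]; simp
  have f2n : fr3 (ex3 s1 s2 s3 : E3 J S → ℚ) (pt3 fun _ => 0) 2 none = 0 := rfl
  have f2a : fr3 (ex3 s1 s2 s3 : E3 J S → ℚ) (pt3 fun _ => 0) 2 (ha J) = 0 := by
    show kv (lam3 (ex3 s1 s2 s3 : E3 J S → ℚ)) (1 : Fin 2) (ha J) = 0
    rw [kv_ex]; simp
  have f2b : fr3 (ex3 s1 s2 s3 : E3 J S → ℚ) (pt3 fun _ => 0) 2 (hb J) = 1 := by
    show kv (lam3 (ex3 s1 s2 s3 : E3 J S → ℚ)) (1 : Fin 2) (hb J) = 1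
    rw [kv_ex]; simp
  simp only [g3, cf3, hm, f0n, f0a, f0b, f1n, f1a, f1b, f2n, f2a, f2b, blk_ex, Matrix.det_one]
  simp [dq, disc4]

end Example

omit [Fintype J] [DecidableEq J] [DecidableEq S] in
theorem der_val3 {A : Type} [CommRing A] [Algebra ℚ A] (D : Derivation ℚ A A)
    (ix : S → Fin 3 → HH 2 J) (c : S → A) (hc : ∀ s, D (c s) = 0) (y : HH 2 J → A) :
    D (val ix c y) = mul3 ix c (fun h => D (y h)) y y + mul3 ix c y (fun h => D (y h)) y
      + mul3 ix c y y (fun h => D (y h)) := by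
  simp only [val, mul3, Fin.prod_univ_three, map_sum, Derivation.leibniz, hc, smul_eq_mul,
    ← Finset.sum_add_distrib]
  apply Finset.sum_congr rfl
  intro s _
  ring

/-- General coefficients. -/
theorem exists_cl3 (ix : S → Fin 3 → HH 2 J) (hix : Function.Surjective ix) :
    ∃ Δ : MvPolynomial (E3 J S) ℚ, Δ ≠ 0 ∧ ∀ (F : Type) [Field F] [IsAlgClosed F] [CharZero F]
      (c : E3 J S → F), aeval c Δ ≠ 0 → CL F (sys3 ix c) := by
  obtain ⟨s1, h1⟩ := hix ![none, none, ha J]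
  obtain ⟨s2, h2⟩ := hix ![ha J, ha J, ha J]
  obtain ⟨s3, h3⟩ := hix ![hb J, hb J, hb J]
  let U := MvPolynomial (E3 J S ⊕ Option J) ℚ
  let cU : E3 J S → U := fun e => X (Sum.inl e)
  let yU : HH 2 J → U := pt3 fun i => X (Sum.inr i)
  set c0 : E3 J S → ℚ := ex3 s1 s2 s3 with hc0
  have hev : ∀ {A : Type} [CommRing A] [Algebra ℚ A] (c : E3 J S → A) (k : Option J → A) (i),
      aeval (Sum.elim c k) (eq3 ix cU yU i) = eq3 ix c (pt3 k) i := by
    intro A _ _ c k i
    have := map_eq3 (aeval (Sum.elim c k) : U →ₐ[ℚ] A).toRingHom ix cU yU i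
    refine this.trans ?_
    have e1 : (fun e => (aeval (Sum.elim c k) : U →ₐ[ℚ] A).toRingHom (cU e)) = c := by
      funext e
      exact aeval_X _ _
    have e2 : (fun h => (aeval (Sum.elim c k) : U →ₐ[ℚ] A).toRingHom (yU h)) = pt3 k := by
      funext h
      rw [map_pt3]
      congr 1
      funext i
      exact aeval_X _ _
    rw [e1, e2]
  have hevg : ∀ {A : Type} [CommRing A] [Algebra ℚ A] (c : E3 J S → A) (k : Option J → A),
      aeval (Sum.elim c k) (g3 ix cU yU) = g3 ix c (pt3 k) := by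
    intro A _ _ c k
    have := map_g3 (aeval (Sum.elim c k) : U →ₐ[ℚ] A).toRingHom ix cU yU
    refine this.trans ?_
    have e1 : (fun e => (aeval (Sum.elim c k) : U →ₐ[ℚ] A).toRingHom (cU e)) = c := by
      funext e
      exact aeval_X _ _
    have e2 : (fun h => (aeval (Sum.elim c k) : U →ₐ[ℚ] A).toRingHom (yU h)) = pt3 k := by
      funext h
      rw [map_pt3]
      congr 1
      funext i
      exact aeval_X _ _
    rw [e1, e2]
  have hF : ∀ i, eval (Sum.elim c0 fun _ => (0 : ℚ)) (eq3 ix cU yU i) = 0 := by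
    intro i
    rw [← coe_aeval_eq_eval]
    show aeval _ _ = _
    rw [hev]
    rcases i with _ | j
    · have : eq3 ix c0 (pt3 fun _ => 0) none
          = mul3 ix (fun s => c0 (Sum.inr s)) (pt3 fun _ => 0) (pt3 fun _ => 0)
            (pt3 fun _ => 0) := by
        simp only [eq3, val, mul3, Fin.prod_univ_three]
      rw [this, hc0, mul3_ex, h1, h2, h3]
      simp [pt3]
    · simp only [eq3]
      have : ∀ h, lam3 c0 j h * pt3 (fun _ : Option J => (0 : ℚ)) h = 0 := by
        intro h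
        rcases h with _ | a | j'
        · simp [lam3, hc0, ex3]
        · simp [pt3]
        · simp [pt3]
      simp [this]
  have hG : eval (Sum.elim c0 fun _ => (0 : ℚ)) (g3 ix cU yU) ≠ 0 := by
    rw [← coe_aeval_eq_eval]
    show aeval _ _ ≠ _
    rw [hevg]
    exact g3_ex ix s1 s2 s3 h1 h2 h3
  have hJ : (Matrix.of fun i j => eval (Sum.elim c0 fun _ => (0 : ℚ))
      (pderiv (Sum.inr j) (eq3 ix cU yU i))).det ≠ 0 := by
    have hone : (Matrix.of fun i j => eval (Sum.elim c0 fun _ => (0 : ℚ))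
        (pderiv (Sum.inr j) (eq3 ix cU yU i))) = (1 : Matrix (Option J) (Option J) ℚ) := by
      have hdy : ∀ (j : Option J) (h : HH 2 J), pderiv (Sum.inr j) (yU h)
          = if h = (match j with
            | none => ha J
            | some j' => some (Sum.inr j')) then 1 else 0 := by
        intro j h
        rcases h with _ | a | j'
        · rcases j with _ | j <;> simp [yU, pt3]
        · rcases j with _ | j
          · by_cases h0 : a = 0
            · subst h0
              simp [yU, pt3, pderiv_X]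
            · simp [yU, pt3, h0]
          · by_cases h0 : a = 0
            · subst h0
              simp [yU, pt3, pderiv_X]
            · simp [yU, pt3, h0]
        · rcases j with _ | j
          · simp [yU, pt3, pderiv_X]
          · simp [yU, pt3, pderiv_X, Pi.single_apply]
      have hdc : ∀ (j : Option J) (e : E3 J S), pderiv (Sum.inr j) (cU e) = 0 := by
        intro j e
        simp [cU, pderiv_X]
      have hc0' : ∀ e, eval (Sum.elim c0 fun _ => (0 : ℚ)) (cU e) = c0 e := fun e => by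
        simp [cU]
      have hy0' : ∀ h, eval (Sum.elim c0 fun _ => (0 : ℚ)) (yU h) = pt3 (fun _ => 0) h := by
        intro h
        rw [map_pt3]
        congr 1
        funext i
        simp
      have hdy' : ∀ (j : Option J) (h : HH 2 J), eval (Sum.elim c0 fun _ => (0 : ℚ))
          (pderiv (Sum.inr j) (yU h)) = if h = (match j with
            | none => ha J
            | some j' => some (Sum.inr j')) then 1 else 0 := by
        intro j h
        rw [hdy]
        split_ifs <;> simp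
      ext i j
      rw [Matrix.of_apply]
      rcases i with _ | i
      · simp only [eq3]
        rw [der_val3 _ ix _ (fun s => hdc j _)]
        simp only [mul3, map_add, map_sum, map_mul, hc0', hy0', hdy']
        have e1 : ∀ x y z : HH 2 J → ℚ, ∑ s, c0 (Sum.inr s) * (x (ix s 0) * y (ix s 1)
            * z (ix s 2)) = x none * y none * z (ha J) + (x (ha J) * y (ha J) * z (ha J)
            + x (hb J) * y (hb J) * z (hb J)) := by
          intro x y z
          have := mul3_ex ix s1 s2 s3 x y z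
          rw [h1, h2, h3] at this
          exact this
        rw [e1 (fun h => if h = _ then 1 else 0) (pt3 fun _ => 0) (pt3 fun _ => 0),
          e1 (pt3 fun _ => 0) (fun h => if h = _ then 1 else 0) (pt3 fun _ => 0),
          e1 (pt3 fun _ => 0) (pt3 fun _ => 0) (fun h => if h = _ then 1 else 0)]
        rcases j with _ | j <;> simp [pt3]
      · simp only [eq3, map_sum, Derivation.leibniz, smul_eq_mul]
        have e1 : ∀ h, pderiv (Sum.inr j) (lam3 cU i h) = 0 := fun h => hdc j _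
        have e2 : ∀ h, eval (Sum.elim c0 fun _ => (0 : ℚ)) (lam3 cU i h) = lam3 c0 i h :=
          fun h => hc0' _
        simp only [e1, mul_zero, add_zero, map_mul, e2, hdy']
        rcases j with _ | j
        · simp [lam3, hc0, ex3]
        · simp [lam3, hc0, ex3, Matrix.one_apply, eq_comm]
    rw [hone, Matrix.det_one]
    exact one_ne_zero
  obtain ⟨Δ, hΔ, H⟩ := Helper76.XN.et (fun i => eq3 ix cU yU i) (g3 ix cU yU) c0 (fun _ => 0) hF
    hJ hG
  refine ⟨Δ, hΔ, fun F _ _ _ c hc => ?_⟩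
  obtain ⟨L, _, _, _, _, k, hk1, -, hk3⟩ := H F c hc
  have hbij : Function.Bijective (algebraMap F L) :=
    IsAlgClosed.algebraMap_bijective_of_isIntegral
  choose k' hk' using fun i => hbij.2 (k i)
  have hk1' : ∀ i, eq3 ix c (pt3 k') i = 0 := by
    intro i
    apply hbij.1
    rw [map_zero, map_eq3]
    have := hk1 i
    rw [hev] at this
    rw [← this]
    congr 1
    funext h
    rw [map_pt3]
    simp only [hk']
  have hk3' : g3 ix c (pt3 k') ≠ 0 := by
    intro h0
    apply hk3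
    rw [hevg]
    have := congrArg (algebraMap F L) h0
    rw [map_zero, map_g3] at this
    rw [← this]
    congr 1
    funext h
    rw [map_pt3]
    simp only [hk']
  exact cl3 ix c (pt3 k') rfl hk1' hk3'

end Pool.Agent.Helper15.GM
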