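import Pool.Agent.Helper15.GM.Fib2
import Pool.Agent.Helper15.GM.Fib3b

/-!
# Two quadrics and linear forms: general coefficients
-/

namespace Pool.Agent.Helper15.GM

open IntermediateField MvPolynomial Matrix

variable {J S S' : Type} [Fintype J] [DecidableEq J] [Fintype S] [Fintype S']

section Zero

variable {F : Type} [Field F]

/-- The system. -/
noncomputable def sys2 (ix : S → Fin 2 → HH 3 J) (ix' : S' → Fin 2 → HH 3 J)
    (c : E2 J S S' → F) : Option (Fin 2 ⊕ J) → MvPolynomial (HH 3 J) F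
  | none => X none - 1
  | some i => eq2 ix ix' (fun e => C (c e)) X i

omit [DecidableEq J] in
theorem eval_sys2 {Ω : Type} [Field Ω] (φ : F →+* Ω) (ix : S → Fin 2 → HH 3 J)
    (ix' : S' → Fin 2 → HH 3 J) (c : E2 J S S' → F) (y : HH 3 J → Ω) :
    (∀ i, eval₂ φ y (sys2 ix ix' c i) = 0) ↔
      y none = 1 ∧ ∀ i, eq2 ix ix' (fun e => φ (c e)) y i = 0 := by
  have key : ∀ i, eval₂ φ y (eq2 ix ix' (fun e => C (c e)) X i)
      = eq2 ix ix' (fun e => φ (c e)) y i := by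
    intro i
    have := map_eq2 (eval₂Hom φ y) ix ix' (fun e => C (c e))
      (X : HH 3 J → MvPolynomial (HH 3 J) F) i
    simpa using this
  constructor
  · intro h
    refine ⟨?_, fun i => ?_⟩
    · have := h none
      simp only [sys2, eval₂_sub, eval₂_X, eval₂_one] at this
      exact sub_eq_zero.mp this
    · rw [← key]
      exact h (some i)
  · rintro ⟨h1, h2⟩ i
    rcases i with _ | i
    · simp only [sys2, eval₂_sub, eval₂_X, eval₂_one, h1, sub_self]
    · exact (key i).trans (h2 i)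

/-- The vectors of the frame. -/
def vv (ix : S → Fin 2 → HH 3 J) (ix' : S' → Fin 2 → HH 3 J) (c : E2 J S S' → F)
    (y : HH 3 J → F) : Fin 3 → HH 3 J → F :=
  ![kv (lam2 c) 0, kv (lam2 c) 1, tang ix ix' c y]

/-- The coordinates of a zero in the frame. -/
theorem zero2 {Ω : Type} [Field Ω] [Algebra F Ω] (ix : S → Fin 2 → HH 3 J)
    (ix' : S' → Fin 2 → HH 3 J) (c : E2 J S S' → F)
    (y0 : HH 3 J → F) (h0 : y0 none = 1) (he : ∀ i, eq2 ix ix' c y0 i = 0)
    (hD : (blk (lam2 c)).det ≠ 0)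
    (hκ : cf2 ix ix' c y0 0 * cf2 ix ix' c y0 3 - cf2 ix ix' c y0 1 * cf2 ix ix' c y0 2 ≠ 0)
    (y : HH 3 J → Ω) (h1 : y none = 1)
    (hy : ∀ i, eq2 ix ix' (fun e => algebraMap F Ω (c e)) y i = 0) :
    ∃ u : Fin 3 → Ω, (∀ h, y h = algebraMap F Ω (y0 h)
      + ∑ p, u p * algebraMap F Ω (vv ix ix' c y0 p h)) ∧
      (∀ p, u p ∈ adjoin F (Set.range y)) ∧
      (algebraMap F Ω (cf2 ix ix' c y0 0) * u 0 + algebraMap F Ω (cf2 ix ix' c y0 1) * u 1)
      + (algebraMap F Ω (cf2 ix ix' c y0 4) * u 2 ^ 2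
        + (algebraMap F Ω (cf2 ix ix' c y0 5) * u 0 + algebraMap F Ω (cf2 ix ix' c y0 6) * u 1)
          * u 2
        + (algebraMap F Ω (cf2 ix ix' c y0 7) * u 0 ^ 2
          + algebraMap F Ω (cf2 ix ix' c y0 8) * u 0 * u 1
          + algebraMap F Ω (cf2 ix ix' c y0 9) * u 1 ^ 2)) = 0 ∧
      (algebraMap F Ω (cf2 ix ix' c y0 2) * u 0 + algebraMap F Ω (cf2 ix ix' c y0 3) * u 1)
      + (algebraMap F Ω (cf2 ix ix' c y0 10) * u 2 ^ 2
        + (algebraMap F Ω (cf2 ix ix' c y0 11) * u 0 + algebraMap F Ω (cf2 ix ix' c y0 12) * u 1)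
          * u 2
        + (algebraMap F Ω (cf2 ix ix' c y0 13) * u 0 ^ 2
          + algebraMap F Ω (cf2 ix ix' c y0 14) * u 0 * u 1
          + algebraMap F Ω (cf2 ix ix' c y0 15) * u 1 ^ 2)) = 0 := by
  set φ := algebraMap F Ω with hφ
  set D : Ω := φ (blk (lam2 c)).det with hDdef
  have hD' : D ≠ 0 := by
    rw [hDdef, Ne, map_eq_zero]; exact hD
  set w : HH 3 J → Ω := fun h => y h - φ (y0 h) with hw
  have hw0 : w none = 0 := by
    simp only [hw, h1, h0, map_one, sub_self]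
  have hDb : D = (blk (lam2 fun e => φ (c e))).det := by
    rw [hDdef, RingHom.map_det]
    rfl
  have hwl : ∀ j, ∑ h, lam2 (fun e => φ (c e)) j h * w h = 0 := by
    intro j
    have e1 : ∑ h, lam2 (fun e => φ (c e)) j h * y h = 0 := hy (Sum.inr j)
    have e2 : ∑ h, lam2 c j h * y0 h = 0 := he (Sum.inr j)
    have e3 := congrArg φ e2
    rw [map_zero, map_sum] at e3
    simp only [map_mul] at e3
    simp only [hw, mul_sub, Finset.sum_sub_distrib]
    rw [e1]
    have e4 : ∑ h, lam2 (fun e => φ (c e)) j h * φ (y0 h) = 0 := e3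
    rw [e4, sub_zero]
  have hspan := kv_span (lam2 fun e => φ (c e)) w hw0 hwl
  set s : Fin 3 → Ω := fun p => w (some (Sum.inl p)) / D with hs
  have hws : ∀ h, w h = ∑ p, s p * φ (kv (lam2 c) p h) := by
    intro h
    have e1 := hspan h
    rw [← hDb] at e1
    apply mul_left_cancel₀ hD'
    rw [e1, Finset.mul_sum]
    apply Finset.sum_congr rfl
    intro p _
    rw [map_kv φ]
    simp only [hs]
    field_simp
    rfl
  have hτ2 : tau ix ix' c y0 2
      = cf2 ix ix' c y0 0 * cf2 ix ix' c y0 3 - cf2 ix ix' c y0 1 * cf2 ix ix' c y0 2 := by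
    rfl
  set κ : Ω := φ (tau ix ix' c y0 2) with hκdef
  have hκ' : κ ≠ 0 := by
    rw [hκdef, Ne, map_eq_zero, hτ2]
    exact hκ
  set u : Fin 3 → Ω := ![s 0 - s 2 / κ * φ (tau ix ix' c y0 0),
    s 1 - s 2 / κ * φ (tau ix ix' c y0 1), s 2 / κ] with hu
  have u0 : u 0 = s 0 - s 2 / κ * φ (tau ix ix' c y0 0) := rfl
  have u1 : u 1 = s 1 - s 2 / κ * φ (tau ix ix' c y0 1) := rfl
  have u2 : u 2 = s 2 / κ := rfl
  have hyu : ∀ h, y h = φ (y0 h) + ∑ p, u p * φ (vv ix ix' c y0 p h) := by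
    intro h
    have e2 : w h = ∑ p, u p * φ (vv ix ix' c y0 p h) := by
      rw [hws h, Fin.sum_univ_three, Fin.sum_univ_three]
      have v0 : vv ix ix' c y0 0 h = kv (lam2 c) 0 h := rfl
      have v1 : vv ix ix' c y0 1 h = kv (lam2 c) 1 h := rfl
      have v2 : vv ix ix' c y0 2 h = tau ix ix' c y0 0 * kv (lam2 c) 0 h
        + tau ix ix' c y0 1 * kv (lam2 c) 1 h + tau ix ix' c y0 2 * kv (lam2 c) 2 h := rfl
      rw [v0, v1, v2, u0, u1, u2]
      simp only [map_add, map_mul]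
      rw [← hκdef]
      field_simp
      ring
    rw [← e2]
    simp only [hw]
    ring
  have hsm : ∀ p, s p ∈ adjoin F (Set.range y) := by
    intro p
    have m1 : y (some (Sum.inl p)) ∈ adjoin F (Set.range y) := subset_adjoin _ _ ⟨_, rfl⟩
    exact div_mem (sub_mem m1 (_root_.algebraMap_mem _ _)) (_root_.algebraMap_mem _ _)
  have hyf : y = fun h => ∑ p, (![1, u 0, u 1, u 2] : Fin 4 → Ω) p
      * fr2 ix ix' (fun e => φ (c e)) (fun h => φ (y0 h)) p h := by
    funext h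
    rw [hyu h, Fin.sum_univ_four, Fin.sum_univ_three]
    simp only [← map_fr2 φ]
    have r0 : fr2 ix ix' c y0 0 h = y0 h := rfl
    have r1 : fr2 ix ix' c y0 1 h = vv ix ix' c y0 0 h := rfl
    have r2 : fr2 ix ix' c y0 2 h = vv ix ix' c y0 1 h := rfl
    have r3 : fr2 ix ix' c y0 3 h = vv ix ix' c y0 2 h := rfl
    rw [r0, r1, r2, r3]
    simp only [Matrix.cons_val_zero, Matrix.cons_val_one, Matrix.cons_val]
    ring
  refine ⟨u, hyu, fun p => ?_, ?_, ?_⟩
  · have mκ : κ ∈ adjoin F (Set.range y) := _root_.algebraMap_mem _ _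
    fin_cases p
    · exact sub_mem (hsm 0) (mul_mem (div_mem (hsm 2) mκ) (_root_.algebraMap_mem _ _))
    · exact sub_mem (hsm 1) (mul_mem (div_mem (hsm 2) mκ) (_root_.algebraMap_mem _ _))
    · exact div_mem (hsm 2) mκ
  · have e1 : val ix (fun s => φ (c (Sum.inr (Sum.inl s)))) y = 0 := hy (Sum.inl 0)
    rw [hyf, val2_expand] at e1
    have e3 : ∀ p q, mul2 ix (fun s => φ (c (Sum.inr (Sum.inl s))))
        (fr2 ix ix' (fun e => φ (c e)) (fun h => φ (y0 h)) p)
        (fr2 ix ix' (fun e => φ (c e)) (fun h => φ (y0 h)) q)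
        = φ (p1 ix c (fr2 ix ix' c y0 p) (fr2 ix ix' c y0 q)) := by
      intro p q
      rw [map_p1]
      simp only [map_fr2]
      rfl
    have e4 : φ (p1 ix c (fr2 ix ix' c y0 0) (fr2 ix ix' c y0 0)) = 0 := by
      have h5 : p1 ix c (fr2 ix ix' c y0 0) (fr2 ix ix' c y0 0) = eq2 ix ix' c y0 (Sum.inl 0) := by
        show mul2 _ _ y0 y0 = val _ _ y0
        simp only [mul2, val, Fin.prod_univ_two]
      rw [h5, he, map_zero]
    have e5 : φ (p1 ix c (fr2 ix ix' c y0 0) (fr2 ix ix' c y0 3))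
        + φ (p1 ix c (fr2 ix ix' c y0 3) (fr2 ix ix' c y0 0)) = 0 := by
      rw [← map_add]
      have h5 := tang1 ix ix' c y0
      have h6 : p1 ix c (fr2 ix ix' c y0 0) (fr2 ix ix' c y0 3)
        + p1 ix c (fr2 ix ix' c y0 3) (fr2 ix ix' c y0 0) = 0 := h5
      rw [h6, map_zero]
    simp only [e3, Fin.sum_univ_four] at e1
    simp only [Matrix.cons_val_zero, Matrix.cons_val_one, Matrix.cons_val] at e1
    simp only [cf2]
    simp only [Matrix.cons_val_zero, Matrix.cons_val_one, Matrix.cons_val, map_add]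
    linear_combination e1 - e4 - u 2 * e5
  · have e1 : val ix' (fun s => φ (c (Sum.inr (Sum.inr s)))) y = 0 := hy (Sum.inl 1)
    rw [hyf, val2_expand] at e1
    have e3 : ∀ p q, mul2 ix' (fun s => φ (c (Sum.inr (Sum.inr s))))
        (fr2 ix ix' (fun e => φ (c e)) (fun h => φ (y0 h)) p)
        (fr2 ix ix' (fun e => φ (c e)) (fun h => φ (y0 h)) q)
        = φ (p2 ix' c (fr2 ix ix' c y0 p) (fr2 ix ix' c y0 q)) := by
      intro p q
      rw [map_p2]
      simp only [map_fr2]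
      rfl
    have e4 : φ (p2 ix' c (fr2 ix ix' c y0 0) (fr2 ix ix' c y0 0)) = 0 := by
      have h5 : p2 ix' c (fr2 ix ix' c y0 0) (fr2 ix ix' c y0 0)
          = eq2 ix ix' c y0 (Sum.inl 1) := by
        show mul2 _ _ y0 y0 = val _ _ y0
        simp only [mul2, val, Fin.prod_univ_two]
      rw [h5, he, map_zero]
    have e5 : φ (p2 ix' c (fr2 ix ix' c y0 0) (fr2 ix ix' c y0 3))
        + φ (p2 ix' c (fr2 ix ix' c y0 3) (fr2 ix ix' c y0 0)) = 0 := by
      rw [← map_add]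
      have h5 := tang2 ix ix' c y0
      have h6 : p2 ix' c (fr2 ix ix' c y0 0) (fr2 ix ix' c y0 3)
        + p2 ix' c (fr2 ix ix' c y0 3) (fr2 ix ix' c y0 0) = 0 := h5
      rw [h6, map_zero]
    simp only [e3, Fin.sum_univ_four] at e1
    simp only [Matrix.cons_val_zero, Matrix.cons_val_one, Matrix.cons_val] at e1
    simp only [cf2]
    simp only [Matrix.cons_val, map_add]
    linear_combination e1 - e4 - u 2 * e5

/-- With a suitable point the system defines a curve of genus one. -/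
theorem cl2 [IsAlgClosed F] [CharZero F] (ix : S → Fin 2 → HH 3 J) (ix' : S' → Fin 2 → HH 3 J)
    (c : E2 J S S' → F) (y0 : HH 3 J → F) (h0 : y0 none = 1) (he : ∀ i, eq2 ix ix' c y0 i = 0)
    (hg : g2 ix ix' c y0 ≠ 0) : CL F (sys2 ix ix' c) := by
  have hdq : dq2 (cf2 ix ix' c y0) ≠ 0 := right_ne_zero_of_mul hg
  have hg' := left_ne_zero_of_mul hg
  have hD : (blk (lam2 c)).det ≠ 0 := left_ne_zero_of_mul hg'
  have hκ := right_ne_zero_of_mul hg'
  have key : ∀ (Ω : Type) [Field Ω] [Algebra F Ω] (y : HH 3 J → Ω),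
      (∀ i, eval₂ (algebraMap F Ω) y (sys2 ix ix' c i) = 0) →
      (∃ h, y h ∉ Set.range (algebraMap F Ω)) →
      ∃ u : Fin 3 → Ω, (∀ h, y h = algebraMap F Ω (y0 h)
        + ∑ p, u p * algebraMap F Ω (vv ix ix' c y0 p h)) ∧
        (∀ p, u p ∈ adjoin F (Set.range y)) ∧
        ¬(u 0 ∈ Set.range (algebraMap F Ω) ∧ u 1 ∈ Set.range (algebraMap F Ω) ∧
          u 2 ∈ Set.range (algebraMap F Ω)) ∧
      (algebraMap F Ω (cf2 ix ix' c y0 0) * u 0 + algebraMap F Ω (cf2 ix ix' c y0 1) * u 1)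
      + (algebraMap F Ω (cf2 ix ix' c y0 4) * u 2 ^ 2
        + (algebraMap F Ω (cf2 ix ix' c y0 5) * u 0 + algebraMap F Ω (cf2 ix ix' c y0 6) * u 1)
          * u 2
        + (algebraMap F Ω (cf2 ix ix' c y0 7) * u 0 ^ 2
          + algebraMap F Ω (cf2 ix ix' c y0 8) * u 0 * u 1
          + algebraMap F Ω (cf2 ix ix' c y0 9) * u 1 ^ 2)) = 0 ∧
      (algebraMap F Ω (cf2 ix ix' c y0 2) * u 0 + algebraMap F Ω (cf2 ix ix' c y0 3) * u 1)
      + (algebraMap F Ω (cf2 ix ix' c y0 10) * u 2 ^ 2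
        + (algebraMap F Ω (cf2 ix ix' c y0 11) * u 0 + algebraMap F Ω (cf2 ix ix' c y0 12) * u 1)
          * u 2
        + (algebraMap F Ω (cf2 ix ix' c y0 13) * u 0 ^ 2
          + algebraMap F Ω (cf2 ix ix' c y0 14) * u 0 * u 1
          + algebraMap F Ω (cf2 ix ix' c y0 15) * u 1 ^ 2)) = 0 := by
    intro Ω _ _ y hy hnc
    rw [eval_sys2] at hy
    obtain ⟨u, hu, hu', heq⟩ := zero2 ix ix' c y0 h0 he hD hκ y hy.1 hy.2
    refine ⟨u, hu, hu', ?_, heq⟩
    rintro ⟨⟨a, ha⟩, ⟨b, hb⟩, ⟨d, hd⟩⟩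
    obtain ⟨h, hh⟩ := hnc
    apply hh
    refine ⟨y0 h + (a * vv ix ix' c y0 0 h + b * vv ix ix' c y0 1 h + d * vv ix ix' c y0 2 h), ?_⟩
    rw [hu h, Fin.sum_univ_three, ← ha, ← hb, ← hd]
    simp only [map_add, map_mul]
  intro Ω _ _ y hy hnc
  obtain ⟨u, hu, hu', hn, heq1, heq2⟩ := key Ω y hy hnc
  obtain ⟨f1, f2, f3, f4, f5⟩ := quadrics_facts _ _ _ _ _ _ _ _ _ _ _ _ _ _ _ _ hdq hκ hn heq1
    heq2
  refine ⟨?_, ?_⟩
  · have h1 := ell_quadrics _ _ _ _ _ _ _ _ _ _ _ _ _ _ _ _ hdq hκ hn heq1 heq2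
    rwa [adjoin_range_eq y0 (vv ix ix' c y0) y u hu (adjoin F {u 0, u 1, u 2}) ?_ ?_ hu'] at h1
    · intro p
      fin_cases p
      · exact subset_adjoin _ _ (Or.inl rfl)
      · exact subset_adjoin _ _ (Or.inr (Or.inl rfl))
      · exact subset_adjoin _ _ (Or.inr (Or.inr rfl))
    · rw [adjoin_le_iff]
      rintro z (rfl | rfl | rfl)
      · exact subset_adjoin _ _ ⟨0, rfl⟩
      · exact subset_adjoin _ _ ⟨1, rfl⟩
      · exact subset_adjoin _ _ ⟨2, rfl⟩
  · intro Ω' _ φ y' hy' hnc'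
    let _ : Algebra F Ω' := φ.toAlgebra
    obtain ⟨u', hv, -, hn', heq1', heq2'⟩ := key Ω' y' hy' hnc'
    obtain ⟨f1', f2', f3', f4', f5'⟩ := quadrics_facts _ _ _ _ _ _ _ _ _ _ _ _ _ _ _ _ hdq hκ
      hn' heq1' heq2'
    have hsq := not_isSquare _ _ _ _ _ _ _ _ _ hdq
    set l1 := cf2 ix ix' c y0 0
    set l2 := cf2 ix ix' c y0 1
    set m1 := cf2 ix ix' c y0 2
    set m2 := cf2 ix ix' c y0 3
    set α := cf2 ix ix' c y0 4
    set β := cf2 ix ix' c y0 5
    set γ := cf2 ix ix' c y0 6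
    set δ := cf2 ix ix' c y0 7
    set ε := cf2 ix ix' c y0 8
    set ζ := cf2 ix ix' c y0 9
    set α' := cf2 ix ix' c y0 10
    set β' := cf2 ix ix' c y0 11
    set γ' := cf2 ix ix' c y0 12
    set δ' := cf2 ix ix' c y0 13
    set ε' := cf2 ix ix' c y0 14
    set ζ' := cf2 ix ix' c y0 15
    obtain ⟨ψ, hψ1, hψ2⟩ := exists_model (t := u 1 / u 0) (u := u 2 / u 0) (t' := u' 1 / u' 0)
      (u' := u' 2 / u' 0)
      (Polynomial.C (l1 * α' - m1 * α) + Polynomial.C (l2 * α' - m2 * α) * Polynomial.X)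
      (Polynomial.C (l1 * β' - m1 * β)
        + Polynomial.C (l1 * γ' + l2 * β' - m1 * γ - m2 * β) * Polynomial.X
        + Polynomial.C (l2 * γ' - m2 * γ) * Polynomial.X ^ 2)
      (Polynomial.C (l1 * δ' - m1 * δ)
        + Polynomial.C (l1 * ε' + l2 * δ' - m1 * ε - m2 * δ) * Polynomial.X
        + Polynomial.C (l1 * ζ' + l2 * ε' - m1 * ζ - m2 * ε) * Polynomial.X ^ 2
        + Polynomial.C (l2 * ζ' - m2 * ζ) * Polynomial.X ^ 3)
      (by
        intro h0
        apply hsq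
        rw [h0, mul_zero, zero_mul, sub_zero]
        exact ⟨_, sq _⟩)
      hsq f2 f2' (by
        simp only [map_add, map_mul, map_pow, Polynomial.aeval_C, Polynomial.aeval_X]
        linear_combination f3) (by
        simp only [map_add, map_mul, map_pow, Polynomial.aeval_C, Polynomial.aeval_X]
        linear_combination f3')
    have hψt : ∀ a : F, ψ (algebraMap F _ a) = algebraMap F Ω' a := fun a => ψ.commutes a
    have t0 : u 1 / u 0 ∈ adjoin F {u 1 / u 0, u 2 / u 0} := mem_left _ _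
    have w0 : u 2 / u 0 ∈ adjoin F {u 1 / u 0, u 2 / u 0} := mem_right _ _
    set T : adjoin F {u 1 / u 0, u 2 / u 0} := ⟨u 1 / u 0, t0⟩ with hT
    set W : adjoin F {u 1 / u 0, u 2 / u 0} := ⟨u 2 / u 0, w0⟩ with hW
    let al : F → adjoin F {u 1 / u 0, u 2 / u 0} := algebraMap F _
    set U0 : adjoin F {u 1 / u 0, u 2 / u 0} := -(al l1 + al l2 * T) /
      (al α * W ^ 2 + (al β + al γ * T) * W + (al δ + al ε * T + al ζ * T ^ 2)) with hU0
    have hU0v : (U0 : Ω) = u 0 := by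
      refine Eq.trans ?_ f5.symm
      rw [hU0]
      push_cast
      rfl
    have hU0' : ψ U0 = u' 0 := by
      refine Eq.trans ?_ f5'.symm
      rw [hU0]
      simp only [map_div₀, map_neg, map_add, map_mul, map_pow, al, hψt]
      rw [hψ1, hψ2]
    have e1 : u 1 = (u 1 / u 0) * u 0 := by field_simp
    have e2 : u 2 = (u 2 / u 0) * u 0 := by field_simp
    have e1' : u' 1 = (u' 1 / u' 0) * u' 0 := by field_simp
    have e2' : u' 2 = (u' 2 / u' 0) * u' 0 := by field_simp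
    have mu : ∀ p, u p ∈ adjoin F {u 1 / u 0, u 2 / u 0} := by
      intro p
      have h0 : u 0 ∈ adjoin F {u 1 / u 0, u 2 / u 0} := by
        have h := U0.2
        rwa [hU0v] at h
      fin_cases p
      · exact h0
      · have h := mul_mem t0 h0
        rwa [← e1] at h
      · have h := mul_mem w0 h0
        rwa [← e2] at h
    obtain ⟨χ, h1, h2⟩ := transport y0 (vv ix ix' c y0) y y' u u' hu hv
      (adjoin F {u 1 / u 0, u 2 / u 0}) ψ mu
      (by
        intro p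
        fin_cases p
        · have e : (⟨u 0, mu 0⟩ : adjoin F {u 1 / u 0, u 2 / u 0}) = U0 := Subtype.ext hU0v.symm
          show ψ ⟨u 0, mu 0⟩ = u' 0
          rw [e, hU0']
        · have e : (⟨u 1, mu 1⟩ : adjoin F {u 1 / u 0, u 2 / u 0}) = T * U0 := by
            apply Subtype.ext
            show u 1 = u 1 / u 0 * (U0 : Ω)
            rw [hU0v, ← e1]
          show ψ ⟨u 1, mu 1⟩ = u' 1
          rw [e, map_mul, hU0', hψ1, ← e1']
        · have e : (⟨u 2, mu 2⟩ : adjoin F {u 1 / u 0, u 2 / u 0}) = W * U0 := by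
            apply Subtype.ext
            show u 2 = u 2 / u 0 * (U0 : Ω)
            rw [hU0v, ← e2]
          show ψ ⟨u 2, mu 2⟩ = u' 2
          rw [e, map_mul, hU0', hψ2, ← e2'])
    exact ⟨χ, h1, h2⟩

end Zero

end Pool.Agent.Helper15.GM
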