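import Pool.Agent.Helper15.GM.CL
import Pool.Agent.Helper76.XN.ET

/-!
# Plane cubics and linear forms
-/

namespace Pool.Agent.Helper15.GM

open IntermediateField MvPolynomial Matrix

variable {J S : Type} [Fintype J] [DecidableEq J] [Fintype S] [DecidableEq S]

/-- The homogeneous coordinates. -/
abbrev HH (n : ℕ) (J : Type) := Option (Fin n ⊕ J)

/-- The coefficients. -/
abbrev E3 (J S : Type) := (J × HH 2 J) ⊕ S

section Ring

variable {A : Type*} [CommRing A]

/-- The point. -/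
def pt3 (k : Option J → A) : HH 2 J → A
  | none => 1
  | some (Sum.inl a) => if a = 0 then k none else 0
  | some (Sum.inr j) => k (some j)

omit [Fintype J] [DecidableEq J] in
theorem map_pt3 {B : Type*} [CommRing B] (φ : A →+* B) (k : Option J → A) (h : HH 2 J) :
    φ (pt3 k h) = pt3 (fun i => φ (k i)) h := by
  rcases h with _ | a | j
  · exact map_one φ
  · simp only [pt3]
    split_ifs
    · rfl
    · exact map_zero φ
  · rfl

/-- The linear forms. -/
def lam3 (c : E3 J S → A) : J → HH 2 J → A := fun j h => c (Sum.inl (j, h))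

/-- The equations. -/
def eq3 (ix : S → Fin 3 → HH 2 J) (c : E3 J S → A) (y : HH 2 J → A) : Option J → A
  | none => val ix (fun s => c (Sum.inr s)) y
  | some j => ∑ h, lam3 c j h * y h

omit [DecidableEq J] [DecidableEq S] in
theorem map_eq3 {B : Type*} [CommRing B] (φ : A →+* B) (ix : S → Fin 3 → HH 2 J)
    (c : E3 J S → A) (y : HH 2 J → A) (i : Option J) :
    φ (eq3 ix c y i) = eq3 ix (fun e => φ (c e)) (fun h => φ (y h)) i := by
  rcases i with _ | j
  · exact map_val ix φ _ _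
  · simp only [eq3, map_sum, map_mul]
    rfl

/-- The frame: the point and the two directions. -/
def fr3 (c : E3 J S → A) (y : HH 2 J → A) : Fin 3 → HH 2 J → A :=
  ![y, kv (lam3 c) 0, kv (lam3 c) 1]

/-- The trilinear form on the frame. -/
def m3 (ix : S → Fin 3 → HH 2 J) (c : E3 J S → A) (y : HH 2 J → A) (p q r : Fin 3) : A :=
  mul3 ix (fun s => c (Sum.inr s)) (fr3 c y p) (fr3 c y q) (fr3 c y r)

omit [Fintype S] [DecidableEq S] in
theorem map_fr3 {B : Type*} [CommRing B] (φ : A →+* B) (c : E3 J S → A) (y : HH 2 J → A)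
    (p : Fin 3) (h : HH 2 J) :
    φ (fr3 c y p h) = fr3 (fun e => φ (c e)) (fun h => φ (y h)) p h := by
  fin_cases p
  · rfl
  · exact map_kv φ _ _ _
  · exact map_kv φ _ _ _

omit [DecidableEq S] in
theorem map_m3 {B : Type*} [CommRing B] (φ : A →+* B) (ix : S → Fin 3 → HH 2 J)
    (c : E3 J S → A) (y : HH 2 J → A) (p q r : Fin 3) :
    φ (m3 ix c y p q r) = m3 ix (fun e => φ (c e)) (fun h => φ (y h)) p q r := by
  simp only [m3, mul3, map_sum, map_mul, map_fr3]

/-- The coefficients of the plane cubic. -/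
def cf3 (ix : S → Fin 3 → HH 2 J) (c : E3 J S → A) (y : HH 2 J → A) : Fin 9 → A :=
  let m := m3 ix c y
  ![m 1 1 1, m 1 1 2 + m 1 2 1 + m 2 1 1, m 1 2 2 + m 2 1 2 + m 2 2 1, m 2 2 2,
    m 0 1 1 + m 1 0 1 + m 1 1 0,
    m 0 1 2 + m 0 2 1 + m 1 0 2 + m 2 0 1 + m 1 2 0 + m 2 1 0,
    m 0 2 2 + m 2 0 2 + m 2 2 0,
    m 1 0 0 + m 0 1 0 + m 0 0 1, m 2 0 0 + m 0 2 0 + m 0 0 2]

omit [DecidableEq S] in
theorem map_cf3 {B : Type*} [CommRing B] (φ : A →+* B) (ix : S → Fin 3 → HH 2 J)
    (c : E3 J S → A) (y : HH 2 J → A) (i : Fin 9) :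
    φ (cf3 ix c y i) = cf3 ix (fun e => φ (c e)) (fun h => φ (y h)) i := by
  simp only [cf3, ← map_m3 φ]
  fin_cases i <;> simp [map_add]

/-- The open condition. -/
def g3 (ix : S → Fin 3 → HH 2 J) (c : E3 J S → A) (y : HH 2 J → A) : A :=
  (blk (lam3 c)).det * dq (cf3 ix c y 0) (cf3 ix c y 1) (cf3 ix c y 2) (cf3 ix c y 3)
    (cf3 ix c y 4) (cf3 ix c y 5) (cf3 ix c y 6) (cf3 ix c y 7) (cf3 ix c y 8)

omit [DecidableEq S] in
theorem map_g3 {B : Type*} [CommRing B] (φ : A →+* B) (ix : S → Fin 3 → HH 2 J)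
    (c : E3 J S → A) (y : HH 2 J → A) :
    φ (g3 ix c y) = g3 ix (fun e => φ (c e)) (fun h => φ (y h)) := by
  simp only [g3, map_mul, map_dq, map_cf3, RingHom.map_det]
  rfl

end Ring

/-- Transport of a homomorphism to the field generated by the coordinates. -/
theorem transport {F Ω Ω' H : Type} [Field F] [Field Ω] [Algebra F Ω] [Field Ω'] [Algebra F Ω']
    {n : ℕ} (base : H → F) (v : Fin n → H → F) (y : H → Ω) (y' : H → Ω') (u : Fin n → Ω)
    (u' : Fin n → Ω')
    (hy : ∀ h, y h = algebraMap F Ω (base h) + ∑ p, u p * algebraMap F Ω (v p h))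
    (hy' : ∀ h, y' h = algebraMap F Ω' (base h) + ∑ p, u' p * algebraMap F Ω' (v p h))
    (L : IntermediateField F Ω) (ψ : L →ₐ[F] Ω') (hu : ∀ p, u p ∈ L)
    (hψ : ∀ p, ψ ⟨u p, hu p⟩ = u' p) :
    ∃ χ : adjoin F (Set.range y) →+* Ω', (∀ a : F, χ (algebraMap F _ a) = algebraMap F Ω' a) ∧
      ∀ h, χ ⟨y h, subset_adjoin _ _ ⟨h, rfl⟩⟩ = y' h := by
  have hmem : ∀ h, y h ∈ L := by
    intro h
    rw [hy]
    exact add_mem (_root_.algebraMap_mem _ _) (sum_mem fun p _ => mul_mem (hu p)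
      (_root_.algebraMap_mem _ _))
  have hle : adjoin F (Set.range y) ≤ L := by
    rw [adjoin_le_iff]
    rintro _ ⟨h, rfl⟩
    exact hmem h
  refine ⟨(ψ.comp (IntermediateField.inclusion hle)).toRingHom, fun a => ?_, fun h => ?_⟩
  · exact (ψ.comp (IntermediateField.inclusion hle)).commutes a
  · have h1 : (IntermediateField.inclusion hle ⟨y h, subset_adjoin _ _ ⟨h, rfl⟩⟩ : L)
        = algebraMap F L (base h) + ∑ p, ⟨u p, hu p⟩ * algebraMap F L (v p h) := by
      apply Subtype.ext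
      show y h = _
      rw [hy]
      push_cast
      rfl
    show ψ (IntermediateField.inclusion hle ⟨y h, _⟩) = y' h
    rw [h1, map_add, map_sum, hy']
    simp only [map_mul, hψ, AlgHom.commutes]

theorem adjoin_range_eq {F Ω H : Type} [Field F] [Field Ω] [Algebra F Ω]
    {n : ℕ} (base : H → F) (v : Fin n → H → F) (y : H → Ω) (u : Fin n → Ω)
    (hy : ∀ h, y h = algebraMap F Ω (base h) + ∑ p, u p * algebraMap F Ω (v p h))
    (L : IntermediateField F Ω) (hu : ∀ p, u p ∈ L)
    (hL : L ≤ adjoin F (Set.range u)) (hu' : ∀ p, u p ∈ adjoin F (Set.range y)) :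
    L = adjoin F (Set.range y) := by
  apply le_antisymm
  · refine hL.trans ?_
    rw [adjoin_le_iff]
    rintro _ ⟨p, rfl⟩
    exact hu' p
  · rw [adjoin_le_iff]
    rintro _ ⟨h, rfl⟩
    rw [hy]
    exact add_mem (_root_.algebraMap_mem _ _) (sum_mem fun p _ => mul_mem (hu p)
      (_root_.algebraMap_mem _ _))

section Zero

variable {F : Type} [Field F] [IsAlgClosed F] [CharZero F]

/-- The system. -/
noncomputable def sys3 (ix : S → Fin 3 → HH 2 J) (c : E3 J S → F) :
    Option (Option J) → MvPolynomial (HH 2 J) F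
  | none => X none - 1
  | some i => eq3 ix (fun e => C (c e)) X i

omit [DecidableEq J] [DecidableEq S] [IsAlgClosed F] [CharZero F] in
theorem eval_sys3 {Ω : Type} [Field Ω] (φ : F →+* Ω) (ix : S → Fin 3 → HH 2 J)
    (c : E3 J S → F) (y : HH 2 J → Ω) :
    (∀ i, eval₂ φ y (sys3 ix c i) = 0) ↔ y none = 1 ∧ ∀ i, eq3 ix (fun e => φ (c e)) y i = 0 := by
  have key : ∀ i, eval₂ φ y (eq3 ix (fun e => C (c e)) X i) = eq3 ix (fun e => φ (c e)) y i := by
    intro i
    have := map_eq3 (eval₂Hom φ y) ix (fun e => C (c e)) (X : HH 2 J → MvPolynomial (HH 2 J) F) i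
    simpa using this
  constructor
  · intro h
    refine ⟨?_, fun i => ?_⟩
    · have := h none
      simp only [sys3, eval₂_sub, eval₂_X, eval₂_one] at this
      exact sub_eq_zero.mp this
    · rw [← key]
      exact h (some i)
  · rintro ⟨h1, h2⟩ i
    rcases i with _ | i
    · simp only [sys3, eval₂_sub, eval₂_X, eval₂_one, h1, sub_self]
    · exact (key i).trans (h2 i)

omit [DecidableEq S] [IsAlgClosed F] [CharZero F] in
/-- The coordinates of a zero in the frame. -/
theorem zero3 {Ω : Type} [Field Ω] [Algebra F Ω] (ix : S → Fin 3 → HH 2 J) (c : E3 J S → F)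
    (y0 : HH 2 J → F) (h0 : y0 none = 1) (he : ∀ i, eq3 ix c y0 i = 0)
    (hD : (blk (lam3 c)).det ≠ 0) (y : HH 2 J → Ω) (h1 : y none = 1)
    (hy : ∀ i, eq3 ix (fun e => algebraMap F Ω (c e)) y i = 0) :
    ∃ u : Fin 2 → Ω, (∀ h, y h = algebraMap F Ω (y0 h)
      + ∑ p, u p * algebraMap F Ω (kv (lam3 c) p h)) ∧
      (∀ p, u p ∈ adjoin F (Set.range y)) ∧
      (algebraMap F Ω (cf3 ix c y0 7) * u 0 + algebraMap F Ω (cf3 ix c y0 8) * u 1)
      + (algebraMap F Ω (cf3 ix c y0 4) * u 0 ^ 2 + algebraMap F Ω (cf3 ix c y0 5) * u 0 * u 1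
        + algebraMap F Ω (cf3 ix c y0 6) * u 1 ^ 2)
      + (algebraMap F Ω (cf3 ix c y0 0) * u 0 ^ 3 + algebraMap F Ω (cf3 ix c y0 1) * u 0 ^ 2 * u 1
        + algebraMap F Ω (cf3 ix c y0 2) * u 0 * u 1 ^ 2
        + algebraMap F Ω (cf3 ix c y0 3) * u 1 ^ 3) = 0 := by
  set φ := algebraMap F Ω with hφ
  set D : Ω := φ (blk (lam3 c)).det with hDdef
  have hD' : D ≠ 0 := by
    rw [hDdef, Ne, map_eq_zero]; exact hD
  set w : HH 2 J → Ω := fun h => y h - φ (y0 h) with hw
  have hw0 : w none = 0 := by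
    simp only [hw, h1, h0, map_one, sub_self]
  have hDb : D = (blk (lam3 fun e => φ (c e))).det := by
    rw [hDdef, RingHom.map_det]
    rfl
  have hwl : ∀ j, ∑ h, lam3 (fun e => φ (c e)) j h * w h = 0 := by
    intro j
    have e1 : ∑ h, lam3 (fun e => φ (c e)) j h * y h = 0 := hy (some j)
    have e2 : ∑ h, lam3 c j h * y0 h = 0 := he (some j)
    have e3 := congrArg φ e2
    rw [map_zero, map_sum] at e3
    simp only [map_mul] at e3
    simp only [hw, mul_sub, Finset.sum_sub_distrib]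
    rw [e1]
    have e4 : ∑ h, lam3 (fun e => φ (c e)) j h * φ (y0 h) = 0 := e3
    rw [e4, sub_zero]
  have hspan := kv_span (lam3 fun e => φ (c e)) w hw0 hwl
  set u : Fin 2 → Ω := fun p => w (some (Sum.inl p)) / D with hu
  have hyu : ∀ h, y h = φ (y0 h) + ∑ p, u p * φ (kv (lam3 c) p h) := by
    intro h
    have e1 := hspan h
    rw [← hDb] at e1
    have e2 : w h = ∑ p, u p * φ (kv (lam3 c) p h) := by
      apply mul_left_cancel₀ hD'
      rw [e1, Finset.mul_sum]
      apply Finset.sum_congr rfl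
      intro p _
      rw [map_kv φ]
      simp only [hu]
      field_simp
      rfl
    rw [← e2]
    simp only [hw]
    ring
  refine ⟨u, hyu, fun p => ?_, ?_⟩
  · have m1 : y (some (Sum.inl p)) ∈ adjoin F (Set.range y) := subset_adjoin _ _ ⟨_, rfl⟩
    exact div_mem (sub_mem m1 (_root_.algebraMap_mem _ _)) (_root_.algebraMap_mem _ _)
  · have e1 := hy none
    have e2 : y = fun h => ∑ p, (![1, u 0, u 1] : Fin 3 → Ω) p
        * fr3 (fun e => φ (c e)) (fun h => φ (y0 h)) p h := by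
      funext h
      rw [hyu h, Fin.sum_univ_three, Fin.sum_univ_two]
      simp only [← map_fr3 φ]
      simp [fr3]
      ring
    rw [eq3, e2, val3_expand] at e1
    have e3 : ∀ p q r, mul3 ix (fun s => φ (c (Sum.inr s)))
        (fr3 (fun e => φ (c e)) (fun h => φ (y0 h)) p)
        (fr3 (fun e => φ (c e)) (fun h => φ (y0 h)) q)
        (fr3 (fun e => φ (c e)) (fun h => φ (y0 h)) r) = φ (m3 ix c y0 p q r) := by
      intro p q r
      rw [map_m3]
      rfl
    have e4 : φ (m3 ix c y0 0 0 0) = 0 := by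
      have h5 : m3 ix c y0 0 0 0 = eq3 ix c y0 none := by
        simp only [m3, mul3, eq3, val, Fin.prod_univ_three]
        rfl
      rw [h5, he, map_zero]
    simp only [e3, Fin.sum_univ_three] at e1
    simp only [Matrix.cons_val_zero, Matrix.cons_val_one, Matrix.cons_val] at e1
    simp only [cf3]
    simp only [Matrix.cons_val_zero, Matrix.cons_val_one, Matrix.cons_val, map_add]
    linear_combination e1 - e4

end Zero

end Pool.Agent.Helper15.GM
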