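import Pool.Agent.Helper15.GM.Ctr

/-!
# The fibre over the other factors is a curve of genus one
-/

namespace Pool.Agent.Helper15.GM

open IntermediateField MvPolynomial Pool.Agent.Helper47.M

theorem CL.of_equiv {F : Type} [Field F] {H H' ι ι' : Type} {P : ι → MvPolynomial H F}
    (hP : CL F P) (P' : ι' → MvPolynomial H' F) (e : H ≃ H')
    (h : ∀ (Ω : Type) [Field Ω] (φ : F →+* Ω) (y : H' → Ω), (∀ i, eval₂ φ y (P' i) = 0) →
      ∀ i, eval₂ φ (fun s => y (e s)) (P i) = 0) : CL F P' := by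
  intro Ω _ _ y hy hnc
  have hr : Set.range (fun s => y (e s)) = Set.range y := e.surjective.range_comp y
  have hnc1 : ∃ s, y (e s) ∉ Set.range (algebraMap F Ω) := by
    obtain ⟨s, hs⟩ := hnc
    exact ⟨e.symm s, by rwa [e.apply_symm_apply]⟩
  obtain ⟨h1, h2⟩ := hP Ω (fun s => y (e s)) (h Ω (algebraMap F Ω) y hy) hnc1
  have hle : adjoin F (Set.range y) ≤ adjoin F (Set.range fun s => y (e s)) := by
    rw [hr]
  refine ⟨by rwa [hr] at h1, ?_⟩
  intro Ω' _ φ y' hy' hnc'
  have hnc1' : ∃ s, y' (e s) ∉ Set.range φ := by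
    obtain ⟨s, hs⟩ := hnc'
    exact ⟨e.symm s, by rwa [e.apply_symm_apply]⟩
  obtain ⟨ψ, hψ, hψy⟩ := h2 Ω' φ (fun s => y' (e s)) (h Ω' φ y' hy') hnc1'
  refine ⟨ψ.comp (IntermediateField.inclusion hle).toRingHom, fun a => ?_, fun s => ?_⟩
  · rw [← hψ a]
    show ψ (IntermediateField.inclusion hle (algebraMap F _ a)) = _
    rw [AlgHom.commutes]
  · have h3 := hψy (e.symm s)
    simp only [e.apply_symm_apply] at h3
    rw [← h3]
    rfl

variable {k l : ℕ} {N : Fin k → ℕ} {d : Fin l → Fin k → ℕ}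

/-- The system of the fibre. -/
noncomputable def sysM {F : Type} [Field F] (c : Tx N d → F) (x : Pt N F) (r : Fin k) :
    Option (Fin l) → MvPolynomial (Fin (N r + 1)) F
  | none => X 0 - 1
  | some i => ∑ w, C (ctr r (fun m => c ⟨i, m⟩) x w) * ∏ t, X (w t)

theorem eval_sysM {F Ω : Type} [Field F] [Field Ω] (φ : F →+* Ω) (c : Tx N d → F) (x : Pt N F)
    (r : Fin k) (y : Fin (N r + 1) → Ω) : (∀ i, eval₂ φ y (sysM c x r i) = 0) ↔
      y 0 = 1 ∧ ∀ i, ∑ w, φ (ctr r (fun m => c ⟨i, m⟩) x w) * ∏ t, y (w t) = 0 := by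
  have key : ∀ i, eval₂ φ y (sysM c x r (some i))
      = ∑ w, φ (ctr r (fun m => c ⟨i, m⟩) x w) * ∏ t, y (w t) := by
    intro i
    simp only [sysM]
    rw [← coe_eval₂Hom]
    simp only [map_sum, map_mul, map_prod, coe_eval₂Hom, eval₂_C, eval₂_X]
  constructor
  · intro h
    refine ⟨?_, fun i => ?_⟩
    · have := h none
      simp only [sysM, eval₂_sub, eval₂_X, eval₂_one] at this
      exact sub_eq_zero.mp this
    · rw [← key]
      exact h (some i)
  · rintro ⟨h1, h2⟩ i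
    rcases i with _ | i
    · simp only [sysM, eval₂_sub, eval₂_X, eval₂_one, h1, sub_self]
    · exact (key i).trans (h2 i)

theorem exists_equiv_zero {H : Type} [Fintype H] {n : ℕ} (h : Fintype.card H = n + 1) (a : H) :
    ∃ e : H ≃ Fin (n + 1), e a = 0 := by
  classical
  let e : H ≃ Fin (n + 1) := Fintype.equivFinOfCardEq h
  exact ⟨e.trans (Equiv.swap (e a) 0), by simp⟩

theorem sum_one {A : Type} [CommRing A] {n m : ℕ} (h : m = 1) (b : (Fin m → Fin n) → A)
    (y : Fin n → A) : ∑ w, b w * ∏ t, y (w t) = ∑ i, b (fun _ => i) * y i := by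
  subst h
  rw [← (Equiv.funUnique (Fin 1) (Fin n)).symm.sum_comp]
  apply Finset.sum_congr rfl
  intro i _
  simp only [Fin.prod_univ_one]
  rfl

/-- The two types. -/
theorem types (h : Ty N d) (r : Fin k) (hr : N r = l + 1) :
    (∃ i0, d i0 r = 3 ∧ ∀ i, i ≠ i0 → d i r = 1) ∨
    (∃ i1 i2, i1 ≠ i2 ∧ d i1 r = 2 ∧ d i2 r = 2 ∧ ∀ i, i ≠ i1 → i ≠ i2 → d i r = 1) := by
  classical
  have hs : ∑ i, (d i r - 1) = 2 := by
    have h1 : ∑ i, (d i r - 1) + ∑ _i : Fin l, 1 = ∑ i, d i r := by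
      rw [← Finset.sum_add_distrib]
      apply Finset.sum_congr rfl
      intro i _
      have := h.pos i r
      omega
    rw [h.sum r, hr, Finset.sum_const, Finset.card_univ, Fintype.card_fin] at h1
    simp only [smul_eq_mul, mul_one] at h1
    omega
  have h1 : ∃ i1, 1 ≤ d i1 r - 1 := by
    by_contra hcon
    push Not at hcon
    have h2 : ∑ i, (d i r - 1) = 0 := Finset.sum_eq_zero fun i _ => by
      have := hcon i
      omega
    omega
  obtain ⟨i1, hi1⟩ := h1
  have h2 := Finset.add_sum_erase Finset.univ (fun i => d i r - 1) (Finset.mem_univ i1)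
  rw [hs] at h2
  by_cases h3 : d i1 r = 3
  · left
    refine ⟨i1, h3, fun i hi => ?_⟩
    have h4 : ∑ i ∈ Finset.univ.erase i1, (d i r - 1) = 0 := by omega
    rw [Finset.sum_eq_zero_iff] at h4
    have h5 := h4 i (Finset.mem_erase.mpr ⟨hi, Finset.mem_univ i⟩)
    have := h.pos i r
    omega
  · right
    have h4 : d i1 r = 2 := by omega
    have h5 : ∑ i ∈ Finset.univ.erase i1, (d i r - 1) = 1 := by omega
    have h6 : ∃ i2 ∈ Finset.univ.erase i1, 1 ≤ d i2 r - 1 := by
      by_contra hcon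
      push Not at hcon
      have h7 : ∑ i ∈ Finset.univ.erase i1, (d i r - 1) = 0 := Finset.sum_eq_zero fun i hi => by
        have := hcon i hi
        omega
      omega
    obtain ⟨i2, hi2, h7⟩ := h6
    have h8 := Finset.add_sum_erase (Finset.univ.erase i1) (fun i => d i r - 1) hi2
    rw [h5] at h8
    refine ⟨i1, i2, (Finset.ne_of_mem_erase hi2).symm, h4, by omega, fun i hi hi' => ?_⟩
    have h9 : ∑ i ∈ (Finset.univ.erase i1).erase i2, (d i r - 1) = 0 := by omega
    rw [Finset.sum_eq_zero_iff] at h9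
    have h10 := h9 i (Finset.mem_erase.mpr ⟨hi', Finset.mem_erase.mpr ⟨hi, Finset.mem_univ i⟩⟩)
    have := h.pos i r
    omega

/-- The fibre, type `(3, 1, ..)`. -/
theorem fibre3 (r : Fin k) (hr : N r = l + 1) (i0 : Fin l) (h3 : d i0 r = 3)
    (h1 : ∀ i, i ≠ i0 → d i r = 1) :
    ∃ Δ : MvPolynomial (Tx N d) ℚ, Δ ≠ 0 ∧ ∀ (K : Type) [Field K] [CharZero K]
      (c : Tx N d → K), aeval c Δ ≠ 0 → ∀ (F : Type) [Field F] [IsAlgClosed F] [CharZero F]
      (φ : K →+* F) (x : Pt N F), (∀ j, j ≠ r → x j 0 = 1) →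
      (∀ Ψ : MvPolynomial {q : Vr N // q.1 ≠ r} K,
        eval₂ φ (fun q => x q.1.1 q.1.2.succ) Ψ = 0 → Ψ = 0) →
      CL F (sysM (fun m => φ (c m)) x r) := by
  classical
  let J := {i : Fin l // i ≠ i0}
  let S := Fin (d i0 r) → Fin (N r + 1)
  have hcard : Fintype.card (HH 2 J) = N r + 1 := by
    have e1 : Fintype.card J = l - 1 := by
      rw [Fintype.card_subtype_compl]
      simp
    have e2 : 1 ≤ l := i0.pos
    rw [Fintype.card_option, Fintype.card_sum, Fintype.card_fin, e1, hr]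
    omega
  obtain ⟨eH, heH⟩ := exists_equiv_zero hcard none
  let ix : S → Fin 3 → HH 2 J := fun s t => eH.symm (s (Fin.cast h3.symm t))
  have hix : Function.Surjective ix := by
    intro w
    refine ⟨fun t => eH (w (Fin.cast h3 t)), ?_⟩
    funext t
    simp [ix]
  obtain ⟨Δ, hΔ, H⟩ := exists_cl3 ix hix
  let ρ : E3 J S → Σ i : Fin l, (Fin (d i r) → Fin (N r + 1)) := fun s => match s with
    | Sum.inl (j, h) => ⟨j.1, fun _ => eH h⟩
    | Sum.inr s => ⟨i0, s⟩
  have hρ : Function.Injective ρ := by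
    rintro (⟨j, h⟩ | s) (⟨j', h'⟩ | s') heq
    · have e1 : j.1 = j'.1 := congrArg Sigma.fst heq
      have e2 : j = j' := Subtype.ext e1
      subst e2
      have e3 := eq_of_heq (Sigma.mk.inj heq).2
      have e4 := congrFun e3 ⟨0, by rw [h1 j.1 j.2]; exact one_pos⟩
      rw [eH.injective e4]
    · exact absurd (congrArg Sigma.fst heq) j.2
    · exact absurd (congrArg Sigma.fst heq).symm j'.2
    · have e3 := eq_of_heq (Sigma.mk.inj heq).2
      rw [e3]
  obtain ⟨Δ', hΔ', H'⟩ := exists_general r ρ hρ Δ hΔ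
  refine ⟨Δ', hΔ', fun K _ _ c hc F _ _ _ φ x hx hind => ?_⟩
  have hcl := H F _ (H' K c hc F φ x hx hind)
  refine hcl.of_equiv _ eH fun Ω _ χ y hy => ?_
  rw [eval_sysM] at hy
  rw [eval_sys3]
  refine ⟨by rw [heH]; exact hy.1, ?_⟩
  intro i
  rcases i with _ | j
  · rw [← hy.2 i0]
    simp only [eq3, val]
    apply Finset.sum_congr rfl
    intro s _
    congr 1
    have e1 : ∀ t : Fin 3, y (eH (ix s t)) = y (s (Fin.cast h3.symm t)) := by
      intro t
      simp [ix]
    rw [Finset.prod_congr rfl fun t _ => e1 t]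
    exact Fintype.prod_equiv (finCongr h3.symm) _ _ fun t => rfl
  · rw [← hy.2 j.1, sum_one (h1 j.1 j.2)]
    simp only [eq3]
    exact Fintype.sum_equiv eH _ _ fun h => rfl

/-- The fibre, type `(2, 2, 1, ..)`. -/
theorem fibre2 (r : Fin k) (hr : N r = l + 1) (i1 i2 : Fin l) (h12 : i1 ≠ i2) (hi1 : d i1 r = 2)
    (hi2 : d i2 r = 2) (h1 : ∀ i, i ≠ i1 → i ≠ i2 → d i r = 1) :
    ∃ Δ : MvPolynomial (Tx N d) ℚ, Δ ≠ 0 ∧ ∀ (K : Type) [Field K] [CharZero K]
      (c : Tx N d → K), aeval c Δ ≠ 0 → ∀ (F : Type) [Field F] [IsAlgClosed F] [CharZero F]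
      (φ : K →+* F) (x : Pt N F), (∀ j, j ≠ r → x j 0 = 1) →
      (∀ Ψ : MvPolynomial {q : Vr N // q.1 ≠ r} K,
        eval₂ φ (fun q => x q.1.1 q.1.2.succ) Ψ = 0 → Ψ = 0) →
      CL F (sysM (fun m => φ (c m)) x r) := by
  classical
  let J := {i : Fin l // ¬ (i = i1 ∨ i = i2)}
  let S := Fin (d i1 r) → Fin (N r + 1)
  let S' := Fin (d i2 r) → Fin (N r + 1)
  have hcard : Fintype.card (HH 3 J) = N r + 1 := by
    have e1 : Fintype.card J = l - 2 := by
      rw [Fintype.card_subtype_compl, Fintype.card_fin]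
      congr 1
      rw [Fintype.card_subtype]
      have : (Finset.univ.filter fun i => i = i1 ∨ i = i2) = {i1, i2} := by
        ext i
        simp
      rw [this, Finset.card_pair h12]
    have e2 : 2 ≤ l := by
      have := i1.2
      have := i2.2
      have h5 : i1.1 ≠ i2.1 := fun h => h12 (Fin.ext h)
      omega
    rw [Fintype.card_option, Fintype.card_sum, Fintype.card_fin, e1, hr]
    omega
  obtain ⟨eH, heH⟩ := exists_equiv_zero hcard none
  let ix : S → Fin 2 → HH 3 J := fun s t => eH.symm (s (Fin.cast hi1.symm t))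
  have hix : Function.Surjective ix := by
    intro w
    refine ⟨fun t => eH (w (Fin.cast hi1 t)), ?_⟩
    funext t
    simp [ix]
  let ix' : S' → Fin 2 → HH 3 J := fun s t => eH.symm (s (Fin.cast hi2.symm t))
  have hix' : Function.Surjective ix' := by
    intro w
    refine ⟨fun t => eH (w (Fin.cast hi2 t)), ?_⟩
    funext t
    simp [ix']
  obtain ⟨Δ, hΔ, H⟩ := exists_cl2 ix hix ix' hix'
  let ρ : E2 J S S' → Σ i : Fin l, (Fin (d i r) → Fin (N r + 1)) := fun s => match s with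
    | Sum.inl (j, h) => ⟨j.1, fun _ => eH h⟩
    | Sum.inr (Sum.inl s) => ⟨i1, s⟩
    | Sum.inr (Sum.inr s) => ⟨i2, s⟩
  have hj1 : ∀ j : J, j.1 ≠ i1 := fun j h => j.2 (Or.inl h)
  have hj2 : ∀ j : J, j.1 ≠ i2 := fun j h => j.2 (Or.inr h)
  have hρ : Function.Injective ρ := by
    rintro (⟨j, h⟩ | s | s) (⟨j', h'⟩ | s' | s') heq
    · have e1 : j.1 = j'.1 := congrArg Sigma.fst heq
      have e2 : j = j' := Subtype.ext e1
      subst e2
      have e3 := eq_of_heq (Sigma.mk.inj heq).2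
      have e4 := congrFun e3 ⟨0, by rw [h1 j.1 (hj1 j) (hj2 j)]; exact one_pos⟩
      rw [eH.injective e4]
    · exact absurd (congrArg Sigma.fst heq) (hj1 j)
    · exact absurd (congrArg Sigma.fst heq) (hj2 j)
    · exact absurd (congrArg Sigma.fst heq).symm (hj1 j')
    · have e3 := eq_of_heq (Sigma.mk.inj heq).2
      rw [e3]
    · exact absurd (congrArg Sigma.fst heq) h12
    · exact absurd (congrArg Sigma.fst heq).symm (hj2 j')
    · exact absurd (congrArg Sigma.fst heq).symm h12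
    · have e3 := eq_of_heq (Sigma.mk.inj heq).2
      rw [e3]
  obtain ⟨Δ', hΔ', H'⟩ := exists_general r ρ hρ Δ hΔ
  refine ⟨Δ', hΔ', fun K _ _ c hc F _ _ _ φ x hx hind => ?_⟩
  have hcl := H F _ (H' K c hc F φ x hx hind)
  refine hcl.of_equiv _ eH fun Ω _ χ y hy => ?_
  rw [eval_sysM] at hy
  rw [eval_sys2]
  refine ⟨by rw [heH]; exact hy.1, ?_⟩
  intro i
  rcases i with a | j
  · fin_cases a
    · show val ix (fun e : S => χ (cc r ρ (fun m => φ (c m)) x (Sum.inr (Sum.inl e))))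
        (fun s => y (eH s)) = 0
      rw [← hy.2 i1]
      simp only [val]
      apply Finset.sum_congr rfl
      intro s _
      congr 1
      have e1 : ∀ t : Fin 2, y (eH (ix s t)) = y (s (Fin.cast hi1.symm t)) := by
        intro t
        simp [ix]
      rw [Finset.prod_congr rfl fun t _ => e1 t]
      exact Fintype.prod_equiv (finCongr hi1.symm) _ _ fun t => rfl
    · show val ix' (fun e : S' => χ (cc r ρ (fun m => φ (c m)) x (Sum.inr (Sum.inr e))))
        (fun s => y (eH s)) = 0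
      rw [← hy.2 i2]
      simp only [val]
      apply Finset.sum_congr rfl
      intro s _
      congr 1
      have e1 : ∀ t : Fin 2, y (eH (ix' s t)) = y (s (Fin.cast hi2.symm t)) := by
        intro t
        simp [ix']
      rw [Finset.prod_congr rfl fun t _ => e1 t]
      exact Fintype.prod_equiv (finCongr hi2.symm) _ _ fun t => rfl
  · rw [← hy.2 j.1, sum_one (h1 j.1 (hj1 j) (hj2 j))]
    simp only [eq2]
    exact Fintype.sum_equiv eH _ _ fun h => rfl

/-- The fibre over the other factors is a curve of genus one. -/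
theorem fibre (h : Ty N d) (r : Fin k) (hr : N r = l + 1) :
    ∃ Δ : MvPolynomial (Tx N d) ℚ, Δ ≠ 0 ∧ ∀ (K : Type) [Field K] [CharZero K]
      (c : Tx N d → K), aeval c Δ ≠ 0 → ∀ (F : Type) [Field F] [IsAlgClosed F] [CharZero F]
      (φ : K →+* F) (x : Pt N F), (∀ j, j ≠ r → x j 0 = 1) →
      (∀ Ψ : MvPolynomial {q : Vr N // q.1 ≠ r} K,
        eval₂ φ (fun q => x q.1.1 q.1.2.succ) Ψ = 0 → Ψ = 0) →
      CL F (sysM (fun m => φ (c m)) x r) := by
  rcases types h r hr with ⟨i0, h3, h1⟩ | ⟨i1, i2, h12, hi1, hi2, h1⟩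
  · exact fibre3 r hr i0 h3 h1
  · exact fibre2 r hr i1 i2 h12 hi1 hi2 h1

end Pool.Agent.Helper15.GM
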