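import Pool.Agent.Helper15.GM.Fibre

/-!
# Block H of Theorem M: curves of genus one
-/

namespace Pool.Agent.Helper15.GM

open IntermediateField MvPolynomial Pool.Agent.Helper47.M Pool.Agent.Helper15

variable {k l : ℕ} {N : Fin k → ℕ} {d : Fin l → Fin k → ℕ}

theorem map_sysM {F Ω : Type} [Field F] [Field Ω] (χ : F →+* Ω) (c : Tx N d → F) (x : Pt N F)
    (r : Fin k) (i : Option (Fin l)) : MvPolynomial.map χ (sysM c x r i)
      = sysM (fun m => χ (c m)) (fun j i => χ (x j i)) r i := by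
  rcases i with _ | i
  · simp [sysM]
  · simp only [sysM, map_sum, map_mul, map_prod, MvPolynomial.map_C, MvPolynomial.map_X,
      map_ctr χ]

section Point

variable {K E : Type} [Field K] [Field E] [Algebra K E] {x : Pt N E} {r : Fin k}

theorem mem_bf (x : Pt N E) (r j : Fin k) (hj : j ≠ r) (i : Fin (N j + 1)) :
    x j i ∈ Bf K x {r} :=
  subset_adjoin _ _ ⟨j, hj, i, rfl⟩

open Classical in
/-- The coordinates outside of `r` as elements of the base field. -/
noncomputable def xb (K : Type) {E : Type} [Field K] [Field E] [Algebra K E] (x : Pt N E)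
    (r : Fin k) : Pt N (Bf K x {r}) :=
  fun j i => if h : j ≠ r then ⟨x j i, mem_bf x r j h i⟩ else 0

theorem xb_val (j : Fin k) (hj : j ≠ r) (i : Fin (N j + 1)) :
    algebraMap (Bf K x {r}) E (xb K x r j i) = x j i := by
  simp [xb, hj]

theorem xb_one (h1 : ∀ j, x j 0 = 1) (j : Fin k) (hj : j ≠ r) : xb K x r j 0 = 1 := by
  apply Subtype.ext
  show algebraMap (Bf K x {r}) E (xb K x r j 0) = 1
  rw [xb_val j hj, h1]

/-- The zero condition for the factor `r`. -/
theorem zero_of_fm {Ω : Type} [Field Ω] (c : Tx N d → K) (x : Pt N E)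
    (hx : ∀ i, Fm (fun e => algebraMap K E (c e)) x i = 0) (h1 : ∀ j, x j 0 = 1)
    {F : Type} [Field F] (ω : F →+* Ω) (ε : E →+* Ω) (cF : Tx N d → F) (xF : Pt N F)
    (hc : ∀ m, ω (cF m) = ε (algebraMap K E (c m)))
    (hxF : ∀ j, j ≠ r → ∀ i, ω (xF j i) = ε (x j i)) :
    ∀ i, eval₂ ω (fun e => ε (x r e)) (sysM cF xF r i) = 0 := by
  rw [eval_sysM]
  refine ⟨by rw [h1, map_one], fun i => ?_⟩
  have h2 := hx i
  rw [Fm, fv_eq r] at h2
  have h3 := congrArg ε h2
  rw [map_zero, map_sum] at h3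
  rw [← h3]
  apply Finset.sum_congr rfl
  intro w _
  rw [map_mul, map_prod, map_ctr ω, map_ctr ε]
  congr 1
  simp only [hc]
  apply ctr_congr
  intro j hj
  funext i
  exact hxF j hj i

theorem hind_of (hi : AlgebraicIndependent K fun q : {q : Vr N // q.1 ≠ r} => x q.1.1 q.1.2.succ)
    {F : Type} [Field F] (β : Bf K x {r} →+* F) (Ψ : MvPolynomial {q : Vr N // q.1 ≠ r} K)
    (h : eval₂ (β.comp (algebraMap K (Bf K x {r}))) (fun q => β (xb K x r q.1.1 q.1.2.succ)) Ψ
      = 0) : Ψ = 0 := by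
  have h1 : β (aeval (fun q : {q : Vr N // q.1 ≠ r} => xb K x r q.1.1 q.1.2.succ) Ψ) = 0 := by
    rw [aeval_def, eval₂_comp_left]
    exact h
  rw [map_eq_zero] at h1
  have h2 := congrArg (algebraMap (Bf K x {r}) E) h1
  rw [map_zero, aeval_def, eval₂_comp_left] at h2
  apply hi.eq_zero_of_aeval_eq_zero
  rw [aeval_def, ← h2]
  congr 1
  funext q
  exact (xb_val q.1.1 q.2 _).symm

/-- A constant multiple of the extension is not constant. -/
theorem notMem_range {Ω : Type} [Field Ω] (ε : E →+* Ω) {B F : Type} [Field B] [Field F]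
    [Algebra B F] [Algebra.IsAlgebraic B F] (ω : F →+* Ω) (β : B →+* Bf K x {r})
    (hω : ∀ b, ω (algebraMap B F b) = ε (algebraMap (Bf K x {r}) E (β b)))
    (e : Fin (N r + 1)) (he : Transcendental (Bf K x {r}) (x r e)) :
    ε (x r e) ∉ Set.range ω := by
  rintro ⟨z, hz⟩
  obtain ⟨p, hp, hpz⟩ := Algebra.IsAlgebraic.isAlgebraic (R := B) z
  apply he
  refine ⟨p.map β, (Polynomial.map_ne_zero_iff β.injective).mpr hp, ?_⟩
  apply ε.injective
  rw [map_zero, Polynomial.aeval_def, Polynomial.eval₂_map, Polynomial.hom_eval₂, ← hz]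
  have h1 : ε.comp ((algebraMap (Bf K x {r}) E).comp β) = ω.comp (algebraMap B F) := by
    ext b
    exact (hω b).symm
  rw [h1, ← Polynomial.hom_eval₂, ← Polynomial.aeval_def, hpz, map_zero]

end Point

theorem adjoin_xr_top {K E : Type} [Field K] [Field E] [Algebra K E] (x : Pt N E)
    (hx : Bf K x ∅ = ⊤) (r : Fin k) : adjoin (Bf K x {r}) (Set.range (x r)) = ⊤ := by
  rw [eq_top_iff]
  intro z _
  have h1 : z ∈ Bf K x ∅ := by
    rw [hx]
    trivial
  have h2 : ∀ z, z ∈ Bf K x ∅ → z ∈ adjoin (Bf K x {r}) (Set.range (x r)) := by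
    intro z hz
    induction hz using IntermediateField.adjoin_induction with
    | mem z hz =>
      obtain ⟨j, -, i, rfl⟩ := hz
      by_cases hj : j = r
      · subst hj
        exact subset_adjoin _ _ ⟨i, rfl⟩
      · exact (adjoin (Bf K x {r}) (Set.range (x r))).algebraMap_mem ⟨x j i, mem_bf x r j hj i⟩
    | algebraMap a =>
      exact (adjoin (Bf K x {r}) (Set.range (x r))).algebraMap_mem (algebraMap K (Bf K x {r}) a)
    | add z w _ _ h1 h2 => exact add_mem h1 h2
    | mul z w _ _ h1 h2 => exact mul_mem h1 h2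
    | inv z _ h1 => exact inv_mem h1
  exact h2 z h1

/-- Genus one for one factor. -/
theorem genus_of_CL {K E : Type} [Field K] [CharZero K] [Field E] [Algebra K E] (c : Tx N d → K)
    (x : Pt N E) (hx : FullPt K c x) (r : Fin k) (hr : N r = l + 1)
    (hcl : CL (algebraicClosure (Bf K x {r}) (AlgebraicClosure E))
      (sysM (fun m => algebraMap (Bf K x {r}) _ (algebraMap K (Bf K x {r}) (c m)))
        (fun j i => algebraMap (Bf K x {r}) _ (xb K x r j i)) r)) :
    IsGenusOne (Bf K x {r}) := by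
  refine isGenusOne_of_CL (Bf K x {r}) (sysM (fun m => algebraMap K (Bf K x {r}) (c m))
    (xb K x r) r) ?_ (x r) ?_ (hx.tr r hr) ?_
  · simp only [map_sysM]
    exact hcl
  · exact zero_of_fm c x hx.eq hx.one (algebraMap (Bf K x {r}) E) (RingHom.id E) _ _
      (fun m => rfl) (fun j hj i => xb_val j hj i)
  · exact adjoin_xr_top x hx.top r

theorem exists_genus (h : Ty N d) :
    ∃ Δ : MvPolynomial (Tx N d) ℚ, Δ ≠ 0 ∧ ∀ (K : Type) [Field K] [CharZero K] (c : Tx N d → K),
      aeval c Δ ≠ 0 → ∀ (E : Type) [Field E] [Algebra K E] (x : Pt N E), FullPt K c x →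
        ∀ r, N r = l + 1 → IsGenusOne (Bf K x {r}) := by
  classical
  have hr : ∀ r : Fin k, ∃ Δ : MvPolynomial (Tx N d) ℚ, Δ ≠ 0 ∧ (N r = l + 1 →
      ∀ (K : Type) [Field K] [CharZero K]
      (c : Tx N d → K), aeval c Δ ≠ 0 → ∀ (F : Type) [Field F] [IsAlgClosed F] [CharZero F]
      (φ : K →+* F) (x : Pt N F), (∀ j, j ≠ r → x j 0 = 1) →
      (∀ Ψ : MvPolynomial {q : Vr N // q.1 ≠ r} K,
        eval₂ φ (fun q => x q.1.1 q.1.2.succ) Ψ = 0 → Ψ = 0) →
      CL F (sysM (fun m => φ (c m)) x r)) := by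
    intro r
    by_cases hr : N r = l + 1
    · obtain ⟨Δ, h1, h2⟩ := fibre h r hr
      exact ⟨Δ, h1, fun _ => h2⟩
    · exact ⟨1, one_ne_zero, fun h => absurd h hr⟩
  choose Δ hΔ H using hr
  refine ⟨∏ r, Δ r, Finset.prod_ne_zero_iff.mpr fun r _ => hΔ r, ?_⟩
  intro K _ _ c hc E _ _ x hx r hr
  have hc' : aeval c (Δ r) ≠ 0 := by
    rw [map_prod] at hc
    exact Finset.prod_ne_zero_iff.mp hc r (Finset.mem_univ r)
  have hcz : CharZero (Bf K x {r}) :=
    charZero_of_injective_algebraMap (algebraMap K (Bf K x {r})).injective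
  have hcz' : CharZero (algebraicClosure (Bf K x {r}) (AlgebraicClosure E)) :=
    charZero_of_injective_algebraMap (algebraMap (Bf K x {r}) _).injective
  have hac : IsAlgClosed (algebraicClosure (Bf K x {r}) (AlgebraicClosure E)) :=
    IsAlgClosure.isAlgClosed (Bf K x {r})
  apply genus_of_CL c x hx r hr
  refine H r hr K c hc' _ ((algebraMap (Bf K x {r}) _).comp (algebraMap K (Bf K x {r}))) _ ?_ ?_
  · intro j hj
    rw [xb_one hx.one j hj, map_one]
  · exact hind_of (hx.ind r) (algebraMap (Bf K x {r}) _)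

end Pool.Agent.Helper15.GM
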