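import Pool.Agent.Helper15.GM.Uniq

/-!
# The kernel of a system of linear forms, forms as sums over index sets
-/

namespace Pool.Agent.Helper15.GM

open Matrix

section Ker

variable {J κ : Type*} [Fintype J] [DecidableEq J] [Fintype κ] [DecidableEq κ]

/-- The square block of the linear forms. -/
def blk {A : Type*} (Λ : J → Option (κ ⊕ J) → A) : Matrix J J A :=
  Matrix.of fun j j' => Λ j (some (Sum.inr j'))

/-- The vectors that span the kernel of the linear forms. -/
def kv {A : Type*} [CommRing A] (Λ : J → Option (κ ⊕ J) → A) (k : κ) : Option (κ ⊕ J) → A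
  | none => 0
  | some (Sum.inl k') => if k' = k then (blk Λ).det else 0
  | some (Sum.inr j) => -((blk Λ).adjugate *ᵥ fun j' => Λ j' (some (Sum.inl k))) j

theorem map_kv {A B : Type*} [CommRing A] [CommRing B] (φ : A →+* B)
    (Λ : J → Option (κ ⊕ J) → A) (k : κ) (h : Option (κ ⊕ J)) :
    φ (kv Λ k h) = kv (fun j h => φ (Λ j h)) k h := by
  have hb : blk (fun j h => φ (Λ j h)) = φ.mapMatrix (blk Λ) := rfl
  rcases h with _ | k' | j
  · exact map_zero φ
  · simp only [kv]
    rw [hb, ← RingHom.map_det]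
    split_ifs
    · rfl
    · exact map_zero φ
  · simp only [kv]
    rw [hb, ← RingHom.map_adjugate, map_neg]
    congr 1
    simp only [Matrix.mulVec, dotProduct, map_sum, map_mul]
    rfl

theorem sum_opt {A : Type*} [CommRing A] (f : Option (κ ⊕ J) → A) :
    ∑ h, f h = f none + (∑ k, f (some (Sum.inl k)) + ∑ j, f (some (Sum.inr j))) := by
  rw [Fintype.sum_option, Fintype.sum_sum_type]

theorem kv_ker {A : Type*} [CommRing A] (Λ : J → Option (κ ⊕ J) → A) (k : κ) (j : J) :
    ∑ h, Λ j h * kv Λ k h = 0 := by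
  rw [sum_opt]
  simp only [kv, mul_zero, zero_add, mul_ite, Finset.sum_ite_eq', Finset.mem_univ, if_true,
    mul_neg, Finset.sum_neg_distrib]
  have h1 : ∑ x, Λ j (some (Sum.inr x)) * ((blk Λ).adjugate *ᵥ
      fun j' => Λ j' (some (Sum.inl k))) x
      = (blk Λ *ᵥ ((blk Λ).adjugate *ᵥ fun j' => Λ j' (some (Sum.inl k)))) j := rfl
  rw [h1, mulVec_mulVec, mul_adjugate, smul_mulVec, one_mulVec]
  simp only [Pi.smul_apply, smul_eq_mul]
  ring

/-- A vector of the kernel with vanishing first coordinate is a combination of the `kv`. -/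
theorem kv_span {A : Type*} [CommRing A] (Λ : J → Option (κ ⊕ J) → A)
    (w : Option (κ ⊕ J) → A) (h0 : w none = 0) (hw : ∀ j, ∑ h, Λ j h * w h = 0)
    (h : Option (κ ⊕ J)) : (blk Λ).det * w h = ∑ k, w (some (Sum.inl k)) * kv Λ k h := by
  rcases h with _ | k' | j
  · simp [kv, h0]
  · simp only [kv, mul_ite, mul_zero, Finset.sum_ite_eq, Finset.mem_univ, if_true]
    ring
  · have h1 : blk Λ *ᵥ (fun j => w (some (Sum.inr j)))
        = -fun j => ∑ k, Λ j (some (Sum.inl k)) * w (some (Sum.inl k)) := by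
      funext j
      have h2 := hw j
      rw [sum_opt, h0, mul_zero, zero_add] at h2
      show ∑ j', Λ j (some (Sum.inr j')) * w (some (Sum.inr j')) = -∑ k, _
      linear_combination h2
    have h3 : (blk Λ).adjugate *ᵥ (blk Λ *ᵥ (fun j => w (some (Sum.inr j))))
        = (blk Λ).adjugate *ᵥ (-fun j => ∑ k, Λ j (some (Sum.inl k)) * w (some (Sum.inl k))) := by
      rw [h1]
    rw [mulVec_mulVec, adjugate_mul, smul_mulVec, one_mulVec] at h3
    have h4 := congrFun h3 j
    simp only [Pi.smul_apply, smul_eq_mul] at h4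
    rw [h4]
    simp only [kv, mulVec, dotProduct, Pi.neg_apply, mul_neg, Finset.sum_neg_distrib,
      Finset.mul_sum]
    rw [Finset.sum_comm]
    congr 1
    apply Finset.sum_congr rfl
    intro k _
    apply Finset.sum_congr rfl
    intro j' _
    ring

end Ker

section Val

variable {H S : Type*} [Fintype S] {d : ℕ}

/-- A form of degree `d`: the sum of the monomials `b s * ∏ y (ix s i)`. -/
def val (ix : S → Fin d → H) {A : Type*} [CommRing A] (b : S → A) (y : H → A) : A :=
  ∑ s, b s * ∏ i, y (ix s i)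

theorem map_val (ix : S → Fin d → H) {A B : Type*} [CommRing A] [CommRing B] (φ : A →+* B)
    (b : S → A) (y : H → A) :
    φ (val ix b y) = val ix (fun s => φ (b s)) (fun h => φ (y h)) := by
  simp only [val, map_sum, map_mul, map_prod]

/-- The multilinear form. -/
def mul3 (ix : S → Fin 3 → H) {A : Type*} [CommRing A] (b : S → A) (x y z : H → A) : A :=
  ∑ s, b s * (x (ix s 0) * y (ix s 1) * z (ix s 2))

/-- The bilinear form. -/
def mul2 (ix : S → Fin 2 → H) {A : Type*} [CommRing A] (b : S → A) (x y : H → A) : A :=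
  ∑ s, b s * (x (ix s 0) * y (ix s 1))

theorem val3_expand (ix : S → Fin 3 → H) {A : Type*} [CommRing A] (b : S → A) {n : ℕ}
    (x : Fin n → A) (e : Fin n → H → A) :
    val ix b (fun h => ∑ p, x p * e p h)
      = ∑ p, ∑ q, ∑ r, x p * x q * x r * mul3 ix b (e p) (e q) (e r) := by
  simp only [val, Fin.prod_univ_three, mul3, Finset.mul_sum, Finset.sum_mul]
  have h1 : ∀ s : S, ∀ r q p : Fin n, b s * (x p * e p (ix s 0) * (x q * e q (ix s 1))
      * (x r * e r (ix s 2)))
      = x p * x q * x r * (b s * (e p (ix s 0) * e q (ix s 1) * e r (ix s 2))) := by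
    intro s r q p
    ring
  simp only [h1]
  rw [Finset.sum_comm]
  conv_lhs =>
    enter [2, r]
    rw [Finset.sum_comm]
  conv_lhs =>
    enter [2, r, 2, q]
    rw [Finset.sum_comm]
  rw [Finset.sum_comm]
  conv_lhs =>
    enter [2, q]
    rw [Finset.sum_comm]
  rw [Finset.sum_comm]

theorem val2_expand (ix : S → Fin 2 → H) {A : Type*} [CommRing A] (b : S → A) {n : ℕ}
    (x : Fin n → A) (e : Fin n → H → A) :
    val ix b (fun h => ∑ p, x p * e p h)
      = ∑ p, ∑ q, x p * x q * mul2 ix b (e p) (e q) := by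
  simp only [val, Fin.prod_univ_two, mul2, Finset.mul_sum, Finset.sum_mul]
  have h1 : ∀ s : S, ∀ q p : Fin n, b s * (x p * e p (ix s 0) * (x q * e q (ix s 1)))
      = x p * x q * (b s * (e p (ix s 0) * e q (ix s 1))) := by
    intro s q p
    ring
  simp only [h1]
  rw [Finset.sum_comm]
  conv_lhs =>
    enter [2, q]
    rw [Finset.sum_comm]
  rw [Finset.sum_comm]

end Val

end Pool.Agent.Helper15.GM
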