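import Pool.Agent.Helper15.GM.Cubic

/-!
# Two generic points of the same double cover of the line are conjugate
-/

namespace Pool.Agent.Helper15.GM

open Polynomial IntermediateField

section Ev

variable {F Ω : Type*} [Field F] [Field Ω] [Algebra F Ω]

/-- Evaluation of a polynomial in two variables. -/
noncomputable def ev (F : Type*) {Ω : Type*} [Field F] [Field Ω] [Algebra F Ω] (t u : Ω) :
    F[X][X] →ₐ[F] Ω :=
  { eval₂RingHom ((aeval t : F[X] →ₐ[F] Ω) : F[X] →+* Ω) u with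
    commutes' := fun r => by
      have h : algebraMap F F[X][X] r = C (C r) := rfl
      simp [h] }

theorem ev_C (t u : Ω) (p : F[X]) : ev F t u (C p) = aeval t p := by
  show eval₂ _ _ _ = _
  rw [eval₂_C]
  rfl

theorem ev_X (t u : Ω) : ev F t u X = u := by
  show eval₂ _ _ _ = _
  rw [eval₂_X]

/-- Pseudo-division by a quadratic polynomial. -/
theorem exists_red (A2 A1 A0 : F[X]) (p : F[X][X]) : ∃ (k : ℕ) (r : F[X][X]) (c1 c0 : F[X]),
    C A2 ^ k * p = (C A2 * X ^ 2 + C A1 * X + C A0) * r + C c1 * X + C c0 := by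
  induction p using Polynomial.induction_on with
  | C a => exact ⟨0, 0, 0, a, by simp⟩
  | add p q hp hq =>
    obtain ⟨k, r, c1, c0, h⟩ := hp
    obtain ⟨k', r', c1', c0', h'⟩ := hq
    refine ⟨k + k', C A2 ^ k' * r + C A2 ^ k * r', A2 ^ k' * c1 + A2 ^ k * c1',
      A2 ^ k' * c0 + A2 ^ k * c0', ?_⟩
    simp only [map_add, map_mul, map_pow]
    rw [pow_add]
    linear_combination C A2 ^ k' * h + C A2 ^ k * h'
  | monomial n a hp =>
    obtain ⟨k, r, c1, c0, h⟩ := hp
    refine ⟨k + 1, C A2 * X * r + C c1, A2 * c0 - c1 * A1, -(c1 * A0), ?_⟩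
    simp only [map_sub, map_neg, map_mul]
    rw [pow_succ, pow_succ X n]
    linear_combination C A2 * X * h

end Ev

variable {F Ω Ω' : Type*} [Field F] [Field Ω] [Algebra F Ω] [Field Ω'] [Algebra F Ω']

theorem aeval_inj {t : Ω} (ht : Transcendental F t) (p : F[X]) (h : aeval t p = 0) : p = 0 := by
  by_contra hp
  exact ht ⟨p, hp, h⟩

/-- A polynomial relation at one generic point holds at every other. -/
theorem ev_transfer {t u : Ω} {t' u' : Ω'} (A2 A1 A0 : F[X])
    (hA2 : A2 ≠ 0) (hsq : ¬ IsSquare (A1 ^ 2 - 4 * A2 * A0))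
    (ht : Transcendental F t) (ht' : Transcendental F t')
    (hu : aeval t A2 * u ^ 2 + aeval t A1 * u + aeval t A0 = 0)
    (hu' : aeval t' A2 * u' ^ 2 + aeval t' A1 * u' + aeval t' A0 = 0)
    (p : F[X][X]) (hp : ev F t u p = 0) : ev F t' u' p = 0 := by
  obtain ⟨k, r, c1, c0, h⟩ := exists_red A2 A1 A0 p
  have e1 := congrArg (ev F t u) h
  simp only [map_mul, map_add, map_pow, ev_C, ev_X, hp, mul_zero, hu, zero_mul, zero_add] at e1
  have hc1 : c1 = 0 := by
    by_contra hc
    have e2 : aeval t ((A1 * c1 - 2 * A2 * c0) ^ 2 - c1 ^ 2 * (A1 ^ 2 - 4 * A2 * A0)) = 0 := by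
      simp only [map_sub, map_mul, map_pow, map_ofNat]
      linear_combination (4 * aeval t A2 * (aeval t c1) ^ 2) * hu
        + (4 * aeval t A2 * (aeval t A2 * (aeval t c1 * u - aeval t c0)
          + aeval t A1 * aeval t c1)) * e1
    have e3 := aeval_inj ht _ e2
    have e4 : c1 ^ 2 ∣ (A1 * c1 - 2 * A2 * c0) ^ 2 := ⟨_, sub_eq_zero.mp e3⟩
    rw [UniqueFactorizationMonoid.pow_dvd_pow_iff_dvd (by norm_num)] at e4
    obtain ⟨s, hs⟩ := e4
    apply hsq
    refine ⟨s, ?_⟩
    apply mul_left_cancel₀ (pow_ne_zero 2 hc)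
    rw [hs] at e3
    linear_combination -e3
  rw [hc1, map_zero, zero_mul, zero_add] at e1
  have hc0 := aeval_inj ht _ e1.symm
  have e5 := congrArg (ev F t' u') h
  simp only [map_mul, map_add, map_pow, ev_C, ev_X, hu', zero_mul, zero_add, hc1, hc0,
    map_zero] at e5
  have e6 : aeval t' A2 ≠ 0 := fun h => hA2 (aeval_inj ht' _ h)
  exact (mul_eq_zero.mp e5).resolve_left (pow_ne_zero k e6)

/-- A common model of the two fields. -/
theorem exists_model {t u : Ω} {t' u' : Ω'} (A2 A1 A0 : F[X])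
    (hA2 : A2 ≠ 0) (hsq : ¬ IsSquare (A1 ^ 2 - 4 * A2 * A0))
    (ht : Transcendental F t) (ht' : Transcendental F t')
    (hu : aeval t A2 * u ^ 2 + aeval t A1 * u + aeval t A0 = 0)
    (hu' : aeval t' A2 * u' ^ 2 + aeval t' A1 * u' + aeval t' A0 = 0) :
    ∃ (ψ : adjoin F {t, u} →ₐ[F] Ω'), ψ ⟨t, mem_left _ _⟩ = t' ∧ ψ ⟨u, mem_right _ _⟩ = u' := by
  obtain ⟨R, _, _, _, mk, hmk, hker⟩ : ∃ (R : Type _) (_ : CommRing R) (_ : IsDomain R)
      (_ : Algebra F R) (mk : F[X][X] →ₐ[F] R), Function.Surjective mk ∧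
      RingHom.ker mk = RingHom.ker (ev F t u) := by
    have hp : (RingHom.ker (ev F t u)).IsPrime := RingHom.ker_isPrime _
    exact ⟨F[X][X] ⧸ RingHom.ker (ev F t u), inferInstance, Ideal.Quotient.isDomain _,
      inferInstance, Ideal.Quotient.mkₐ F _, Ideal.Quotient.mkₐ_surjective F _,
      Ideal.Quotient.mkₐ_ker F _⟩
  have hker' : ∀ p, mk p = 0 ↔ ev F t u p = 0 := fun p => by
    rw [← RingHom.mem_ker, hker, RingHom.mem_ker]
  let f : R →ₐ[F] Ω := AlgHom.liftOfSurjective mk hmk (ev F t u) (le_of_eq hker)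
  let g : R →ₐ[F] Ω' := AlgHom.liftOfSurjective mk hmk (ev F t' u') (fun p hp =>
    ev_transfer A2 A1 A0 hA2 hsq ht ht' hu hu' p ((hker' p).mp hp))
  have hfm : ∀ p, f (mk p) = ev F t u p := AlgHom.liftOfSurjective_apply mk hmk _ _
  have hgm : ∀ p, g (mk p) = ev F t' u' p := AlgHom.liftOfSurjective_apply mk hmk _ _
  have hf : Function.Injective f := by
    rw [injective_iff_map_eq_zero]
    intro a ha
    obtain ⟨p, rfl⟩ := hmk a
    rw [hfm] at ha
    exact (hker' p).mpr ha
  have hg : Function.Injective g := by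
    rw [injective_iff_map_eq_zero]
    intro a ha
    obtain ⟨p, rfl⟩ := hmk a
    rw [hgm] at ha
    exact (hker' p).mpr (ev_transfer A2 A1 A0 hA2 hsq ht' ht hu' hu p ha)
  let ι : FractionRing R →ₐ[F] Ω := IsFractionRing.liftAlgHom hf
  let ι' : FractionRing R →ₐ[F] Ω' := IsFractionRing.liftAlgHom hg
  have hι : ∀ p : F[X][X], ι (algebraMap R (FractionRing R) (mk p)) = ev F t u p := fun p =>
    (IsFractionRing.lift_algebraMap hf _).trans (hfm p)
  have hι' : ∀ p : F[X][X], ι' (algebraMap R (FractionRing R) (mk p)) = ev F t' u' p :=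
    fun p => (IsFractionRing.lift_algebraMap hg _).trans (hgm p)
  have hle : adjoin F {t, u} ≤ ι.fieldRange := by
    rw [adjoin_le_iff]
    rintro z (rfl | rfl)
    · exact ⟨_, (hι (C X)).trans (by rw [ev_C, aeval_X])⟩
    · exact ⟨_, (hι X).trans (by rw [ev_X])⟩
  let e := AlgEquiv.ofInjectiveField ι
  refine ⟨(ι'.comp e.symm.toAlgHom).comp (IntermediateField.inclusion hle), ?_, ?_⟩
  · have h1 : e (algebraMap R (FractionRing R) (mk (C X)))
        = IntermediateField.inclusion hle ⟨t, mem_left _ _⟩ := by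
      apply Subtype.ext
      show ι _ = t
      rw [hι, ev_C, aeval_X]
    show ι' (e.symm (IntermediateField.inclusion hle ⟨t, mem_left _ _⟩)) = t'
    rw [← h1, e.symm_apply_apply, hι', ev_C, aeval_X]
  · have h1 : e (algebraMap R (FractionRing R) (mk X))
        = IntermediateField.inclusion hle ⟨u, mem_right _ _⟩ := by
      apply Subtype.ext
      show ι _ = u
      rw [hι, ev_X]
    show ι' (e.symm (IntermediateField.inclusion hle ⟨u, mem_right _ _⟩)) = u'
    rw [← h1, e.symm_apply_apply, hι', ev_X]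

end Pool.Agent.Helper15.GM
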