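import Pool.Agent.Helper15.GM.Genus

/-!
# All generic points of the chart are conjugate
-/

namespace Pool.Agent.Helper15.GM

open IntermediateField MvPolynomial Pool.Agent.Helper47.M Pool.Agent.Helper15

variable {k l : ℕ} {N : Fin k → ℕ} {d : Fin l → Fin k → ℕ}

/-- The base field is generated by the affine coordinates. -/
theorem bf_eq {K E : Type} [Field K] [Field E] [Algebra K E] (x : Pt N E) (r : Fin k)
    (h1 : ∀ j, x j 0 = 1) : Bf K x {r}
      = adjoin K (Set.range fun q : {q : Vr N // q.1 ≠ r} => x q.1.1 q.1.2.succ) := by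
  apply le_antisymm
  · rw [Bf, adjoin_le_iff]
    rintro _ ⟨j, hj, i, rfl⟩
    refine Fin.cases ?_ (fun i' => ?_) i
    · rw [h1]
      exact one_mem _
    · exact subset_adjoin _ _ ⟨⟨⟨j, i'⟩, hj⟩, rfl⟩
  · rw [adjoin_le_iff]
    rintro _ ⟨q, rfl⟩
    exact mem_bf x r q.1.1 q.2 _

/-- The isomorphism of the base fields of two points. -/
theorem exists_theta {K E E' : Type} [Field K] [Field E] [Algebra K E] [Field E'] [Algebra K E']
    (x : Pt N E) (x' : Pt N E') (r : Fin k) (h1 : ∀ j, x j 0 = 1) (h1' : ∀ j, x' j 0 = 1)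
    (hi : AlgebraicIndependent K fun q : {q : Vr N // q.1 ≠ r} => x q.1.1 q.1.2.succ)
    (hi' : AlgebraicIndependent K fun q : {q : Vr N // q.1 ≠ r} => x' q.1.1 q.1.2.succ) :
    ∃ θ : Bf K x {r} →ₐ[K] Bf K x' {r},
      ∀ j, j ≠ r → ∀ i, θ (xb K x r j i) = xb K x' r j i := by
  have e1 := bf_eq (K := K) x r h1
  have e2 := bf_eq (K := K) x' r h1'
  let θ : Bf K x {r} →ₐ[K] Bf K x' {r} :=
    ((IntermediateField.equivOfEq e2.symm).toAlgHom.comp
      (hi'.aevalEquivField.toAlgHom.comp hi.aevalEquivField.symm.toAlgHom)).comp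
        (IntermediateField.equivOfEq e1).toAlgHom
  refine ⟨θ, fun j hj i => ?_⟩
  refine Fin.cases ?_ (fun i' => ?_) i
  · rw [xb_one h1 j hj, xb_one h1' j hj, map_one]
  · have h3 : hi.aevalEquivField (algebraMap (MvPolynomial {q : Vr N // q.1 ≠ r} K) _ (X ⟨⟨j, i'⟩, hj⟩))
        = IntermediateField.equivOfEq e1 (xb K x r j i'.succ) := by
      apply Subtype.ext
      rw [hi.aevalEquivField_algebraMap_apply_coe, aeval_X]
      exact (xb_val j hj _).symm
    have h4 : hi.aevalEquivField.symm (IntermediateField.equivOfEq e1 (xb K x r j i'.succ))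
        = algebraMap (MvPolynomial {q : Vr N // q.1 ≠ r} K) _ (X ⟨⟨j, i'⟩, hj⟩) := by
      rw [← h3, AlgEquiv.symm_apply_apply]
    apply Subtype.ext
    have h5 : algebraMap (Bf K x' {r}) E' (θ (xb K x r j i'.succ))
        = algebraMap (adjoin K (Set.range fun q : {q : Vr N // q.1 ≠ r} => x' q.1.1 q.1.2.succ)) E'
          (hi'.aevalEquivField (hi.aevalEquivField.symm (IntermediateField.equivOfEq e1
            (xb K x r j i'.succ)))) := rfl
    show algebraMap (Bf K x' {r}) E' (θ (xb K x r j i'.succ))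
      = algebraMap (Bf K x' {r}) E' (xb K x' r j i'.succ)
    rw [h5, h4, xb_val j hj]
    refine (hi'.aevalEquivField_algebraMap_apply_coe _).trans ?_
    rw [aeval_X]

theorem unique_aux {K E E' F Ω Ω' : Type} [Field K] [Field E] [Algebra K E] [Field E']
    [Algebra K E'] [Field F] [Field Ω] [Algebra F Ω] [Field Ω'] (c : Tx N d → K) (r : Fin k)
    (x : Pt N E) (x' : Pt N E')
    (hx : ∀ i, Fm (fun e => algebraMap K E (c e)) x i = 0)
    (hx' : ∀ i, Fm (fun e => algebraMap K E' (c e)) x' i = 0)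
    (h1 : ∀ j, x j 0 = 1) (h1' : ∀ j, x' j 0 = 1)
    (φ : K →+* F) (xF : Pt N F) (hcl : CL F (sysM (fun m => φ (c m)) xF r))
    (ε : E →+* Ω) (ε' : E' →+* Ω') (ω : F →+* Ω')
    (hc : ∀ a, algebraMap F Ω (φ a) = ε (algebraMap K E a))
    (hc' : ∀ a, ω (φ a) = ε' (algebraMap K E' a))
    (hF : ∀ j, j ≠ r → ∀ i, algebraMap F Ω (xF j i) = ε (x j i))
    (hF' : ∀ j, j ≠ r → ∀ i, ω (xF j i) = ε' (x' j i))
    (n1 : ∃ e, ε (x r e) ∉ Set.range (algebraMap F Ω))
    (n2 : ∃ e, ε' (x' r e) ∉ Set.range ω)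
    (G : MvPolynomial (Vr N) K) (hG : aeval (fun v => x v.1 v.2.succ) G = 0) :
    aeval (fun v => x' v.1 v.2.succ) G = 0 := by
  have z1 := zero_of_fm c x hx h1 (algebraMap F Ω) ε (fun m => φ (c m)) xF
    (fun m => hc _) hF
  have z2 := zero_of_fm c x' hx' h1' ω ε' (fun m => φ (c m)) xF (fun m => hc' _) hF'
  obtain ⟨-, h2⟩ := hcl Ω (fun e => ε (x r e)) z1 n1
  obtain ⟨ψ, hψ, hψy⟩ := h2 Ω' ω (fun e => ε' (x' r e)) z2 n2
  classical
  let L := adjoin F (Set.range fun e => ε (x r e))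
  let xL : Vr N → L := fun v => if h : v.1 = r then
    (⟨ε (x r (h ▸ v.2.succ)), subset_adjoin _ _ ⟨_, rfl⟩⟩ : L) else
      algebraMap F L (xF v.1 v.2.succ)
  let κ : K →+* L := (algebraMap F L).comp φ
  have e1 : L.val.toRingHom (eval₂ κ xL G) = ε (aeval (fun v => x v.1 v.2.succ) G) := by
    rw [eval₂_comp_left, aeval_def, eval₂_comp_left]
    have h3 : L.val.toRingHom.comp κ = ε.comp (algebraMap K E) := by
      ext a
      exact hc a
    have h4 : L.val.toRingHom ∘ xL = ε ∘ fun v : Vr N => x v.1 v.2.succ := by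
      funext v
      obtain ⟨j, i⟩ := v
      by_cases hj : j = r
      · subst hj
        show L.val.toRingHom (xL ⟨j, i⟩) = _
        simp only [xL, dif_pos]
        rfl
      · show L.val.toRingHom (xL ⟨j, i⟩) = _
        simp only [xL, hj, dif_neg, not_false_iff]
        exact hF j hj _
    rw [h3, h4]
  have e2 : ψ (eval₂ κ xL G) = ε' (aeval (fun v => x' v.1 v.2.succ) G) := by
    rw [eval₂_comp_left, aeval_def, eval₂_comp_left]
    have h3 : ψ.comp κ = ε'.comp (algebraMap K E') := by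
      ext a
      show ψ (algebraMap F L (φ a)) = _
      rw [hψ, hc']
      rfl
    have h4 : ψ ∘ xL = ε' ∘ fun v : Vr N => x' v.1 v.2.succ := by
      funext v
      obtain ⟨j, i⟩ := v
      by_cases hj : j = r
      · subst hj
        simp only [Function.comp_apply, xL, dif_pos]
        exact hψy _
      · simp only [Function.comp_apply, xL, hj, dif_neg, not_false_iff]
        rw [hψ, hF' j hj]
    rw [h3, h4]
  rw [hG, map_zero] at e1
  have e3 : eval₂ κ xL G = 0 := by
    apply L.val.injective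
    rw [map_zero]
    exact e1
  rw [e3, map_zero] at e2
  rw [← map_eq_zero ε']
  exact e2.symm

theorem unique_of_CL {K E E' : Type} [Field K] [CharZero K] [Field E] [Algebra K E] [Field E']
    [Algebra K E'] (c : Tx N d → K) (r : Fin k) (x : Pt N E) (x' : Pt N E')
    (hx : ∀ i, Fm (fun e => algebraMap K E (c e)) x i = 0)
    (hx' : ∀ i, Fm (fun e => algebraMap K E' (c e)) x' i = 0)
    (h1 : ∀ j, x j 0 = 1) (h1' : ∀ j, x' j 0 = 1)
    (hi : AlgebraicIndependent K fun q : {q : Vr N // q.1 ≠ r} => x q.1.1 q.1.2.succ)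
    (hi' : AlgebraicIndependent K fun q : {q : Vr N // q.1 ≠ r} => x' q.1.1 q.1.2.succ)
    (ht : ∃ e, Transcendental (Bf K x {r}) (x r e))
    (ht' : ∃ e, Transcendental (Bf K x' {r}) (x' r e))
    (hcl : CL (algebraicClosure (Bf K x {r}) (AlgebraicClosure E))
      (sysM (fun m => ((algebraMap (Bf K x {r}) _).comp (algebraMap K (Bf K x {r}))) (c m))
        (fun j i => algebraMap (Bf K x {r}) _ (xb K x r j i)) r))
    (G : MvPolynomial (Vr N) K) (hG : aeval (fun v => x v.1 v.2.succ) G = 0) :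
    aeval (fun v => x' v.1 v.2.succ) G = 0 := by
  obtain ⟨θ, hθ⟩ := exists_theta x x' r h1 h1' hi hi'
  -- the homomorphism of the closures
  obtain ⟨ω, hω⟩ : ∃ ω : algebraicClosure (Bf K x {r}) (AlgebraicClosure E) →+*
      AlgebraicClosure E', ∀ b, ω (algebraMap (Bf K x {r}) _ b)
        = algebraMap E' (AlgebraicClosure E') (algebraMap (Bf K x' {r}) E' (θ b)) := by
    let β : Bf K x {r} →+* AlgebraicClosure E' :=
      ((algebraMap E' (AlgebraicClosure E')).comp (algebraMap (Bf K x' {r}) E')).comp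
        (θ : Bf K x {r} →+* Bf K x' {r})
    let _ : Algebra (Bf K x {r}) (AlgebraicClosure E') := β.toAlgebra
    let ω : algebraicClosure (Bf K x {r}) (AlgebraicClosure E) →ₐ[Bf K x {r}]
      AlgebraicClosure E' := IsAlgClosed.lift
    exact ⟨ω.toRingHom, fun b => ω.commutes b⟩
  obtain ⟨e, he⟩ := ht
  obtain ⟨e', he'⟩ := ht'
  refine unique_aux c r x x' hx hx' h1 h1'
    ((algebraMap (Bf K x {r}) _).comp (algebraMap K (Bf K x {r}))) _ hcl
    (algebraMap E (AlgebraicClosure E)) (algebraMap E' (AlgebraicClosure E')) ω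
    (fun a => rfl) ?_ ?_ ?_ ⟨e, ?_⟩ ⟨e', ?_⟩ G hG
  · intro a
    show ω (algebraMap (Bf K x {r}) _ (algebraMap K (Bf K x {r}) a)) = _
    rw [hω, AlgHom.commutes]
    rfl
  · intro j hj i
    exact congrArg (algebraMap E (AlgebraicClosure E)) (xb_val j hj i)
  · intro j hj i
    rw [hω, hθ j hj, xb_val j hj]
  · exact notMem_range (algebraMap E (AlgebraicClosure E)) (B := Bf K x {r})
      (algebraMap (algebraicClosure (Bf K x {r}) (AlgebraicClosure E)) (AlgebraicClosure E))
      (RingHom.id _) (fun b => rfl) e he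
  · exact notMem_range (algebraMap E' (AlgebraicClosure E')) (B := Bf K x {r}) ω
      (θ : Bf K x {r} →+* Bf K x' {r}) hω e' he'

/-- All the generic points satisfy the same polynomials. -/
theorem exists_unique (h : Ty N d) (r : Fin k) (hr : N r = l + 1) :
    ∃ Δ : MvPolynomial (Tx N d) ℚ, Δ ≠ 0 ∧ ∀ (K : Type) [Field K] [CharZero K] (c : Tx N d → K),
      aeval c Δ ≠ 0 → ∀ (E E' : Type) [Field E] [Field E'] [Algebra K E] [Algebra K E']
      (x : Pt N E) (x' : Pt N E'),
      (∀ i, Fm (fun e => algebraMap K E (c e)) x i = 0) →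
      (∀ i, Fm (fun e => algebraMap K E' (c e)) x' i = 0) →
      (∀ j, x j 0 = 1) → (∀ j, x' j 0 = 1) →
      (AlgebraicIndependent K fun q : {q : Vr N // q.1 ≠ r} => x q.1.1 q.1.2.succ) →
      (AlgebraicIndependent K fun q : {q : Vr N // q.1 ≠ r} => x' q.1.1 q.1.2.succ) →
      (∃ e, Transcendental (Bf K x {r}) (x r e)) →
      (∃ e, Transcendental (Bf K x' {r}) (x' r e)) →
      ∀ G : MvPolynomial (Vr N) K, aeval (fun v => x v.1 v.2.succ) G = 0 →
        aeval (fun v => x' v.1 v.2.succ) G = 0 := by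
  obtain ⟨Δ, hΔ, H⟩ := fibre h r hr
  refine ⟨Δ, hΔ, ?_⟩
  intro K _ _ c hc E E' _ _ _ _ x x' hx hx' h1 h1' hi hi' ht ht'
  have hcz : CharZero (Bf K x {r}) :=
    charZero_of_injective_algebraMap (algebraMap K (Bf K x {r})).injective
  have hcz' : CharZero (algebraicClosure (Bf K x {r}) (AlgebraicClosure E)) :=
    charZero_of_injective_algebraMap (algebraMap (Bf K x {r}) _).injective
  have hac : IsAlgClosed (algebraicClosure (Bf K x {r}) (AlgebraicClosure E)) :=
    IsAlgClosure.isAlgClosed (Bf K x {r})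
  apply unique_of_CL c r x x' hx hx' h1 h1' hi hi' ht ht'
  refine H K c hc _ ((algebraMap (Bf K x {r}) _).comp (algebraMap K (Bf K x {r}))) _ ?_ ?_
  · intro j hj
    rw [xb_one h1 j hj, map_one]
  · exact hind_of hi (algebraMap (Bf K x {r}) _)

end Pool.Agent.Helper15.GM
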