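import Pool.Agent.Helper15.GM.Unique
import Pool.Agent.Helper24.MP.Prim

/-!
# The uniqueness statement in the form of block Q
-/

namespace Pool.Agent.Helper15.GM

open MvPolynomial Pool.Agent.Helper47.M Pool.Agent.Helper24.MP

variable {k l : ℕ} {N : Fin k → ℕ} {d : Fin l → Fin k → ℕ}

theorem exists_unq (h : Ty N d) (r : Fin k) (hr : N r = l + 1) :
    ∃ Δ : MvPolynomial (Tx N d) ℚ, Δ ≠ 0 ∧ ∀ (K : Type) [Field K] [CharZero K] (c : Tx N d → K),
      aeval c Δ ≠ 0 → Unq K c r := by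
  obtain ⟨Δ, hΔ, H⟩ := exists_unique h r hr
  refine ⟨Δ, hΔ, fun K _ _ c hc E E' _ _ _ _ x x' hx hx' G hG => ?_⟩
  exact H K c hc E E' x x' hx.eq hx'.eq hx.one hx'.one hx.ind hx'.ind hx.tr hx'.tr G hG

end Pool.Agent.Helper15.GM
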