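import Pool.Agent.Helper15.WE22

/-!
# Double covers of the line with four branch points are elliptic curves

`F` is an algebraically closed field, `Ω` an extension of it.  A transcendental element `t` of
`Ω` together with an element `w` with `w ^ 2 = q(t)`, `q` separable of degree three or four,
generate the function field of an elliptic curve in Weierstrass form.  The same for a plane
cubic and for a complete intersection of two quadrics in three-space, with a chosen rational
point.
-/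

namespace Pool.Agent.Helper15.GM

open Polynomial IntermediateField

section Closed

variable {F Ω : Type*} [Field F] [Field Ω] [Algebra F Ω]

/-- The elements `t`, `w` generate over `F` the function field of an elliptic curve. -/
def Ell (F : Type*) {Ω : Type*} [Field F] [Field Ω] [Algebra F Ω] (L : IntermediateField F Ω) :
    Prop :=
  ∃ (x y : Ω) (a b : F), Transcendental F x ∧
    y ^ 2 = x ^ 3 + algebraMap F Ω a * x + algebraMap F Ω b ∧
    4 * a ^ 3 + 27 * b ^ 2 ≠ 0 ∧ adjoin F {x, y} = L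

theorem transcendental_iff [IsAlgClosed F] (x : Ω) :
    Transcendental F x ↔ x ∉ Set.range (algebraMap F Ω) := by
  constructor
  · rintro h ⟨a, rfl⟩
    exact h (isAlgebraic_algebraMap a)
  · intro h ha
    apply h
    have hi : Irreducible (minpoly F x) := minpoly.irreducible ha.isIntegral
    exact minpoly.mem_range_of_degree_eq_one F x (IsAlgClosed.degree_eq_one_of_irreducible F hi)

theorem adjoin_pair_eq {x y x' y' : Ω} (h1 : x ∈ adjoin F {x', y'}) (h2 : y ∈ adjoin F {x', y'})
    (h3 : x' ∈ adjoin F {x, y}) (h4 : y' ∈ adjoin F {x, y}) :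
    adjoin F {x, y} = adjoin F {x', y'} := by
  apply le_antisymm
  · rw [adjoin_le_iff]
    rintro z (rfl | rfl)
    · exact h1
    · exact h2
  · rw [adjoin_le_iff]
    rintro z (rfl | rfl)
    · exact h3
    · exact h4

theorem mem_left (x y : Ω) : x ∈ adjoin F {x, y} := subset_adjoin _ _ (Or.inl rfl)

theorem mem_right (x y : Ω) : y ∈ adjoin F {x, y} := subset_adjoin _ _ (Or.inr rfl)

/-- The case of a cubic. -/
theorem ell_cubic [IsAlgClosed F] [CharZero F] {t w : Ω} (c s1 s2 s3 : F) (hc : c ≠ 0)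
    (h12 : s1 ≠ s2) (h13 : s1 ≠ s3) (h23 : s2 ≠ s3) (ht : Transcendental F t)
    (hw : w ^ 2 = algebraMap F Ω c * ((t - algebraMap F Ω s1) * (t - algebraMap F Ω s2)
      * (t - algebraMap F Ω s3))) : Ell F (adjoin F {t, w}) := by
  obtain ⟨g, hg⟩ : ∃ g : F, g ^ 2 = c := by
    obtain ⟨g, hg⟩ := IsAlgClosed.exists_pow_nat_eq c (n := 2) (by norm_num)
    exact ⟨g, hg⟩
  have hg0 : g ≠ 0 := by
    rintro rfl
    apply hc
    rw [← hg]; norm_num
  have h3 : (3 : F) ≠ 0 := by norm_num
  set m : F := (s1 + s2 + s3) / 3 with hm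
  have hm3 : 3 * m = s1 + s2 + s3 := by rw [hm]; field_simp
  have hgΩ : algebraMap F Ω g ≠ 0 := by
    rw [Ne, map_eq_zero]; exact hg0
  refine ⟨t - algebraMap F Ω m, w / algebraMap F Ω g,
    (s1 - m) * (s2 - m) + (s1 - m) * (s3 - m) + (s2 - m) * (s3 - m),
    -((s1 - m) * (s2 - m) * (s3 - m)), ?_, ?_, ?_, ?_⟩
  · rw [transcendental_iff] at ht ⊢
    rintro ⟨a, ha⟩
    exact ht ⟨a + m, by rw [map_add, ha]; ring⟩
  · have e1 : (w / algebraMap F Ω g) ^ 2 = w ^ 2 / algebraMap F Ω c := by
      rw [div_pow, ← hg, map_pow]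
    have hcΩ : algebraMap F Ω c ≠ 0 := by
      rw [Ne, map_eq_zero]; exact hc
    have e2 : algebraMap F Ω 3 * algebraMap F Ω m
        = algebraMap F Ω s1 + algebraMap F Ω s2 + algebraMap F Ω s3 := by
      rw [← map_mul, hm3, map_add, map_add]
    rw [map_ofNat] at e2
    rw [e1, hw, mul_div_cancel_left₀ _ hcΩ]
    simp only [map_add, map_sub, map_mul, map_neg]
    generalize algebraMap F Ω m = M at *
    generalize algebraMap F Ω s1 = S1 at *
    generalize algebraMap F Ω s2 = S2 at *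
    generalize algebraMap F Ω s3 = S3 at *
    linear_combination (t - M) ^ 2 * e2
  · have e : 4 * ((s1 - m) * (s2 - m) + (s1 - m) * (s3 - m) + (s2 - m) * (s3 - m)) ^ 3
        + 27 * (-((s1 - m) * (s2 - m) * (s3 - m))) ^ 2
        = -((s1 - s2) ^ 2 * (s1 - s3) ^ 2 * (s2 - s3) ^ 2) := by
      have hs3 : s3 = 3 * m - s1 - s2 := by rw [hm3]; ring
      rw [hs3]
      ring
    rw [e]
    exact neg_ne_zero.mpr (mul_ne_zero (mul_ne_zero (pow_ne_zero 2 (sub_ne_zero.mpr h12))
      (pow_ne_zero 2 (sub_ne_zero.mpr h13))) (pow_ne_zero 2 (sub_ne_zero.mpr h23)))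
  · apply adjoin_pair_eq
    · exact sub_mem (mem_left _ _) (_root_.algebraMap_mem _ _)
    · exact div_mem (mem_right _ _) (_root_.algebraMap_mem _ _)
    · have h1 := add_mem (mem_left (F := F) (t - algebraMap F Ω m) (w / algebraMap F Ω g))
        ((adjoin F {t - algebraMap F Ω m, w / algebraMap F Ω g}).algebraMap_mem m)
      rwa [sub_add_cancel] at h1
    · have h1 := mul_mem (mem_right (F := F) (t - algebraMap F Ω m) (w / algebraMap F Ω g))
        ((adjoin F {t - algebraMap F Ω m, w / algebraMap F Ω g}).algebraMap_mem g)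
      rwa [div_mul_cancel₀ _ hgΩ] at h1

/-- The case of a quartic. -/
theorem ell_quartic [IsAlgClosed F] [CharZero F] {t w : Ω} (c s1 s2 s3 s4 : F) (hc : c ≠ 0)
    (h12 : s1 ≠ s2) (h13 : s1 ≠ s3) (h14 : s1 ≠ s4) (h23 : s2 ≠ s3) (h24 : s2 ≠ s4)
    (h34 : s3 ≠ s4) (ht : Transcendental F t)
    (hw : w ^ 2 = algebraMap F Ω c * ((t - algebraMap F Ω s1) * (t - algebraMap F Ω s2)
      * (t - algebraMap F Ω s3) * (t - algebraMap F Ω s4))) : Ell F (adjoin F {t, w}) := by
  have hts : t - algebraMap F Ω s1 ≠ 0 := by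
    intro h
    rw [transcendental_iff] at ht
    exact ht ⟨s1, (sub_eq_zero.mp h).symm⟩
  have d12 : s1 - s2 ≠ 0 := sub_ne_zero.mpr h12
  have d13 : s1 - s3 ≠ 0 := sub_ne_zero.mpr h13
  have d14 : s1 - s4 ≠ 0 := sub_ne_zero.mpr h14
  have key : adjoin F {(t - algebraMap F Ω s1)⁻¹, w / (t - algebraMap F Ω s1) ^ 2}
      = adjoin F {t, w} := by
    have hm : t - algebraMap F Ω s1 ∈ adjoin F {t, w} :=
      sub_mem (mem_left _ _) (_root_.algebraMap_mem _ _)
    have hm' : t - algebraMap F Ω s1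
        ∈ adjoin F {(t - algebraMap F Ω s1)⁻¹, w / (t - algebraMap F Ω s1) ^ 2} := by
      have := inv_mem (mem_left (F := F) (t - algebraMap F Ω s1)⁻¹
        (w / (t - algebraMap F Ω s1) ^ 2))
      rwa [inv_inv] at this
    apply adjoin_pair_eq
    · exact inv_mem hm
    · exact div_mem (mem_right _ _) (pow_mem hm 2)
    · have := add_mem hm' (_root_.algebraMap_mem _ s1)
      rwa [sub_add_cancel] at this
    · have := mul_mem (mem_right (F := F) (t - algebraMap F Ω s1)⁻¹
        (w / (t - algebraMap F Ω s1) ^ 2)) (pow_mem hm' 2)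
      rwa [div_mul_cancel₀ _ (pow_ne_zero 2 hts)] at this
  rw [← key]
  have ne : ∀ a b : F, a ≠ 0 → b ≠ 0 → a ≠ b → -a⁻¹ ≠ -b⁻¹ := by
    intro a b ha hb hab h
    exact hab (inv_injective (neg_injective h))
  have nn : ∀ a b : F, a ≠ b → s1 - a ≠ s1 - b := by
    intro a b hab h
    apply hab
    linear_combination -h
  refine ell_cubic (c * ((s1 - s2) * (s1 - s3) * (s1 - s4))) (-(s1 - s2)⁻¹) (-(s1 - s3)⁻¹)
    (-(s1 - s4)⁻¹) (mul_ne_zero hc (mul_ne_zero (mul_ne_zero d12 d13) d14))
    (ne _ _ d12 d13 (nn _ _ h23)) (ne _ _ d12 d14 (nn _ _ h24)) (ne _ _ d13 d14 (nn _ _ h34))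
    ?_ ?_
  · rw [transcendental_iff] at ht ⊢
    rintro ⟨a, ha⟩
    apply ht
    refine ⟨a⁻¹ + s1, ?_⟩
    rw [map_add, map_inv₀, ha, inv_inv]
    ring
  · have E2 : algebraMap F Ω s1 - algebraMap F Ω s2 ≠ 0 := by
      rw [← map_sub, Ne, map_eq_zero]; exact d12
    have E3 : algebraMap F Ω s1 - algebraMap F Ω s3 ≠ 0 := by
      rw [← map_sub, Ne, map_eq_zero]; exact d13
    have E4 : algebraMap F Ω s1 - algebraMap F Ω s4 ≠ 0 := by
      rw [← map_sub, Ne, map_eq_zero]; exact d14
    rw [div_pow, hw]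
    simp only [map_mul, map_sub, map_neg, map_inv₀]
    generalize algebraMap F Ω s1 = S1 at *
    generalize algebraMap F Ω s2 = S2 at *
    generalize algebraMap F Ω s3 = S3 at *
    generalize algebraMap F Ω s4 = S4 at *
    generalize algebraMap F Ω c = C at *
    field_simp
    ring

/-- A separable polynomial of degree three or four. -/
theorem ell_of_sep [IsAlgClosed F] [CharZero F] {t w : Ω} (q : Polynomial F)
    (hq : q.Separable) (h3 : 3 ≤ q.natDegree) (h4 : q.natDegree ≤ 4) (ht : Transcendental F t)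
    (hw : w ^ 2 = aeval t q) : Ell F (adjoin F {t, w}) := by
  have hQ0 : q ≠ 0 := by
    rintro rfl
    simp at h3
  have hsplit := (IsAlgClosed.splits q).eq_prod_roots
  have hcard : q.roots.card = q.natDegree := IsAlgClosed.card_roots_eq_natDegree
  have hnodup := Polynomial.nodup_roots hq
  have hlc : q.leadingCoeff ≠ 0 := Polynomial.leadingCoeff_ne_zero.mpr hQ0
  rcases (by omega : q.natDegree = 3 ∨ q.natDegree = 4) with hd | hd
  · rw [hd] at hcard
    obtain ⟨s1, s2, s3, hs⟩ := Multiset.card_eq_three.mp hcard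
    rw [hs] at hnodup hsplit
    obtain ⟨n1, n2, n3⟩ : s1 ≠ s2 ∧ s1 ≠ s3 ∧ s2 ≠ s3 := by
      simp only [Multiset.insert_eq_cons, Multiset.nodup_cons, Multiset.mem_cons,
        Multiset.mem_singleton, not_or] at hnodup
      exact ⟨hnodup.1.1, hnodup.1.2, hnodup.2.1⟩
    apply ell_cubic q.leadingCoeff s1 s2 s3 hlc n1 n2 n3 ht
    rw [hw]
    have hQe : q = Polynomial.C q.leadingCoeff * ((Polynomial.X - Polynomial.C s1) *
        ((Polynomial.X - Polynomial.C s2) * (Polynomial.X - Polynomial.C s3))) := by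
      conv_lhs => rw [hsplit]
      simp
    conv_lhs => rw [hQe]
    simp only [map_mul, map_sub, aeval_C, aeval_X]
    ring
  · rw [hd] at hcard
    obtain ⟨s1, T, hT⟩ : ∃ s1 T, q.roots = s1 ::ₘ T :=
      Multiset.exists_cons_of_mem (Multiset.card_pos_iff_exists_mem.mp (by omega)).choose_spec
        |>.elim fun t ht => ⟨_, t, ht⟩
    have hcardT : T.card = 3 := by
      rw [hT, Multiset.card_cons] at hcard
      omega
    obtain ⟨s2, s3, s4, hs⟩ := Multiset.card_eq_three.mp hcardT
    rw [hT, hs] at hnodup hsplit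
    obtain ⟨⟨n1, n2, n3⟩, ⟨n4, n5⟩, n6⟩ : (s1 ≠ s2 ∧ s1 ≠ s3 ∧ s1 ≠ s4) ∧ (s2 ≠ s3 ∧ s2 ≠ s4)
        ∧ s3 ≠ s4 := by
      simp only [Multiset.insert_eq_cons, Multiset.nodup_cons, Multiset.mem_cons,
        Multiset.mem_singleton, not_or] at hnodup
      exact ⟨hnodup.1, hnodup.2.1, hnodup.2.2.1⟩
    apply ell_quartic q.leadingCoeff s1 s2 s3 s4 hlc n1 n2 n3 n4 n5 n6 ht
    rw [hw]
    have hQe : q = Polynomial.C q.leadingCoeff * ((Polynomial.X - Polynomial.C s1) *
        ((Polynomial.X - Polynomial.C s2) * ((Polynomial.X - Polynomial.C s3) *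
          (Polynomial.X - Polynomial.C s4)))) := by
      conv_lhs => rw [hsplit]
      simp
    conv_lhs => rw [hQe]
    simp only [map_mul, map_sub, aeval_C, aeval_X]
    ring

/-- A quadratic equation over the rational function field. -/
theorem ell_of_quadratic [IsAlgClosed F] [CharZero F] {t u : Ω} (A2 A1 A0 : Polynomial F)
    (hq : (A1 ^ 2 - 4 * A2 * A0).Separable) (h3 : 3 ≤ (A1 ^ 2 - 4 * A2 * A0).natDegree)
    (h4 : (A1 ^ 2 - 4 * A2 * A0).natDegree ≤ 4) (ht : Transcendental F t)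
    (hu : aeval t A2 * u ^ 2 + aeval t A1 * u + aeval t A0 = 0) :
    Ell F (adjoin F {t, u}) := by
  have hA2 : A2 ≠ 0 := by
    rintro rfl
    have h1 : A1 ^ 2 - 4 * 0 * A0 = A1 * A1 := by ring
    rw [h1] at hq h3
    have h2 : IsUnit A1 := by
      have := hq.squarefree A1 (dvd_refl _)
      exact this
    have h5 : (A1 * A1).natDegree = 0 := by
      rw [Polynomial.natDegree_eq_zero_of_isUnit (h2.mul h2)]
    omega
  have h0 : aeval t A2 ≠ 0 := by
    intro h
    apply ht
    exact ⟨A2, hA2, h⟩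
  have h2 : (2 : Ω) ≠ 0 := by
    have : (2 : Ω) = algebraMap F Ω 2 := (map_ofNat _ 2).symm
    rw [this, Ne, map_eq_zero]; norm_num
  have hmem : ∀ (L : IntermediateField F Ω), t ∈ L → ∀ p : Polynomial F, aeval t p ∈ L := by
    intro L hL p
    rw [aeval_eq_sum_range]
    exact sum_mem fun i _ => L.smul_mem (pow_mem hL i)
  have key : adjoin F {t, 2 * aeval t A2 * u + aeval t A1} = adjoin F {t, u} := by
    apply adjoin_pair_eq (mem_left _ _) _ (mem_left _ _)
    · have h6 : u = (2 * aeval t A2 * u + aeval t A1 - aeval t A1) / (2 * aeval t A2) := by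
        field_simp
        ring
      have hL := hmem (adjoin F {t, 2 * aeval t A2 * u + aeval t A1}) (mem_left _ _)
      have h7 := div_mem (sub_mem (mem_right (F := F) t (2 * aeval t A2 * u + aeval t A1))
        (hL A1)) (mul_mem (ofNat_mem _ 2) (hL A2))
      rwa [← h6] at h7
    · have hL := hmem (adjoin F {t, u}) (mem_left _ _)
      exact add_mem (mul_mem (mul_mem (ofNat_mem _ 2) (hL _)) (mem_right _ _)) (hL _)
  rw [← key]
  apply ell_of_sep _ hq h3 h4 ht
  simp only [map_sub, map_mul, map_pow, map_ofNat]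
  linear_combination (4 * aeval t A2) * hu

end Closed

end Pool.Agent.Helper15.GM
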